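import Pool.Agent.Lib.MP_2b5695_lc.RO.Stmts

/-!
Project RO (random oracle at all levels), piece `bi`: the identities for the weights of one block.
-/

namespace Pool.Agent.Lib.MP_2b5695_lc.RO

open Finset

section

variable {W : Type} [Fintype W]

private lemma bi_mw_nonneg (t : ℝ) (c : W → St) (h0 : 0 ≤ t) (h1 : t ≤ 1) (u : W → Bool) :
    0 ≤ mw t c u := by
  unfold mw
  apply Finset.prod_nonneg
  intro w _
  split_ifs <;> linarith

private lemma bi_mw_zr (t : ℝ) (c : W → St) : mw t c zr = (1 - t) ^ nL c := by
  unfold mw nL zr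
  simp only [Bool.false_eq_true, if_false]
  rw [Finset.prod_ite, Finset.prod_const, Finset.prod_const_one, mul_one]

private lemma bi_prod_sum [DecidableEq W] (g : W → Bool → ℝ) :
    ∑ u : W → Bool, ∏ w, g w (u w) = ∏ w, (g w true + g w false) := by
  have h := Finset.prod_univ_sum (fun _ : W => (Finset.univ : Finset Bool)) g
  rw [Fintype.piFinset_univ] at h
  rw [← h]
  apply Finset.prod_congr rfl
  intro w _
  rw [Fintype.sum_bool]

private lemma bi_mw_sum [DecidableEq W] (t : ℝ) (c : W → St) : ∑ u : W → Bool, mw t c u = 1 := by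
  unfold mw
  rw [bi_prod_sum fun w b => if c w = .live then (if b then t else 1 - t) else (if b then 0 else 1)]
  apply Finset.prod_eq_one
  intro w _
  by_cases h : c w = .live
  · rw [if_pos h, if_pos h]
    simp
  · rw [if_neg h, if_neg h]
    simp

private lemma bi_mw_zero (t : ℝ) (c : W → St) (u : W → Bool) (w : W) (hu : u w = true)
    (hc : c w ≠ .live) : mw t c u = 0 := by
  unfold mw
  apply Finset.prod_eq_zero (Finset.mem_univ w)
  rw [if_neg hc, if_pos hu]

private lemma bi_mw_sum' [DecidableEq W] (t : ℝ) (c : W → St) :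
    ∑ u : W → Bool, (if u = zr then 0 else mw t c u) = 1 - (1 - t) ^ nL c := by
  have h1 : ∀ u : W → Bool, (if u = zr then 0 else mw t c u) =
      mw t c u - (if u = zr then mw t c u else 0) := by
    intro u
    split_ifs <;> ring
  rw [Finset.sum_congr rfl fun u _ => h1 u, Finset.sum_sub_distrib, bi_mw_sum,
    Finset.sum_ite_eq' Finset.univ zr, if_pos (Finset.mem_univ _), bi_mw_zr]

private lemma bi_lp (t t' : ℝ) (Lm : ℕ) (c : W → St) (hP : Par t t' Lm) :
    (lp t t' Lm c = 0 ∨ ((∀ w, c w ≠ .tru) ∧ Lm ≤ nL c ∧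
      lp t t' Lm c * (2 * t') = (1 - t) ^ nL c ∧ (1 - t) ^ nL c ≤ 1 / 2)) ∧
    0 ≤ lp t t' Lm c ∧ lp t t' Lm c ≤ 1 / 2 := by
  have h1 := hP.pos
  have h2 := hP.le
  have h3 := hP.pos'
  have h4 := hP.le'
  unfold lp
  by_cases h : (∀ w, c w ≠ .tru) ∧ Lm ≤ nL c
  · rw [if_pos h]
    have h5 : (1 - t) ^ nL c ≤ t' :=
      le_trans (pow_le_pow_of_le_one (by linarith) (by linarith) h.2) hP.small
    have h6 : 0 ≤ (1 - t) ^ nL c := pow_nonneg (by linarith) _
    refine ⟨Or.inr ⟨h.1, h.2, ?_, by linarith⟩, by positivity, ?_⟩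
    · field_simp
    · rw [div_le_iff₀ (by positivity)]
      linarith
  · rw [if_neg h]
    exact ⟨Or.inl rfl, le_rfl, by norm_num⟩

/-- the sum of the weights of the free states -/
private lemma bi_sum_true [DecidableEq W] (t t' : ℝ) (Lm : ℕ) (c : W → St) (hP : Par t t' Lm) :
    ∑ S : W → Bool, bw t t' Lm c (true, S) = lp t t' Lm c := by
  obtain ⟨h1, h2, h3⟩ := bi_lp t t' Lm c hP
  have e : ∀ S : W → Bool, bw t t' Lm c (true, S) =
      lp t t' Lm c / (1 - (1 - t) ^ nL c) * (if S = zr then 0 else mw t c S) := by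
    intro S
    simp only [bw]
    split_ifs
    · rw [mul_zero]
    · ring
  rw [Finset.sum_congr rfl fun S _ => e S, ← Finset.mul_sum, bi_mw_sum']
  rcases h1 with h1 | ⟨_, _, _, h4⟩
  · rw [h1]
    ring
  · rw [div_mul_cancel₀]
    linarith

private lemma bi_sum_q [DecidableEq W] (F : Bs W × Bool → ℝ) :
    ∑ q : Bs W × Bool, F q = (∑ S : W → Bool, F ((true, S), true)) +
      (∑ S : W → Bool, F ((true, S), false)) +
      ((∑ S : W → Bool, F ((false, S), true)) + ∑ S : W → Bool, F ((false, S), false)) := by
  rw [Fintype.sum_prod_type, Fintype.sum_prod_type, Fintype.sum_bool]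
  simp only [Fintype.sum_bool]
  rw [Finset.sum_add_distrib, Finset.sum_add_distrib]

omit [Fintype W] in
private lemma bi_ph_tt (S : W → Bool) : ph (true, S) true = (zr : W → Bool) := by
  funext w
  simp [ph, zr]

omit [Fintype W] in
private lemma bi_ph_tf (S : W → Bool) : ph (true, S) false = S := by
  funext w
  simp [ph]

omit [Fintype W] in
private lemma bi_ph_f (S : W → Bool) (b : Bool) : ph (false, S) b = S := rfl

end

theorem bi : S_bi := by
  classical
  intro W _ _ t t' Lm c hP
  obtain ⟨h1, h2, h3⟩ := bi_lp t t' Lm c hP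
  have p1 := hP.pos
  have p2 := hP.le
  have p3 := hP.pos'
  have p4 := hP.le'
  have hmw := bi_mw_nonneg t c p1.le (by linarith)
  have ha1 : (1 - t) ^ nL c ≤ 1 := pow_le_one₀ (by linarith) (by linarith)
  have ha0 : 0 ≤ (1 - t) ^ nL c := pow_nonneg (by linarith) _
  -- the coefficient of the known states
  have hco : 0 ≤ 1 - lp t t' Lm c * (1 - t') / (1 - (1 - t) ^ nL c) := by
    rcases h1 with h1 | ⟨_, _, _, h4⟩
    · rw [h1]
      simp
    · rw [sub_nonneg, div_le_one (by linarith)]
      have : lp t t' Lm c * (1 - t') ≤ 1 / 2 * (1 - t') :=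
        mul_le_mul_of_nonneg_right h3 (by linarith)
      linarith
  have hzr : 0 ≤ mw t c zr - lp t t' Lm c * t' := by
    rw [bi_mw_zr]
    rcases h1 with h1 | ⟨_, _, h5, _⟩
    · rw [h1]
      linarith
    · linarith
  have hnn : ∀ ξ, 0 ≤ bw t t' Lm c ξ := by
    rintro ⟨b, S⟩
    cases b
    · simp only [bw]
      split_ifs with hS
      · rw [hS]
        exact hzr
      · exact mul_nonneg (hmw S) hco
    · simp only [bw]
      split_ifs with hS
      · exact le_rfl
      · exact div_nonneg (mul_nonneg h2 (hmw S)) (by linarith)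
  -- the values of the weights
  have hbt : ∀ S : W → Bool, S ≠ zr →
      bw t t' Lm c (true, S) = lp t t' Lm c * mw t c S / (1 - (1 - t) ^ nL c) := by
    intro S hS
    simp only [bw]
    rw [if_neg hS]
  have hbt0 : bw t t' Lm c (true, (zr : W → Bool)) = 0 := by
    simp only [bw]
    exact if_pos trivial
  have hbf : ∀ S : W → Bool, S ≠ zr → bw t t' Lm c (false, S) =
      mw t c S * (1 - lp t t' Lm c * (1 - t') / (1 - (1 - t) ^ nL c)) := by
    intro S hS
    simp only [bw]
    rw [if_neg hS]
  have hbf0 : bw t t' Lm c (false, (zr : W → Bool)) = mw t c zr - lp t t' Lm c * t' := by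
    simp only [bw]
    exact if_pos trivial
  have h6 : ∀ u : W → Bool, ∑ q : Bs W × Bool, (if ph q.1 q.2 = u then
      bw t t' Lm c q.1 * (if q.2 then t' else 1 - t') else 0) = mw t c u := by
    intro u
    rw [bi_sum_q]
    simp only [bi_ph_tt, bi_ph_tf, bi_ph_f, if_true, Bool.false_eq_true, if_false]
    rw [Finset.sum_ite_eq' Finset.univ u, if_pos (Finset.mem_univ _),
      Finset.sum_ite_eq' Finset.univ u, if_pos (Finset.mem_univ _),
      Finset.sum_ite_eq' Finset.univ u, if_pos (Finset.mem_univ _)]
    by_cases hu : u = zr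
    · subst hu
      simp only [if_true]
      rw [← Finset.sum_mul, bi_sum_true t t' Lm c hP, hbt0, hbf0]
      ring
    · simp only [if_neg (Ne.symm hu)]
      rw [Finset.sum_const_zero, hbt u hu, hbf u hu]
      ring
  refine ⟨hnn, ?_, ?_, ?_, hmw, bi_mw_zr t c, h6, ?_, ?_⟩
  · -- total weight
    have e1 : ∑ u : W → Bool, ∑ q : Bs W × Bool, (if ph q.1 q.2 = u then
      bw t t' Lm c q.1 * (if q.2 then t' else 1 - t') else 0) = 1 := by
      rw [Finset.sum_congr rfl fun u _ => h6 u, bi_mw_sum]
    rw [Finset.sum_comm] at e1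
    rw [← e1]
    symm
    refine (Fintype.sum_prod_type _).trans ?_
    apply Finset.sum_congr rfl
    intro ξ _
    have e2 : ∀ q : Bool, ∑ u : W → Bool, (if ph ξ q = u then
        bw t t' Lm c ξ * (if q then t' else 1 - t') else 0) =
        bw t t' Lm c ξ * (if q then t' else 1 - t') := by
      intro q
      rw [Finset.sum_ite_eq Finset.univ (ph ξ q), if_pos (Finset.mem_univ _)]
    rw [Fintype.sum_bool, e2, e2]
    simp only [if_true, Bool.false_eq_true, if_false]
    ring
  · -- the changed variables are free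
    rintro ⟨b, S⟩ hb w hw
    by_contra hc
    apply hb
    have h0 : mw t c S = 0 := bi_mw_zero t c S w hw hc
    have hS : S ≠ zr := by
      rintro rfl
      exact Bool.false_ne_true hw
    cases b
    · rw [hbf S hS, h0, zero_mul]
    · rw [hbt S hS, h0, mul_zero, zero_div]
  · -- free states
    intro S hb
    have hS : S ≠ zr := by
      rintro rfl
      exact hb hbt0
    refine ⟨?_, hS⟩
    rcases h1 with h1 | ⟨h4, _⟩
    · exfalso
      apply hb
      rw [hbt S hS, h1, zero_mul, zero_div]
    · exact h4
  · -- the second description of mw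
    intro u
    have e1 : ∀ v : W → Bool, (if (fun w => v w && decide (c w = .live)) = u then bn t v else 0) =
        ∏ w, (if (v w && decide (c w = .live)) = u w then (if v w then t else 1 - t) else 0) := by
      intro v
      by_cases h : (fun w => v w && decide (c w = .live)) = u
      · rw [if_pos h]
        unfold bn
        apply Finset.prod_congr rfl
        intro w _
        rw [if_pos (congrFun h w)]
      · rw [if_neg h]
        symm
        have h' : ∃ w, (v w && decide (c w = .live)) ≠ u w := by
          by_contra hh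
          push Not at hh
          exact h (funext hh)
        obtain ⟨w, hw⟩ := h'
        exact Finset.prod_eq_zero (Finset.mem_univ w) (if_neg hw)
    rw [Finset.sum_congr rfl fun v _ => e1 v, bi_prod_sum fun w b =>
      if (b && decide (c w = .live)) = u w then (if b then t else 1 - t) else 0]
    unfold mw
    apply Finset.prod_congr rfl
    intro w _
    by_cases hc : c w = .live
    · rw [if_pos hc]
      cases hu : u w <;> simp [hc]
    · rw [if_neg hc]
      cases hu : u w <;> simp [hc]
  · -- half of the weight of the all false assignment is free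
    intro hc hL
    have hlp : lp t t' Lm c * (2 * t') = (1 - t) ^ nL c := by
      rcases h1 with h1 | ⟨_, _, h5, _⟩
      · exfalso
        unfold lp at h1
        rw [if_pos ⟨hc, hL⟩] at h1
        have : 0 < (1 - t) ^ nL c := pow_pos (by linarith) _
        have h7 : 0 < (1 - t) ^ nL c / (2 * t') := by positivity
        linarith
      · exact h5
    rw [bi_sum_q]
    have n1 : ∀ S : W → Bool, nst c (true, S) = .live := fun S => rfl
    have n2 : ∀ S : W → Bool, nst c (false, S) ≠ .live := by
      intro S
      unfold nst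
      simp only
      split_ifs <;> simp
    simp only [bi_ph_tt, bi_ph_tf, bi_ph_f, if_true, Bool.false_eq_true, if_false, n1, if_neg (n2 _),
      mul_one, mul_zero, ite_self, Finset.sum_const_zero, add_zero]
    rw [Finset.sum_ite_eq' Finset.univ (zr : W → Bool), if_pos (Finset.mem_univ _), hbt0,
      ← Finset.sum_mul, bi_sum_true t t' Lm c hP, bi_mw_zr]
    linarith

end Pool.Agent.Lib.MP_2b5695_lc.RO
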