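import Pool.Agent.Lib.MP_2b5695_lc.RO.Stmts

/-!
Project RO, piece [cmp]: composition of decision trees.
-/

namespace Pool.Agent.Lib.MP_2b5695_lc.RO

open Pool.Agent.Lib.MP_2b5695_lc.Alg Finset

/-- continue a decision tree at its leaves -/
private def bnd {X β γ : Type} : Tree X β → (β → Tree X γ) → Tree X γ
  | .leaf b, f => f b
  | .node x l r, f => .node x (bnd l f) (bnd r f)

private theorem bnd_eval {X β γ : Type} (T : Tree X β) (f : β → Tree X γ) (v : X → Bool) :
    (bnd T f).eval v = (f (T.eval v)).eval v := by
  induction T with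
  | leaf b => rfl
  | node x l r ihl ihr =>
    simp only [bnd, Tree.eval]
    cases v x
    · simpa using ihl
    · simpa using ihr

private theorem bnd_depth {X β γ : Type} (T : Tree X β) (f : β → Tree X γ) (D : ℕ)
    (h : ∀ b, (f b).depth ≤ D) : (bnd T f).depth ≤ T.depth + D := by
  induction T with
  | leaf b => simpa [bnd, Tree.depth] using h b
  | node x l r ihl ihr =>
    simp only [bnd, Tree.depth]
    omega

private theorem cmp_one {X Q β : Type} (s : ℕ) (F : Q → (X → Bool) → Bool)
    (hF : ∀ q, DT s (F q)) (T : Tree Q β) :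
    DT (T.depth * s) fun v => T.eval fun q => F q v := by
  induction T with
  | leaf b => exact ⟨.leaf b, by simp [Tree.depth], fun v => rfl⟩
  | node q l r ihl ihr =>
    obtain ⟨Tq, hq, hq'⟩ := hF q
    obtain ⟨Tl, hl, hl'⟩ := ihl
    obtain ⟨Tr, hr, hr'⟩ := ihr
    refine ⟨bnd Tq fun b => bif b then Tr else Tl, ?_, fun v => ?_⟩
    · have h1 : ∀ b : Bool, (bif b then Tr else Tl).depth ≤ max l.depth r.depth * s := by
        intro b
        cases b
        · exact hl.trans (Nat.mul_le_mul_right s (le_max_left _ _))
        · exact hr.trans (Nat.mul_le_mul_right s (le_max_right _ _))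
      have h2 := bnd_depth Tq (fun b => bif b then Tr else Tl) _ h1
      have h3 : (max l.depth r.depth + 1) * s = max l.depth r.depth * s + s := by ring
      show (bnd Tq fun b => bif b then Tr else Tl).depth ≤ (max l.depth r.depth + 1) * s
      rw [h3]
      omega
    · rw [bnd_eval, hq']
      show _ = bif F q v then (r.eval fun q => F q v) else (l.eval fun q => F q v)
      cases F q v
      · exact hl' v
      · exact hr' v

private theorem cmp_two {X β : Type} (d : ℕ) : ∀ (k : ℕ) (g : Fin k → (X → Bool) → β),
    (∀ j, DT d (g j)) → DT (k * d) fun v j => g j v := by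
  intro k
  induction k with
  | zero =>
    intro g _
    exact ⟨.leaf fun j => j.elim0, by simp [Tree.depth], fun v => by
      funext j
      exact j.elim0⟩
  | succ k ih =>
    intro g hg
    obtain ⟨T0, h0, h0'⟩ := hg 0
    obtain ⟨T1, h1, h1'⟩ := ih (fun j => g j.succ) fun j => hg j.succ
    refine ⟨bnd T0 fun b => bnd T1 fun h => .leaf (Fin.cons b h), ?_, fun v => ?_⟩
    · have h2 : ∀ b : β, (bnd T1 fun h => Tree.leaf (X := X) (Fin.cons b h : Fin (k + 1) → β)).depth
          ≤ k * d := by
        intro b
        have h3 := bnd_depth T1 (fun h => Tree.leaf (X := X) (Fin.cons b h : Fin (k + 1) → β)) 0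
          fun _ => le_rfl
        omega
      have h4 := bnd_depth T0 (fun b => bnd T1 fun h =>
        Tree.leaf (X := X) (Fin.cons b h : Fin (k + 1) → β)) _ h2
      have h5 : (k + 1) * d = k * d + d := by ring
      rw [h5]
      exact h4.trans (by omega)
    · rw [bnd_eval, bnd_eval, h0', h1']
      show (Fin.cons (g 0 v) (fun j : Fin k => g j.succ v) : Fin (k + 1) → β) = _
      funext j
      refine Fin.cases ?_ (fun j => ?_) j
      · rfl
      · rfl

theorem cmp : S_cmp := by
  refine ⟨fun X Q β d s T F hT hF => ?_, fun X β k d g hg => cmp_two d k g hg⟩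
  obtain ⟨T', h1, h2⟩ := cmp_one s F hF T
  exact ⟨T', h1.trans (Nat.mul_le_mul_right s hT), h2⟩

end Pool.Agent.Lib.MP_2b5695_lc.RO
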