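import Pool.Agent.Lib.MP_2b5695_lc.RO.Stmts

/-!
Project RO: there are countably many programs.
-/

set_option autoImplicit false

namespace Pool.Agent.Lib.MP_2b5695_lc.RO

open Pool.Agent.Lib.MP_2b5695_lc.Alg

private def cnt_enc : Ty → ℕ
  | .bool => 0
  | .prod a b => 2 * Nat.pair (cnt_enc a) (cnt_enc b) + 1
  | .list a => 2 * cnt_enc a + 2

private theorem cnt_enc_inj : ∀ a b : Ty, cnt_enc a = cnt_enc b → a = b := by
  intro a
  induction a with
  | bool =>
    intro b h
    cases b with
    | bool => rfl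
    | prod c d => simp only [cnt_enc] at h; omega
    | list c => simp only [cnt_enc] at h; omega
  | prod a1 a2 h1 h2 =>
    intro b h
    cases b with
    | bool => simp only [cnt_enc] at h; omega
    | prod c d =>
      simp only [cnt_enc] at h
      have h' : Nat.pair (cnt_enc a1) (cnt_enc a2) = Nat.pair (cnt_enc c) (cnt_enc d) := by omega
      rw [Nat.pair_eq_pair] at h'
      rw [h1 c h'.1, h2 d h'.2]
    | list c => simp only [cnt_enc] at h; omega
  | list a1 h1 =>
    intro b h
    cases b with
    | bool => simp only [cnt_enc] at h; omega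
    | prod c d => simp only [cnt_enc] at h; omega
    | list c =>
      simp only [cnt_enc] at h
      rw [h1 c (by omega)]

private theorem cnt_ty : Countable Ty :=
  Function.Injective.countable (f := cnt_enc) fun a b h => cnt_enc_inj a b h

private theorem cnt_poly : Countable (Polynomial ℕ) := by
  have h : Function.Injective (fun p : Polynomial ℕ => (List.range (p.natDegree + 1)).map p.coeff) := by
    intro p q hpq
    have hlen := congrArg List.length hpq
    simp only [List.length_map, List.length_range] at hlen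
    ext i
    by_cases hi : i < p.natDegree + 1
    · have h1 := congrArg (fun l : List ℕ => l[i]?) hpq
      simp only [List.getElem?_map] at h1
      rw [List.getElem?_range hi, List.getElem?_range (by omega)] at h1
      simpa using h1
    · rw [Polynomial.coeff_eq_zero_of_natDegree_lt (by omega),
        Polynomial.coeff_eq_zero_of_natDegree_lt (by omega)]
  exact h.countable

/-- the number of constructors -/
private def cnt_sz {κ : Ty} : {a b : Ty} → Code κ a b → ℕ
  | _, _, .id _ => 1
  | _, _, .comp g f => cnt_sz g + cnt_sz f + 1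
  | _, _, .pair f g => cnt_sz f + cnt_sz g + 1
  | _, _, .fst _ _ => 1
  | _, _, .snd _ _ => 1
  | _, _, .tt _ => 1
  | _, _, .ff _ => 1
  | _, _, .nil _ _ => 1
  | _, _, .cons _ => 1
  | _, _, .cond _ => 1
  | _, _, .query => 1
  | _, _, .listRec _ g h => cnt_sz g + cnt_sz h + 1

/-- all programs -/
@[reducible] private def cnt_S (κ : Ty) : Type := Σ a : Ty, Σ b : Ty, Code κ a b

private theorem cnt_step (κ : Ty) (n : ℕ)
    (ih : ∀ a b : Ty, {C : Code κ a b | cnt_sz C ≤ n}.Countable) :
    {x : cnt_S κ | cnt_sz x.2.2 ≤ n + 1}.Countable := by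
  have hTy : Countable Ty := cnt_ty
  have hPol : Countable (Polynomial ℕ) := cnt_poly
  have hcomp : (⋃ a : Ty, ⋃ b : Ty, ⋃ c : Ty, Set.image2
      (fun (g : Code κ b c) (f : Code κ a b) => (⟨a, c, .comp g f⟩ : cnt_S κ))
      {C | cnt_sz C ≤ n} {C | cnt_sz C ≤ n}).Countable :=
    Set.countable_iUnion fun a => Set.countable_iUnion fun b => Set.countable_iUnion fun c =>
      (ih b c).image2 (ih a b) _
  have hpair : (⋃ a : Ty, ⋃ b : Ty, ⋃ c : Ty, Set.image2
      (fun (f : Code κ a b) (g : Code κ a c) => (⟨a, .prod b c, .pair f g⟩ : cnt_S κ))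
      {C | cnt_sz C ≤ n} {C | cnt_sz C ≤ n}).Countable :=
    Set.countable_iUnion fun a => Set.countable_iUnion fun b => Set.countable_iUnion fun c =>
      (ih a b).image2 (ih a c) _
  have hrec : (⋃ a : Ty, ⋃ b : Ty, ⋃ c : Ty, ⋃ p : Polynomial ℕ, Set.image2
      (fun (g : Code κ a c) (h : Code κ (.prod b (.prod (.list b) (.prod a c))) c) =>
        (⟨.prod (.list b) a, c, .listRec p g h⟩ : cnt_S κ))
      {C | cnt_sz C ≤ n} {C | cnt_sz C ≤ n}).Countable :=
    Set.countable_iUnion fun a => Set.countable_iUnion fun b => Set.countable_iUnion fun c =>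
      Set.countable_iUnion fun p => (ih a c).image2 (ih _ c) _
  have hbase : (Set.range (fun a : Ty => (⟨a, a, .id a⟩ : cnt_S κ)) ∪
      Set.range (fun x : Ty × Ty => (⟨.prod x.1 x.2, x.1, .fst x.1 x.2⟩ : cnt_S κ)) ∪
      Set.range (fun x : Ty × Ty => (⟨.prod x.1 x.2, x.2, .snd x.1 x.2⟩ : cnt_S κ)) ∪
      Set.range (fun a : Ty => (⟨a, .bool, .tt a⟩ : cnt_S κ)) ∪
      Set.range (fun a : Ty => (⟨a, .bool, .ff a⟩ : cnt_S κ)) ∪
      Set.range (fun x : Ty × Ty => (⟨x.1, .list x.2, .nil x.1 x.2⟩ : cnt_S κ)) ∪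
      Set.range (fun a : Ty => (⟨.prod a (.list a), .list a, .cons a⟩ : cnt_S κ)) ∪
      Set.range (fun a : Ty => (⟨.prod .bool (.prod a a), a, .cond a⟩ : cnt_S κ)) ∪
      {(⟨κ, .bool, .query⟩ : cnt_S κ)}).Countable := by
    refine ((((((((Set.countable_range _).union (Set.countable_range _)).union
      (Set.countable_range _)).union (Set.countable_range _)).union
      (Set.countable_range _)).union (Set.countable_range _)).union
      (Set.countable_range _)).union (Set.countable_range _)).union (Set.countable_singleton _)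
  refine (((hcomp.union hpair).union hrec).union hbase).mono ?_
  rintro ⟨a, b, C⟩ hC
  cases C with
  | id a => exact Or.inr (Or.inl (Or.inl (Or.inl (Or.inl (Or.inl (Or.inl (Or.inl (Or.inl
      ⟨_, rfl⟩))))))))
  | comp g f =>
    simp only [Set.mem_ofPred_eq, cnt_sz] at hC
    refine Or.inl (Or.inl (Or.inl ?_))
    simp only [Set.mem_iUnion]
    exact ⟨_, _, _, g, by simp only [Set.mem_ofPred_eq]; omega, f,
      by simp only [Set.mem_ofPred_eq]; omega, rfl⟩
  | pair f g =>
    simp only [Set.mem_ofPred_eq, cnt_sz] at hC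
    refine Or.inl (Or.inl (Or.inr ?_))
    simp only [Set.mem_iUnion]
    exact ⟨_, _, _, f, by simp only [Set.mem_ofPred_eq]; omega, g,
      by simp only [Set.mem_ofPred_eq]; omega, rfl⟩
  | fst a b => exact Or.inr (Or.inl (Or.inl (Or.inl (Or.inl (Or.inl (Or.inl (Or.inl (Or.inr
      ⟨(_, _), rfl⟩))))))))
  | snd a b => exact Or.inr (Or.inl (Or.inl (Or.inl (Or.inl (Or.inl (Or.inl (Or.inr
      ⟨(_, _), rfl⟩)))))))
  | tt a => exact Or.inr (Or.inl (Or.inl (Or.inl (Or.inl (Or.inl (Or.inr ⟨_, rfl⟩))))))
  | ff a => exact Or.inr (Or.inl (Or.inl (Or.inl (Or.inl (Or.inr ⟨_, rfl⟩)))))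
  | nil a b => exact Or.inr (Or.inl (Or.inl (Or.inl (Or.inr ⟨(_, _), rfl⟩))))
  | cons a => exact Or.inr (Or.inl (Or.inl (Or.inr ⟨_, rfl⟩)))
  | cond a => exact Or.inr (Or.inl (Or.inr ⟨_, rfl⟩))
  | query => exact Or.inr (Or.inr rfl)
  | listRec p g h =>
    simp only [Set.mem_ofPred_eq, cnt_sz] at hC
    refine Or.inl (Or.inr ?_)
    simp only [Set.mem_iUnion]
    exact ⟨_, _, _, p, g, by simp only [Set.mem_ofPred_eq]; omega, h,
      by simp only [Set.mem_ofPred_eq]; omega, rfl⟩

private theorem cnt_one_le {κ a b : Ty} (C : Code κ a b) : 1 ≤ cnt_sz C := by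
  cases C <;> simp only [cnt_sz] <;> omega

private theorem cnt_fib (κ : Ty) (n : ℕ) :
    ∀ a b : Ty, {C : Code κ a b | cnt_sz C ≤ n}.Countable := by
  induction n with
  | zero =>
    intro a b
    have h : {C : Code κ a b | cnt_sz C ≤ 0} = ∅ := by
      ext C
      have := cnt_one_le C
      simp only [Set.mem_ofPred_eq, Set.mem_empty_iff_false, iff_false]
      omega
    rw [h]
    exact Set.countable_empty
  | succ n ih =>
    intro a b
    have h := cnt_step κ n ih
    have hinj : Function.Injective (fun C : Code κ a b => (⟨a, b, C⟩ : cnt_S κ)) := by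
      intro C C' h'
      simpa using h'
    exact h.preimage_of_injOn (f := fun C : Code κ a b => (⟨a, b, C⟩ : cnt_S κ)) hinj.injOn

private theorem cnt_code (κ a b : Ty) : Countable (Code κ a b) := by
  rw [← Set.countable_univ_iff]
  have h : (Set.univ : Set (Code κ a b)) = ⋃ n : ℕ, {C : Code κ a b | cnt_sz C ≤ n} := by
    ext C
    simp only [Set.mem_univ, Set.mem_iUnion, Set.mem_ofPred_eq, true_iff]
    exact ⟨_, le_rfl⟩
  rw [h]
  exact Set.countable_iUnion fun n => cnt_fib κ n a b

theorem cnt : S_cnt := by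
  refine ⟨cnt_ty, cnt_code, ?_⟩
  have hTy : Countable Ty := cnt_ty
  have hPol : Countable (Polynomial ℕ) := cnt_poly
  intro ι i
  induction i with
  | zero =>
    intro a
    have hC := cnt_code ι a .bool
    have hs : Function.Surjective (fun C : Code ι a .bool => SCode.base C) := by
      intro S
      cases S with
      | base C => exact ⟨C, rfl⟩
    exact hs.countable
  | succ i ih =>
    intro a
    have hs : Function.Surjective (fun x : (Σ b : Ty, Polynomial ℕ × SCode ι i (.prod a b)) =>
        (SCode.ex x.1 x.2.1 x.2.2 : SCode ι (i + 1) a)) := by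
      intro S
      cases S with
      | ex b p T => exact ⟨⟨b, p, T⟩, rfl⟩
    exact hs.countable

end Pool.Agent.Lib.MP_2b5695_lc.RO
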