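import Pool.Agent.Lib.MP_2b5695_lc.RO.Stmts

/-!
Project RO, piece cod: the functions in `PF` and the properties in `Σ_i^p` have programs.
-/

namespace Pool.Agent.Lib.MP_2b5695_lc.RO

open Pool.Agent.Lib.MP_2b5695_lc.Alg

theorem cod_trunc (c : Ty) (N : ℕ) (v : c.El) (h : c.size v ≤ N) : trunc c N v = v := by
  unfold trunc
  rw [if_pos h]

theorem cod_recT {b c : Ty} (bd : List b.El → ℕ) (g : c.El)
    (h : b.El → List b.El → c.El → c.El) (f : List b.El → c.El) (h0 : f [] = g)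
    (h1 : ∀ e l, f (e :: l) = h e l (f l)) (h2 : ∀ l, c.size (f l) ≤ bd l) :
    ∀ l, recT bd g h l = f l
  | [] => by
    show trunc c (bd []) g = f []
    rw [← h0]
    exact cod_trunc c _ _ (h2 [])
  | e :: l => by
    show trunc c (bd (e :: l)) (h e l (recT bd g h l)) = f (e :: l)
    rw [cod_recT bd g h f h0 h1 h2 l, ← h1]
    exact cod_trunc c _ _ (h2 (e :: l))

theorem cod_pf {κ : Ty} {B : Set κ.El} {a b : Ty} {f : a.El → b.El} (h : PF B a b f) :
    ∃ C : Code κ a b, ∀ v, C.eval (ind B) v = f v := by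
  induction h with
  | id a => exact ⟨.id a, fun v => rfl⟩
  | comp _ _ ih1 ih2 =>
    obtain ⟨C1, h1⟩ := ih1
    obtain ⟨C2, h2⟩ := ih2
    refine ⟨.comp C1 C2, fun v => ?_⟩
    show C1.eval (ind B) (C2.eval (ind B) v) = _
    rw [h2, h1]
  | pair _ _ ih1 ih2 =>
    obtain ⟨C1, h1⟩ := ih1
    obtain ⟨C2, h2⟩ := ih2
    refine ⟨.pair C1 C2, fun v => ?_⟩
    show (C1.eval (ind B) v, C2.eval (ind B) v) = _
    rw [h2, h1]
  | fst a b => exact ⟨.fst a b, fun v => rfl⟩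
  | snd a b => exact ⟨.snd a b, fun v => rfl⟩
  | tt a => exact ⟨.tt a, fun v => rfl⟩
  | ff a => exact ⟨.ff a, fun v => rfl⟩
  | nil a b => exact ⟨.nil a b, fun v => rfl⟩
  | cons a => exact ⟨.cons a, fun v => rfl⟩
  | cond a => exact ⟨.cond a, fun v => rfl⟩
  | query =>
    refine ⟨.query, fun v => ?_⟩
    show ind B v = _
    unfold ind
    by_cases hv : v ∈ B
    · simp [hv]
    · simp [hv]
  | @listRec a b c g h f p _ _ h0 h1 h2 ih1 ih2 =>
    obtain ⟨C1, e1⟩ := ih1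
    obtain ⟨C2, e2⟩ := ih2
    refine ⟨.listRec p C1 C2, fun v => ?_⟩
    obtain ⟨l, s⟩ := v
    show recT (fun l => p.eval (Ty.size (.prod (.list b) a) (l, s))) (C1.eval (ind B) s)
      (fun e l r => C2.eval (ind B) (e, l, s, r)) l = f (l, s)
    apply cod_recT (f := fun l => f (l, s))
    · rw [e1]; exact h0 s
    · intro e l
      rw [e2]
      exact h1 e l s
    · intro l
      exact h2 (l, s)

theorem cod_sigma {ι : Ty} (A : Set ι.El) : ∀ (i : ℕ) (a : Ty) (L : a.El → Prop),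
    InSigma A i a L → ∃ S : SCode ι i a, ∀ v, L v ↔ S.holds (ind A) v
  | 0, a, L, h => by
    obtain ⟨f, hf, hL⟩ := h
    obtain ⟨C, hC⟩ := cod_pf hf
    refine ⟨.base C, fun v => ?_⟩
    show L v ↔ C.eval (ind A) v = true
    rw [hC, hL]
  | i + 1, a, L, h => by
    obtain ⟨b, L', p, hL', hL⟩ := h
    obtain ⟨S, hS⟩ := cod_sigma A i (.prod a b) L' hL'
    refine ⟨.ex b p S, fun v => ?_⟩
    show L v ↔ ∃ u : b.El, b.size u ≤ p.eval (a.size v) ∧ ¬ S.holds (ind A) (v, u)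
    rw [hL]
    constructor
    · rintro ⟨u, hu, hn⟩
      exact ⟨u, hu, fun h => hn ((hS (v, u)).mpr h)⟩
    · rintro ⟨u, hu, hn⟩
      exact ⟨u, hu, fun h => hn ((hS (v, u)).mp h)⟩

theorem cod : S_cod := by
  refine ⟨?_, ?_⟩
  · intro κ B a b f h
    exact cod_pf h
  · intro ι A i a L h
    exact cod_sigma A i a L h

end Pool.Agent.Lib.MP_2b5695_lc.RO
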