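import Pool.Agent.Lib.MP_2b5695_lc.RO.Stmts

/-!
Project RO (random oracle at all levels), piece `col`: the probability that the level does not
drop.
-/

namespace Pool.Agent.Lib.MP_2b5695_lc.RO

open Finset

/-- the weights `bn` have total weight one -/
private lemma col_bn_sum {X : Type} [Fintype X] [DecidableEq X] (t : ℝ) :
    ∑ v : X → Bool, bn t v = 1 := by
  unfold bn
  have h := Finset.prod_univ_sum (fun _ : X => (Finset.univ : Finset Bool))
    (fun _ b => if b = true then t else 1 - t)
  rw [Fintype.piFinset_univ] at h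
  rw [← h]
  apply Finset.prod_eq_one
  intro w _
  rw [Fintype.sum_bool]
  simp

private lemma col_prod_sum {X P : Type} [Fintype X] [DecidableEq X] [Fintype P]
    (a : X → P → ℝ) (h : ∀ x, ∑ p, a x p = 1) : ∑ π : X → P, ∏ x, a x (π x) = 1 := by
  have h' := Finset.prod_univ_sum (fun _ : X => (Finset.univ : Finset P)) a
  rw [Fintype.piFinset_univ] at h'
  rw [← h']
  exact Finset.prod_eq_one fun x _ => h x

theorem col : S_col := by
  classical
  intro hbi hkap hsw hclp A0 X W Q _ _ _ _ _ _ t t' Lm Γ ν V M s m F hP hOk hst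
  have p1 := hP.pos
  have p2 := hP.le
  have p3 := hP.pos'
  have hA0 : 0 < (1 - t) ^ Lm := pow_pos (by linarith) _
  have hnn : ∀ c : W → St, ∀ ξ, 0 ≤ bw t t' Lm c ξ := fun c => (hbi W t t' Lm c hP).1
  have hone : ∀ c : W → St, ∑ ξ, bw t t' Lm c ξ = 1 := fun c => (hbi W t t' Lm c hP).2.1
  -- the total weight
  have htot : ∑ o, Γ.wt o = 1 := by
    have h := hOk.unif fun _ => 1
    simp only [mul_one, col_bn_sum, Finset.sum_const, Finset.card_univ, nsmul_eq_mul] at h
    rw [h]
    have : (Fintype.card A0 : ℝ) ≠ 0 := by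
      have := Fintype.card_pos (α := A0)
      positivity
    exact div_self this
  have hsum : ∀ G : Γ.Om × (X → Bs W) → ℝ, (∑ o : (Γ.next t t' Lm).Om, G o) =
      ∑ o : Γ.Om, ∑ ρ : X → Bs W, G (o, ρ) := fun G => Fintype.sum_prod_type G
  set K : ℝ := 2 ^ M * (16 * s * (1 - t) ^ Lm / t') ^ s with hK
  have hK0 : 0 ≤ K := by positivity
  -- one restriction
  have key : ∀ o : Γ.Om, ∑ ρ : X → Bs W,
      (if Lev M s m Q (fun q v => F q ((Γ.next t t' Lm).B (o, ρ) v)) then 0
        else (Γ.next t t' Lm).wt (o, ρ)) ≤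
      (if Lev M s (m + 1) Q (fun q v => F q (Γ.B o v)) then 0 else Γ.wt o) + Γ.wt o * K := by
    intro o
    have hw0 := hOk.nonneg o
    have hwt : ∀ ρ : X → Bs W, (Γ.next t t' Lm).wt (o, ρ) =
        Γ.wt o * ∏ x, bw t t' Lm (fun w => Γ.st o (x, w)) (ρ x) := fun ρ => rfl
    have hB : ∀ (ρ : X → Bs W) v, (Γ.next t t' Lm).B (o, ρ) v =
        Γ.B o fun y => ph (ρ y.1) (v y.1) y.2 := fun ρ v => rfl
    have hprod : ∀ ρ : X → Bs W, 0 ≤ ∏ x, bw t t' Lm (fun w => Γ.st o (x, w)) (ρ x) :=
      fun ρ => Finset.prod_nonneg fun x _ => hnn _ _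
    by_cases hlev : Lev M s (m + 1) Q (fun q v => F q (Γ.B o v))
    · rw [if_pos hlev, zero_add]
      obtain ⟨J, g, hJ, hJM, hcert, hdt⟩ := hclp M s m X W Q (fun q v => F q (Γ.B o v)) hlev
      have : Fintype J := Fintype.ofFinite J
      have h1 : ∀ ρ : X → Bs W,
          (if Lev M s m Q (fun q v => F q ((Γ.next t t' Lm).B (o, ρ) v)) then 0
            else (Γ.next t t' Lm).wt (o, ρ)) ≤
          ∑ j : J, Γ.wt o * (if DT s (fun z : X → Bool =>
            @decide (g j (fun y => ph (ρ y.1) (z y.1) y.2) = true)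
              (Classical.propDecidable _)) then 0 else
            ∏ x, bw t t' Lm (fun w => Γ.st o (x, w)) (ρ x)) := by
        intro ρ
        have hterm : ∀ j : J, 0 ≤ Γ.wt o * (if DT s (fun z : X → Bool =>
            @decide (g j (fun y => ph (ρ y.1) (z y.1) y.2) = true)
              (Classical.propDecidable _)) then 0 else
            ∏ x, bw t t' Lm (fun w => Γ.st o (x, w)) (ρ x)) := by
          intro j
          apply mul_nonneg hw0
          split_ifs
          · exact le_rfl
          · exact hprod ρ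
        by_cases hl : Lev M s m Q (fun q v => F q ((Γ.next t t' Lm).B (o, ρ) v))
        · rw [if_pos hl]
          exact Finset.sum_nonneg fun j _ => hterm j
        · rw [if_neg hl, hwt ρ]
          have hex : ∃ j, ¬ DT s fun v : X → Bool => g j fun y => ph (ρ y.1) (v y.1) y.2 := by
            by_contra hh
            push Not at hh
            exact hl (hdt ρ hh)
          obtain ⟨j, hj⟩ := hex
          refine le_trans (le_of_eq ?_) (Finset.single_le_sum (fun j _ => hterm j)
            (Finset.mem_univ j))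
          have hj' : ¬ DT s (fun z : X → Bool =>
              @decide (g j (fun y => ph (ρ y.1) (z y.1) y.2) = true)
                (Classical.propDecidable _)) := by
            intro hd
            apply hj
            obtain ⟨T, hT1, hT2⟩ := hd
            refine ⟨T, hT1, fun v => ?_⟩
            rw [hT2 v]
            cases g j fun y => ph (ρ y.1) (v y.1) y.2 <;> simp
          rw [if_neg hj']
      refine le_trans (Finset.sum_le_sum fun ρ _ => h1 ρ) ?_
      rw [Finset.sum_comm]
      have h2 : ∀ j : J, ∑ ρ : X → Bs W, Γ.wt o * (if DT s (fun z : X → Bool =>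
            @decide (g j (fun y => ph (ρ y.1) (z y.1) y.2) = true)
              (Classical.propDecidable _)) then 0 else
            ∏ x, bw t t' Lm (fun w => Γ.st o (x, w)) (ρ x)) ≤
          Γ.wt o * (4 * s * (4 * (1 - t) ^ Lm / t')) ^ s := by
        intro j
        rw [← Finset.mul_sum]
        apply mul_le_mul_of_nonneg_left _ hw0
        refine hsw X W s (4 * (1 - t) ^ Lm / t')
          (fun x ξ => bw t t' Lm (fun w => Γ.st o (x, w)) ξ) (fun x ξ => hnn _ ξ)
          (fun x => hone _) (by positivity) ?_ (fun α => g j α = true) (hcert j) s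
        intro x N y hN
        refine hkap W t t' Lm _ hP N y ?_
        refine le_trans (mul_le_mul_of_nonneg_right ?_ p1.le) hst
        exact_mod_cast hN
      refine le_trans (Finset.sum_le_sum fun j _ => h2 j) ?_
      rw [Finset.sum_const, Finset.card_univ, nsmul_eq_mul, ← Nat.card_eq_fintype_card, hK]
      have h3 : (Nat.card J : ℝ) ≤ 2 ^ M := by exact_mod_cast hJM
      have e1 : 4 * (s : ℝ) * (4 * (1 - t) ^ Lm / t') = 16 * s * (1 - t) ^ Lm / t' := by ring
      rw [e1]
      have h4 : 0 ≤ Γ.wt o * (16 * s * (1 - t) ^ Lm / t') ^ s := by positivity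
      calc (Nat.card J : ℝ) * (Γ.wt o * (16 * s * (1 - t) ^ Lm / t') ^ s)
          ≤ 2 ^ M * (Γ.wt o * (16 * s * (1 - t) ^ Lm / t') ^ s) :=
            mul_le_mul_of_nonneg_right h3 h4
        _ = _ := by ring
    · rw [if_neg hlev]
      have h1 : ∀ ρ : X → Bs W,
          (if Lev M s m Q (fun q v => F q ((Γ.next t t' Lm).B (o, ρ) v)) then 0
            else (Γ.next t t' Lm).wt (o, ρ)) ≤
          Γ.wt o * ∏ x, bw t t' Lm (fun w => Γ.st o (x, w)) (ρ x) := by
        intro ρ
        split_ifs
        · exact mul_nonneg hw0 (hprod ρ)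
        · exact le_of_eq (hwt ρ)
      refine le_trans (Finset.sum_le_sum fun ρ _ => h1 ρ) ?_
      rw [← Finset.mul_sum, col_prod_sum (fun x ξ => bw t t' Lm (fun w => Γ.st o (x, w)) ξ)
        (fun x => hone _), mul_one]
      have : 0 ≤ Γ.wt o * K := mul_nonneg hw0 hK0
      linarith
  rw [hsum fun o => if Lev M s m Q (fun q v => F q ((Γ.next t t' Lm).B o v)) then 0
      else (Γ.next t t' Lm).wt o]
  refine le_trans (Finset.sum_le_sum fun o _ => key o) ?_
  rw [Finset.sum_add_distrib, ← Finset.sum_mul, htot, one_mul]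

end Pool.Agent.Lib.MP_2b5695_lc.RO
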