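import Pool.Agent.Lib.MP_2b5695_lc.RO.Stmts

/-!
Project RO: finite dependence on the oracle.
-/

namespace Pool.Agent.Lib.MP_2b5695_lc.RO

open Pool.Agent.Lib.MP_2b5695_lc.Alg Finset

/-- a decision tree depends on finitely many values -/
theorem Tree.exists_dep {X β : Type} (T : Tree X β) :
    ∃ D : Finset X, ∀ O O' : X → Bool, (∀ x ∈ D, O x = O' x) → T.eval O = T.eval O' := by
  classical
  induction T with
  | leaf b => exact ⟨∅, fun _ _ _ => rfl⟩
  | node x l r hl hr =>
    obtain ⟨Dl, hDl⟩ := hl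
    obtain ⟨Dr, hDr⟩ := hr
    refine ⟨insert x (Dl ∪ Dr), fun O O' h => ?_⟩
    have hx : O x = O' x := h x (mem_insert_self _ _)
    have h1 := hDl O O' fun y hy => h y (mem_insert_of_mem (mem_union_left _ hy))
    have h2 := hDr O O' fun y hy => h y (mem_insert_of_mem (mem_union_right _ hy))
    simp only [Tree.eval]
    rw [hx, h1, h2]

/-- a program depends on finitely many values of the oracle -/
theorem Code.exists_dep (hqb : S_qb) {κ a b : Ty} (C : Code κ a b) (v : a.El) :
    ∃ D : Finset κ.El, ∀ O O' : κ.El → Bool, (∀ x ∈ D, O x = O' x) →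
      C.eval O v = C.eval O' v := by
  obtain ⟨r, hr⟩ := hqb κ a b C
  obtain ⟨-, T, -, -, hT⟩ := hr v
  obtain ⟨D, hD⟩ := T.exists_dep
  exact ⟨D, fun O O' h => by rw [← hT O, ← hT O']; exact hD O O' h⟩

/-- a property in `Σ_i^p` depends on finitely many values of the oracle -/
theorem SCode.exists_dep (hqb : S_qb) (hnum : S_num) {ι : Ty} {i : ℕ} {a : Ty}
    (S : SCode ι i a) : ∀ v : a.El,
    ∃ D : Finset ι.El, ∀ O O' : ι.El → Bool, (∀ x ∈ D, O x = O' x) →
      (S.holds O v ↔ S.holds O' v) := by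
  classical
  induction S with
  | base C =>
    intro v
    obtain ⟨D, hD⟩ := C.exists_dep hqb v
    exact ⟨D, fun O O' h => by simp only [SCode.holds]; rw [hD O O' h]⟩
  | ex b p S ih =>
    rename_i i a
    intro v
    choose D hD using fun u : b.El => ih (v, u)
    obtain ⟨P, hP⟩ := hnum b
    have hfin : Finite {u : b.El // b.size u ≤ p.eval (a.size v)} := (hP _).1
    have : Fintype {u : b.El // b.size u ≤ p.eval (a.size v)} := Fintype.ofFinite _
    refine ⟨(univ : Finset {u : b.El // b.size u ≤ p.eval (a.size v)}).biUnion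
      fun u => D u.1, fun O O' h => ?_⟩
    simp only [SCode.holds]
    refine exists_congr fun u => and_congr_right fun hu => not_congr (hD u O O' fun x hx => ?_)
    exact h x (mem_biUnion.2 ⟨⟨u, hu⟩, mem_univ _, hx⟩)

theorem dep : S_dep := by
  classical
  intro hqb hnum i κ a b S C v
  obtain ⟨D, hD⟩ := C.exists_dep hqb v
  choose d hd using fun q : κ.El => S.exists_dep hqb hnum q
  refine ⟨D.biUnion d, fun ω ω' h => hD _ _ fun q hq => ?_⟩
  have := hd q ω ω' fun x hx => h x (mem_biUnion.2 ⟨q, hq, hx⟩)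
  simp only [SCode.dec]
  exact decide_eq_decide.2 this

end Pool.Agent.Lib.MP_2b5695_lc.RO
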