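import Pool.Agent.Lib.MP_2b5695_lc.RO.Stmts

/-!
Project RO: piece `end`: a decision tree of small depth does not find many `true` variables.
-/

namespace Pool.Agent.Lib.MP_2b5695_lc.RO

open Finset

namespace EndAux

/-- weight of one bit -/
noncomputable def wb (t : ℝ) (b : Bool) : ℝ := if b then t else 1 - t

variable {X : Type} [Fintype X] [DecidableEq X]

omit [DecidableEq X] in
lemma bn_eq (t : ℝ) (v : X → Bool) : bn t v = ∏ x, wb t (v x) := rfl

lemma wb_nonneg {t : ℝ} (h0 : 0 ≤ t) (h1 : t ≤ 1) (b : Bool) : 0 ≤ wb t b := by
  unfold wb
  split
  · exact h0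
  · linarith

omit [DecidableEq X] in
lemma bn_nonneg {t : ℝ} (h0 : 0 ≤ t) (h1 : t ≤ 1) (v : X → Bool) : 0 ≤ bn t v := by
  rw [bn_eq]
  exact Finset.prod_nonneg fun x _ => wb_nonneg h0 h1 _

lemma sum_prod (a : X → Bool → ℝ) :
    ∑ v : X → Bool, ∏ x, a x (v x) = ∏ x, (a x true + a x false) := by
  have h := Finset.prod_univ_sum (fun _ : X => (univ : Finset Bool)) a
  rw [Fintype.piFinset_univ] at h
  rw [← h]
  apply Finset.prod_congr rfl
  intro x _
  rw [Fintype.sum_bool]

lemma sum_bn (t : ℝ) : ∑ v : X → Bool, bn t v = 1 := by
  simp only [bn_eq]
  rw [sum_prod (fun _ b => wb t b)]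
  simp [wb]

lemma bn_swap (t : ℝ) (v : X → Bool) (x : X) (b : Bool) :
    bn t v * wb t b = bn t (Function.update v x b) * wb t (v x) := by
  rw [bn_eq, bn_eq, ← Finset.mul_prod_erase univ (fun y => wb t (v y)) (mem_univ x),
    ← Finset.mul_prod_erase univ (fun y => wb t (Function.update v x b y)) (mem_univ x)]
  have : ∏ y ∈ univ.erase x, wb t (Function.update v x b y) =
      ∏ y ∈ univ.erase x, wb t (v y) := by
    apply Finset.prod_congr rfl
    intro y hy
    rw [Function.update_of_ne (Finset.ne_of_mem_erase hy)]
  rw [this, Function.update_self]
  ring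

/-- resampling of one variable -/
lemma resample (t : ℝ) (x : X) (F : (X → Bool) → ℝ) :
    ∑ v, bn t v * F v = t * ∑ v, bn t v * F (Function.update v x true) +
      (1 - t) * ∑ v, bn t v * F (Function.update v x false) := by
  have h : ∑ p : (X → Bool) × Bool, bn t p.1 * wb t p.2 * F (Function.update p.1 x p.2) =
      ∑ p : (X → Bool) × Bool, bn t p.1 * wb t p.2 * F p.1 := by
    apply Fintype.sum_equiv
      { toFun := fun p : (X → Bool) × Bool => (Function.update p.1 x p.2, p.1 x)
        invFun := fun p : (X → Bool) × Bool => (Function.update p.1 x p.2, p.1 x)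
        left_inv := fun p => by simp
        right_inv := fun p => by simp }
    intro p
    simp only [Equiv.coe_fn_mk]
    rw [bn_swap t p.1 x p.2]
  rw [Fintype.sum_prod_type, Fintype.sum_prod_type] at h
  simp only [Fintype.sum_bool] at h
  have h1 : ∀ v : X → Bool, bn t v * wb t true * F v + bn t v * wb t false * F v =
      bn t v * F v := by
    intro v
    simp only [wb]
    simp only [if_true, Bool.false_eq_true, if_false]
    ring
  simp only [h1] at h
  rw [← h, Finset.sum_add_distrib, Finset.mul_sum, Finset.mul_sum]
  congr 1
  · apply Finset.sum_congr rfl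
    intro v _
    simp only [wb, if_true]
    ring
  · apply Finset.sum_congr rfl
    intro v _
    simp only [wb, Bool.false_eq_true, if_false]
    ring

/-- the assignment `v` changed according to the partial assignment -/
def ov (ρ : X → Option Bool) (v : X → Bool) (x : X) : Bool := (ρ x).getD (v x)

/-- number of variables that are set to `true` -/
def nT (ρ : X → Option Bool) : ℕ := (univ.filter fun x => ρ x = some true).card

omit [Fintype X] in
lemma ov_update (ρ : X → Option Bool) (v : X → Bool) (x : X) (b : Bool) (h : ρ x = none) :
    ov ρ (Function.update v x b) = ov (Function.update ρ x (some b)) v := by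
  funext y
  unfold ov
  by_cases hy : y = x
  · subst hy
    rw [h, Function.update_self, Function.update_self]
    rfl
  · rw [Function.update_of_ne hy, Function.update_of_ne hy]

lemma nT_true (ρ : X → Option Bool) (x : X) (h : ρ x = none) :
    nT (Function.update ρ x (some true)) = nT ρ + 1 := by
  unfold nT
  have e : (univ.filter fun y => Function.update ρ x (some true) y = some true) =
      insert x (univ.filter fun y => ρ y = some true) := by
    ext y
    simp only [mem_filter, mem_univ, true_and, mem_insert]
    by_cases hy : y = x
    · subst hy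
      simp
    · rw [Function.update_of_ne hy]
      simp [hy]
  rw [e, Finset.card_insert_of_notMem]
  simp [h]

lemma nT_false (ρ : X → Option Bool) (x : X) (h : ρ x = none) :
    nT (Function.update ρ x (some false)) = nT ρ := by
  unfold nT
  congr 1
  ext y
  simp only [mem_filter, mem_univ, true_and]
  by_cases hy : y = x
  · subst hy
    simp [h]
  · rw [Function.update_of_ne hy]

open Classical in
lemma all_true (t : ℝ) (R : Finset X) :
    ∑ v : X → Bool, bn t v * (if ∀ x ∈ R, v x = true then 1 else 0) = t ^ R.card := by
  have h1 : ∀ v : X → Bool, bn t v * (if ∀ x ∈ R, v x = true then 1 else 0) =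
      ∏ x, (wb t (v x) * (if x ∈ R then (if v x = true then 1 else 0) else 1)) := by
    intro v
    rw [Finset.prod_mul_distrib, ← bn_eq]
    congr 1
    by_cases h : ∀ x ∈ R, v x = true
    · rw [if_pos h]
      symm
      apply Finset.prod_eq_one
      intro x _
      by_cases hx : x ∈ R
      · rw [if_pos hx, if_pos (h x hx)]
      · rw [if_neg hx]
    · rw [if_neg h]
      push Not at h
      obtain ⟨x, hx, hv⟩ := h
      symm
      apply Finset.prod_eq_zero (mem_univ x)
      rw [if_pos hx, if_neg hv]
  simp only [h1]
  rw [sum_prod (fun x b => wb t b * (if x ∈ R then (if b = true then 1 else 0) else 1))]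
  have h2 : ∀ x : X, (wb t true * (if x ∈ R then (if true = true then (1 : ℝ) else 0) else 1) +
      wb t false * (if x ∈ R then (if false = true then (1 : ℝ) else 0) else 1)) =
      if x ∈ R then t else 1 := by
    intro x
    by_cases hx : x ∈ R
    · simp [hx, wb]
    · simp [hx, wb]
  rw [Finset.prod_congr rfl fun x _ => h2 x, Finset.prod_ite_mem, Finset.univ_inter,
    Finset.prod_const]

open Classical in
/-- the main induction -/
lemma main {t : ℝ} (h0 : 0 ≤ t) (h1 : t ≤ 1) (k : ℕ) :
    ∀ (T : Tree X (Fin k → X)) (ρ : X → Option Bool),
    ∑ v, bn t v * (if Function.Injective (T.eval (ov ρ v)) ∧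
      ∀ j, ov ρ v (T.eval (ov ρ v) j) = true then 1 else 0)
      ≤ ((T.depth + k).choose (k - nT ρ) : ℝ) * t ^ (k - nT ρ) := by
  intro T
  induction T with
  | leaf g =>
    intro ρ
    simp only [Tree.eval, Tree.depth]
    have hch : (1 : ℝ) ≤ ((0 + k).choose (k - nT ρ) : ℝ) := by
      have : 0 < (0 + k).choose (k - nT ρ) := Nat.choose_pos (by omega)
      exact_mod_cast this
    have hR : 0 ≤ ((0 + k).choose (k - nT ρ) : ℝ) * t ^ (k - nT ρ) := by positivity
    by_cases hg : Function.Injective g
    swap
    · simp only [hg, false_and, if_false, mul_zero, Finset.sum_const_zero]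
      exact hR
    by_cases hf : ∃ j, ρ (g j) = some false
    · obtain ⟨j, hj⟩ := hf
      have : ∀ v : X → Bool, ¬ (Function.Injective g ∧ ∀ j, ov ρ v (g j) = true) := by
        rintro v ⟨_, h⟩
        have := h j
        simp [ov, hj] at this
      simp only [this, if_false, mul_zero, Finset.sum_const_zero]
      exact hR
    · push Not at hf
      set R : Finset X := (univ.image g).filter fun x => ρ x = none with hRd
      have hcard : k - nT ρ ≤ R.card := by
        have e1 : (univ.image g).card = k := by
          rw [Finset.card_image_of_injective _ hg]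
          simp
        have e2 : univ.image g ⊆ R ∪ (univ.filter fun x => ρ x = some true) := by
          intro x hx
          rw [mem_union, hRd, mem_filter, mem_filter]
          obtain ⟨j, _, hj⟩ := mem_image.1 hx
          subst hj
          rcases h : ρ (g j) with _ | b
          · exact Or.inl ⟨hx, rfl⟩
          · cases b
            · exact absurd h (hf j)
            · exact Or.inr ⟨mem_univ _, rfl⟩
        have e3 := (Finset.card_le_card e2).trans (Finset.card_union_le _ _)
        rw [e1] at e3
        unfold nT
        omega
      calc ∑ v, bn t v * (if Function.Injective g ∧ ∀ j, ov ρ v (g j) = true then 1 else 0)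
          ≤ ∑ v : X → Bool, bn t v * (if ∀ x ∈ R, v x = true then 1 else 0) := by
            apply Finset.sum_le_sum
            intro v _
            apply mul_le_mul_of_nonneg_left _ (bn_nonneg h0 h1 v)
            by_cases h : Function.Injective g ∧ ∀ j, ov ρ v (g j) = true
            · rw [if_pos h, if_pos]
              intro x hx
              rw [hRd, mem_filter] at hx
              obtain ⟨j, _, hj⟩ := mem_image.1 hx.1
              have := h.2 j
              rw [hj] at this
              unfold ov at this
              rw [hx.2] at this
              exact this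
            · rw [if_neg h]
              split
              · exact zero_le_one
              · exact le_rfl
        _ = t ^ R.card := all_true t R
        _ ≤ t ^ (k - nT ρ) := pow_le_pow_of_le_one h0 h1 hcard
        _ ≤ ((0 + k).choose (k - nT ρ) : ℝ) * t ^ (k - nT ρ) :=
            le_mul_of_one_le_left (by positivity) hch
  | node x l r ihl ihr =>
    intro ρ
    have hmono : ∀ (n m : ℕ), n ≤ m → ∀ i : ℕ, ((n + k).choose i : ℝ) ≤ ((m + k).choose i : ℝ) := by
      intro n m h i
      exact_mod_cast Nat.choose_le_choose i (by omega)
    have hdl : l.depth + 1 ≤ (Tree.node x l r).depth := by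
      simp only [Tree.depth]; omega
    have hdr : r.depth + 1 ≤ (Tree.node x l r).depth := by
      simp only [Tree.depth]; omega
    rcases hx : ρ x with _ | b
    · -- the variable is free
      set F : (X → Bool) → ℝ := fun v =>
        if Function.Injective ((Tree.node x l r).eval (ov ρ v)) ∧
          ∀ j, ov ρ v ((Tree.node x l r).eval (ov ρ v) j) = true then 1 else 0 with hF
      have hT : ∀ v, F (Function.update v x true) =
          if Function.Injective (r.eval (ov (Function.update ρ x (some true)) v)) ∧
            ∀ j, ov (Function.update ρ x (some true)) v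
              (r.eval (ov (Function.update ρ x (some true)) v) j) = true then 1 else 0 := by
        intro v
        simp only [hF]
        rw [ov_update ρ v x true hx]
        have : ov (Function.update ρ x (some true)) v x = true := by
          simp [ov]
        simp only [Tree.eval, this, cond_true]
      have hFl : ∀ v, F (Function.update v x false) =
          if Function.Injective (l.eval (ov (Function.update ρ x (some false)) v)) ∧
            ∀ j, ov (Function.update ρ x (some false)) v
              (l.eval (ov (Function.update ρ x (some false)) v) j) = true then 1 else 0 := by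
        intro v
        simp only [hF]
        rw [ov_update ρ v x false hx]
        have : ov (Function.update ρ x (some false)) v x = false := by
          simp [ov]
        simp only [Tree.eval, this, cond_false]
      rcases Nat.eq_zero_or_pos (k - nT ρ) with hm | hm
      · rw [hm]
        simp only [Nat.choose_zero_right, Nat.cast_one, pow_zero, mul_one]
        refine le_trans ?_ (sum_bn (X := X) t).le
        apply Finset.sum_le_sum
        intro v _
        apply mul_le_of_le_one_right (bn_nonneg h0 h1 v)
        split
        · exact le_refl (1 : ℝ)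
        · exact (zero_le_one : (0 : ℝ) ≤ 1)
      · have hr := ihr (Function.update ρ x (some true))
        have hl := ihl (Function.update ρ x (some false))
        rw [nT_true ρ x hx] at hr
        rw [nT_false ρ x hx] at hl
        have hres := resample t x F
        simp only [hT, hFl] at hres
        simp only [hF] at hres
        rw [hres]
        obtain ⟨m, hm⟩ : ∃ m, k - nT ρ = m + 1 := ⟨k - nT ρ - 1, by omega⟩
        have hm' : k - (nT ρ + 1) = m := by omega
        rw [hm'] at hr
        rw [hm] at hl ⊢
        set n : ℕ := (Tree.node x l r).depth with hn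
        obtain ⟨n', hn'⟩ : ∃ n', n = n' + 1 := ⟨n - 1, by omega⟩
        have hr2 := hr.trans (mul_le_mul_of_nonneg_right (hmono r.depth n' (by omega) m)
          (by positivity : 0 ≤ t ^ m))
        have hl2 := hl.trans (mul_le_mul_of_nonneg_right (hmono l.depth n' (by omega) (m + 1))
          (by positivity : 0 ≤ t ^ (m + 1)))
        have hpas : ((n + k).choose (m + 1) : ℝ) =
            ((n' + k).choose m : ℝ) + ((n' + k).choose (m + 1) : ℝ) := by
          have : n + k = (n' + k) + 1 := by omega
          rw [this, Nat.choose_succ_succ]
          push_cast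
          ring
        rw [hpas]
        calc _ ≤ t * (((n' + k).choose m : ℝ) * t ^ m) +
              (1 - t) * (((n' + k).choose (m + 1) : ℝ) * t ^ (m + 1)) := by
              apply add_le_add
              · exact mul_le_mul_of_nonneg_left hr2 h0
              · exact mul_le_mul_of_nonneg_left hl2 (by linarith)
          _ ≤ t * (((n' + k).choose m : ℝ) * t ^ m) +
              1 * (((n' + k).choose (m + 1) : ℝ) * t ^ (m + 1)) := by
              gcongr
              linarith
          _ = (((n' + k).choose m : ℝ) + ((n' + k).choose (m + 1) : ℝ)) * t ^ (m + 1) := by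
              ring
    · have hov : ∀ v : X → Bool, ov ρ v x = b := by
        intro v
        simp [ov, hx]
      cases b
      · simp only [Tree.eval, hov, cond_false]
        refine (ihl ρ).trans ?_
        apply mul_le_mul_of_nonneg_right (hmono _ _ (by omega) _) (by positivity)
      · simp only [Tree.eval, hov, cond_true]
        refine (ihr ρ).trans ?_
        apply mul_le_mul_of_nonneg_right (hmono _ _ (by omega) _) (by positivity)

end EndAux

open EndAux in
theorem endT : S_end := by
  classical
  intro X _ _ t h0 h1 k d g hg
  obtain ⟨T, hT, hTg⟩ := hg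
  have h := main (X := X) h0 h1 k T (fun _ => none)
  have e1 : ∀ v : X → Bool, ov (fun _ => none) v = v := fun v => rfl
  have e2 : nT (X := X) (fun _ => none) = 0 := by simp [nT]
  rw [e2, Nat.sub_zero] at h
  simp only [e1, hTg] at h
  have h2 : ∑ v : X → Bool,
      (if Function.Injective (g v) ∧ ∀ j, v (g v j) = true then bn t v else 0) =
      ∑ v, bn t v * (if Function.Injective (g v) ∧ ∀ j, v (g v j) = true then 1 else 0) := by
    apply Finset.sum_congr rfl
    intro v _
    rw [mul_ite, mul_one, mul_zero]
  have h3 : ((T.depth + k).choose k : ℝ) ≤ ((d + k : ℕ) : ℝ) ^ k := by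
    have : (T.depth + k).choose k ≤ (d + k) ^ k :=
      (Nat.choose_le_choose k (by omega)).trans (Nat.choose_le_pow _ _)
    exact_mod_cast this
  calc _ = ∑ v, bn t v * (if Function.Injective (g v) ∧ ∀ j, v (g v j) = true then 1 else 0) := by
        rw [← h2]
    _ ≤ ((T.depth + k).choose k : ℝ) * t ^ k := h
    _ ≤ ((d + k : ℕ) : ℝ) ^ k * t ^ k := mul_le_mul_of_nonneg_right h3 (by positivity)
    _ = ((d + k) * t) ^ k := by
        rw [mul_pow]; push_cast; ring

end Pool.Agent.Lib.MP_2b5695_lc.RO
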