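import Pool.Agent.Lib.MP_2b5695_lc.RO.Stmts

/-!
Project RO (random oracle at all levels), piece `kap`: the weight of the free states that are
changed to a given state.
-/

namespace Pool.Agent.Lib.MP_2b5695_lc.RO

open Finset

section

variable {W : Type} [Fintype W]

/-- the factor of `mw` -/
private noncomputable def kap_m (t : ℝ) (c : W → St) (w : W) (b : Bool) : ℝ :=
  if c w = .live then (if b then t else 1 - t) else (if b then 0 else 1)

private lemma kap_mw (t : ℝ) (c : W → St) (u : W → Bool) : mw t c u = ∏ w, kap_m t c w (u w) := rfl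

omit [Fintype W] in
private lemma kap_m_nonneg (t : ℝ) (c : W → St) (h0 : 0 ≤ t) (h1 : t ≤ 1) (w : W) (b : Bool) :
    0 ≤ kap_m t c w b := by
  unfold kap_m
  split_ifs <;> linarith

private lemma kap_mw_nonneg (t : ℝ) (c : W → St) (h0 : 0 ≤ t) (h1 : t ≤ 1) (u : W → Bool) :
    0 ≤ mw t c u := by
  rw [kap_mw]
  exact Finset.prod_nonneg fun w _ => kap_m_nonneg t c h0 h1 w _

private lemma kap_mw_zr (t : ℝ) (c : W → St) : mw t c zr = (1 - t) ^ nL c := by
  unfold mw nL zr
  simp only [Bool.false_eq_true, if_false]
  rw [Finset.prod_ite, Finset.prod_const, Finset.prod_const_one, mul_one]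

private lemma kap_prod_sum [DecidableEq W] (g : W → Bool → ℝ) :
    ∑ u : W → Bool, ∏ w, g w (u w) = ∏ w, (g w true + g w false) := by
  have h := Finset.prod_univ_sum (fun _ : W => (Finset.univ : Finset Bool)) g
  rw [Fintype.piFinset_univ] at h
  rw [← h]
  apply Finset.prod_congr rfl
  intro w _
  rw [Fintype.sum_bool]

/-- the main estimate -/
private lemma kap_main [DecidableEq W] (t : ℝ) (c : W → St) (h0 : 0 < t) (h1 : t ≤ 1 / 2)
    (N : Finset W) (x : W → Bool) (hN : (N.card : ℝ) * t ≤ 1 / 2) :
    ∑ S : W → Bool, (if ∀ w, x w = (S w && !decide (w ∈ N)) then mw t c S else 0) ≤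
      2 * mw t c x := by
  have e1 : ∀ S : W → Bool, (if ∀ w, x w = (S w && !decide (w ∈ N)) then mw t c S else 0) =
      ∏ w, (if x w = (S w && !decide (w ∈ N)) then kap_m t c w (S w) else 0) := by
    intro S
    by_cases h : ∀ w, x w = (S w && !decide (w ∈ N))
    · rw [if_pos h, kap_mw]
      apply Finset.prod_congr rfl
      intro w _
      rw [if_pos (h w)]
    · rw [if_neg h]
      symm
      push Not at h
      obtain ⟨w, hw⟩ := h
      exact Finset.prod_eq_zero (Finset.mem_univ w) (if_neg hw)
  rw [Finset.sum_congr rfl fun S _ => e1 S, kap_prod_sum fun w b =>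
    if x w = (b && !decide (w ∈ N)) then kap_m t c w b else 0]
  have h1t : 0 < 1 - t := by linarith
  have e2 : ∀ w, ((if x w = (true && !decide (w ∈ N)) then kap_m t c w true else 0) +
      (if x w = (false && !decide (w ∈ N)) then kap_m t c w false else 0)) ≤
      kap_m t c w (x w) * (if w ∈ N then (1 - t)⁻¹ else 1) := by
    intro w
    have hi : 1 ≤ (1 - t)⁻¹ := (one_le_inv₀ h1t).mpr (by linarith)
    by_cases hw : w ∈ N
    · by_cases hl : c w = .live
      · cases hx : x w
        · simp [kap_m, hl, hw, h1t.ne']
        · simp only [hw, decide_true, Bool.not_true, Bool.and_false, Bool.true_eq_false, if_false,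
            add_zero, if_true]
          simp only [kap_m, hl, if_true]
          positivity
      · cases hx : x w
        · simpa [kap_m, hl, hw] using hi
        · simp [kap_m, hl, hw]
    · cases hx : x w
      · simp [hw]
      · simp [hw]
  have e3 : ∀ w, 0 ≤ ((if x w = (true && !decide (w ∈ N)) then kap_m t c w true else 0) +
      (if x w = (false && !decide (w ∈ N)) then kap_m t c w false else 0)) := by
    intro w
    have h2 := kap_m_nonneg t c h0.le (by linarith) w true
    have h3 := kap_m_nonneg t c h0.le (by linarith) w false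
    apply add_nonneg
    · split_ifs
      · exact h2
      · exact le_rfl
    · split_ifs
      · exact h3
      · exact le_rfl
  refine le_trans (Finset.prod_le_prod (fun w _ => e3 w) fun w _ => e2 w) ?_
  rw [Finset.prod_mul_distrib, ← kap_mw, Finset.prod_ite, Finset.prod_const,
    Finset.prod_const_one, mul_one, mul_comm]
  have hcard : (Finset.univ.filter fun w => w ∈ N).card = N.card := by
    congr 1
    ext w
    simp
  rw [hcard]
  apply mul_le_mul_of_nonneg_right _ (kap_mw_nonneg t c h0.le (by linarith) x)
  have hB : 1 + (N.card : ℝ) * (-t) ≤ (1 + -t) ^ N.card := one_add_mul_le_pow (by linarith) _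
  rw [inv_pow, inv_le_comm₀ (pow_pos h1t _) (by norm_num)]
  have e4 : (1 + -t) = 1 - t := by ring
  rw [e4] at hB
  linarith

end

theorem kap : S_kap := by
  classical
  intro W _ _ t t' Lm c hP N x hN
  have p1 := hP.pos
  have p2 := hP.le
  have p3 := hP.pos'
  have p4 := hP.le'
  have p5 := hP.small
  have hA0 : 0 < (1 - t) ^ Lm := pow_pos (by linarith) _
  have hmx := kap_mw_nonneg t c p1.le (by linarith) x
  by_cases hl : (∀ w, c w ≠ .tru) ∧ Lm ≤ nL c
  swap
  · -- no free states
    have hlp : lp t t' Lm c = 0 := by
      unfold lp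
      rw [if_neg hl]
    have hb : ∀ S, bw t t' Lm c (true, S) = 0 := by
      intro S
      simp only [bw]
      split_ifs
      · rfl
      · rw [hlp, zero_mul, zero_div]
    have hb2 : bw t t' Lm c (false, x) = mw t c x := by
      simp only [bw, hlp]
      split_ifs <;> simp
    rw [hb2, Finset.sum_eq_zero]
    · positivity
    · intro S _
      rw [hb S, ite_self]
  · -- free states
    have hlp : lp t t' Lm c = (1 - t) ^ nL c / (2 * t') := by
      unfold lp
      rw [if_pos hl]
    set a : ℝ := (1 - t) ^ nL c with ha
    have ha0 : 0 < a := pow_pos (by linarith) _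
    have haA : a ≤ (1 - t) ^ Lm := pow_le_pow_of_le_one (by linarith) (by linarith) hl.2
    have hat : a ≤ t' := le_trans haA p5
    have ha1 : 0 < 1 - a := by linarith
    have hmain := kap_main t c p1 p2 N x hN
    have hbt : ∀ S : W → Bool, S ≠ zr →
        bw t t' Lm c (true, S) = a / (2 * t') / (1 - a) * mw t c S := by
      intro S hS
      simp only [bw]
      rw [if_neg hS, hlp, ← ha]
      ring
    set K : ℝ := a / (2 * t') / (1 - a) with hK
    have hK0 : 0 ≤ K := by positivity
    have hK1 : K ≤ (1 - t) ^ Lm / t' := by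
      rw [hK, div_div, div_le_div_iff₀ (by positivity) p3]
      have h7 : t' * 1 ≤ 2 * t' * (1 - a) := by nlinarith
      calc a * t' ≤ (1 - t) ^ Lm * t' := mul_le_mul_of_nonneg_right haA p3.le
        _ ≤ (1 - t) ^ Lm * (2 * t' * (1 - a)) := by
            apply mul_le_mul_of_nonneg_left _ hA0.le
            linarith
    have hle : ∑ S : W → Bool, (if S ≠ zr ∧ ∀ w, x w = (S w && !decide (w ∈ N)) then
        bw t t' Lm c (true, S) else 0) =
        K * ∑ S : W → Bool, (if S ≠ zr ∧ ∀ w, x w = (S w && !decide (w ∈ N)) then
        mw t c S else 0) := by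
      rw [Finset.mul_sum]
      apply Finset.sum_congr rfl
      intro S _
      by_cases h : S ≠ zr ∧ ∀ w, x w = (S w && !decide (w ∈ N))
      · rw [if_pos h, if_pos h, hbt S h.1]
      · rw [if_neg h, if_neg h, mul_zero]
    by_cases hx : x = zr
    · -- the state with no true variable
      have hbf : bw t t' Lm c (false, x) = a / 2 := by
        simp only [bw]
        rw [if_pos hx, hx, kap_mw_zr, ← ha, hlp]
        field_simp
        ring
      have h2 : ∑ S : W → Bool, (if S ≠ zr ∧ ∀ w, x w = (S w && !decide (w ∈ N)) then
          mw t c S else 0) ≤ a := by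
        have e1 : ∀ S : W → Bool, (if S ≠ zr ∧ ∀ w, x w = (S w && !decide (w ∈ N)) then
            mw t c S else 0) =
            (if ∀ w, x w = (S w && !decide (w ∈ N)) then mw t c S else 0) -
              (if S = zr then mw t c S else 0) := by
          intro S
          by_cases hS : S = zr
          · have h3 : ∀ w, x w = (S w && !decide (w ∈ N)) := by
              intro w
              rw [hx, hS]
              simp [zr]
            rw [if_neg (fun h => h.1 hS), if_pos h3, if_pos hS, sub_self]
          · rw [if_neg hS, sub_zero]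
            by_cases h : ∀ w, x w = (S w && !decide (w ∈ N))
            · rw [if_pos ⟨hS, h⟩, if_pos h]
            · rw [if_neg (fun hh => h hh.2), if_neg h]
        rw [Finset.sum_congr rfl fun S _ => e1 S, Finset.sum_sub_distrib]
        have e2 : ∑ S : W → Bool, (if S = zr then mw t c S else 0) = a := by
          rw [Finset.sum_ite_eq' Finset.univ (zr : W → Bool), if_pos (Finset.mem_univ _),
            kap_mw_zr]
        have e3 : mw t c x = a := by rw [hx, kap_mw_zr]
        rw [e2]
        rw [e3] at hmain
        linarith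
      rw [hle, hbf]
      calc K * ∑ S : W → Bool, (if S ≠ zr ∧ ∀ w, x w = (S w && !decide (w ∈ N)) then
              mw t c S else 0) ≤ K * a := mul_le_mul_of_nonneg_left h2 hK0
        _ ≤ (1 - t) ^ Lm / t' * a := mul_le_mul_of_nonneg_right hK1 ha0.le
        _ ≤ 4 * (1 - t) ^ Lm / t' * (a / 2) := by
            have : 0 < (1 - t) ^ Lm / t' * a := by positivity
            have e : 4 * (1 - t) ^ Lm / t' * (a / 2) = 2 * ((1 - t) ^ Lm / t' * a) := by ring
            rw [e]
            linarith
    · -- the other states
      have hbf : bw t t' Lm c (false, x) =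
          mw t c x * (1 - a / (2 * t') * (1 - t') / (1 - a)) := by
        simp only [bw]
        rw [if_neg hx, hlp, ← ha]
      have hco : 1 / 2 ≤ 1 - a / (2 * t') * (1 - t') / (1 - a) := by
        have : a / (2 * t') * (1 - t') / (1 - a) ≤ 1 / 2 := by
          rw [div_mul_eq_mul_div, div_div, div_le_div_iff₀ (by positivity) (by norm_num)]
          nlinarith
        linarith
      have h2 : ∑ S : W → Bool, (if S ≠ zr ∧ ∀ w, x w = (S w && !decide (w ∈ N)) then
          mw t c S else 0) ≤ 2 * mw t c x := by
        refine le_trans (Finset.sum_le_sum fun S _ => ?_) hmain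
        by_cases h : ∀ w, x w = (S w && !decide (w ∈ N))
        · rw [if_pos h]
          split_ifs
          · exact le_rfl
          · exact kap_mw_nonneg t c p1.le (by linarith) S
        · rw [if_neg (fun hh => h hh.2), if_neg h]
      rw [hle, hbf]
      calc K * ∑ S : W → Bool, (if S ≠ zr ∧ ∀ w, x w = (S w && !decide (w ∈ N)) then
              mw t c S else 0) ≤ K * (2 * mw t c x) := mul_le_mul_of_nonneg_left h2 hK0
        _ ≤ (1 - t) ^ Lm / t' * (2 * mw t c x) :=
            mul_le_mul_of_nonneg_right hK1 (by positivity)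
        _ = 4 * (1 - t) ^ Lm / t' * (mw t c x * (1 / 2)) := by ring
        _ ≤ 4 * (1 - t) ^ Lm / t' * (mw t c x * (1 - a / (2 * t') * (1 - t') / (1 - a))) := by
            apply mul_le_mul_of_nonneg_left _ (by positivity)
            exact mul_le_mul_of_nonneg_left hco hmx

end Pool.Agent.Lib.MP_2b5695_lc.RO
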