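import Pool.Agent.Lib.MP_2b5695_lc.RO.Stmts

/-!
Project RO: the properties in the polynomial hierarchy are functions of bounded level of the oracle.
-/

set_option autoImplicit false

namespace Pool.Agent.Lib.MP_2b5695_lc.RO

open Pool.Agent.Lib.MP_2b5695_lc.Alg

open Classical in
/-- the decision tree in the variables `x`, where the query `w` is answered by the variable `x` if
`e x = w` and by `ω` otherwise -/
noncomputable def lev_tr {X β : Type} (e : X → List Bool) (ω : List Bool → Bool) :
    Tree (List Bool) β → Tree X β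
  | .leaf b => .leaf b
  | .node w l r =>
      if h : ∃ x, e x = w then .node h.choose (lev_tr e ω l) (lev_tr e ω r)
      else if ω w = true then lev_tr e ω r else lev_tr e ω l

theorem lev_tr_depth {X β : Type} (e : X → List Bool) (ω : List Bool → Bool)
    (T : Tree (List Bool) β) : (lev_tr e ω T).depth ≤ T.depth := by
  induction T with
  | leaf b => simp [lev_tr, Tree.depth]
  | node w l r ihl ihr =>
    rw [lev_tr]
    split_ifs with h h2
    · simp only [Tree.depth]
      omega
    · simp only [Tree.depth]
      omega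
    · simp only [Tree.depth]
      omega

theorem lev_tr_eval {X β : Type} (e : X → List Bool) (ω : List Bool → Bool) (α : X → Bool)
    (T : Tree (List Bool) β) : (lev_tr e ω T).eval α = T.eval (patch e ω α) := by
  induction T with
  | leaf b => simp [lev_tr, Tree.eval]
  | node w l r ihl ihr =>
    rw [lev_tr]
    split_ifs with h h2
    · have hp : patch e ω α w = α h.choose := by
        unfold patch
        rw [dif_pos h]
      simp only [Tree.eval, ihl, ihr, hp]
    · have hp : patch e ω α w = true := by
        unfold patch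
        rw [dif_neg h, h2]
      simp only [Tree.eval, ihr, hp, cond_true]
    · have hp : patch e ω α w = false := by
        unfold patch
        rw [dif_neg h]
        exact Bool.eq_false_iff.mpr h2
      simp only [Tree.eval, ihl, hp, cond_false]

theorem lev_dec (x : Bool) {h : Decidable (x = true)} : @decide (x = true) h = x := by
  cases x
  · exact decide_eq_false (by simp)
  · exact decide_eq_true rfl

theorem lev_base (hqb : S_qb) {a : Ty} (C : Code .word a .bool) :
    ∃ M s : Polynomial ℕ, ∀ (N : ℕ) (X : Type) (e : X → List Bool), Function.Injective e →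
      ∀ ω : List Bool → Bool, Lev (M.eval N) (s.eval N) 0 {q : a.El // a.size q ≤ N}
        (fun q α => (SCode.base C : SCode .word 0 a).dec (patch e ω α) q.1) := by
  obtain ⟨r, hr⟩ := hqb .word a .bool C
  refine ⟨0, r, ?_⟩
  intro N X e _ ω q
  obtain ⟨-, T, hd, -, hT⟩ := hr q.1
  refine ⟨lev_tr e ω T, (lev_tr_depth e ω T).trans (hd.trans (eval_mono r q.2)), ?_⟩
  intro α
  rw [lev_tr_eval, hT (patch e ω α)]
  simp only [SCode.dec, SCode.holds]
  exact (lev_dec _).symm

theorem lev_step (hnum : S_num) (hmono : S_mono) {i : ℕ} {a b : Ty} (p : Polynomial ℕ)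
    (S : SCode .word i (.prod a b))
    (ih : ∃ M s : Polynomial ℕ, ∀ (N : ℕ) (X : Type) (e : X → List Bool), Function.Injective e →
      ∀ ω : List Bool → Bool,
        Lev (M.eval N) (s.eval N) i {q : (Ty.prod a b).El // (Ty.prod a b).size q ≤ N}
          (fun q α => S.dec (patch e ω α) q.1)) :
    ∃ M s : Polynomial ℕ, ∀ (N : ℕ) (X : Type) (e : X → List Bool), Function.Injective e →
      ∀ ω : List Bool → Bool, Lev (M.eval N) (s.eval N) (i + 1) {q : a.El // a.size q ≤ N}
        (fun q α => (SCode.ex b p S).dec (patch e ω α) q.1) := by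
  obtain ⟨M', s', h'⟩ := ih
  obtain ⟨P, hP⟩ := hnum a
  refine ⟨P + M'.comp (Polynomial.X + p), s'.comp (Polynomial.X + p), ?_⟩
  intro N X e he ω
  have hcomp : ∀ R : Polynomial ℕ, (R.comp (Polynomial.X + p)).eval N =
      R.eval (N + p.eval N) := by
    intro R
    rw [Polynomial.eval_comp, Polynomial.eval_add, Polynomial.eval_X]
  refine ⟨(hP N).1, (hP N).2.trans ?_, {q : (Ty.prod a b).El // (Ty.prod a b).size q ≤
    N + p.eval N}, fun q α => S.dec (patch e ω α) q.1,
    fun q q' => ∃ u : b.El, b.size u ≤ p.eval (a.size q.1) ∧ q'.1 = (q.1, u), ?_, ?_⟩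
  · apply Nat.pow_le_pow_right (by norm_num)
    rw [Polynomial.eval_add]
    exact Nat.le_add_right _ _
  · refine hmono _ _ _ _ i X _ _ ?_ ?_ (h' (N + p.eval N) X e he ω)
    · rw [Polynomial.eval_add, hcomp]
      exact Nat.le_add_left _ _
    · rw [hcomp]
  · intro q v
    simp only [SCode.dec, decide_eq_true_eq, decide_eq_false_iff_not]
    constructor
    · rintro ⟨u, hu, hS⟩
      have hsize : (Ty.prod a b).size (q.1, u) ≤ N + p.eval N := by
        have h1 := q.2
        have h2 := eval_mono p h1
        have h3 : (Ty.prod a b).size (q.1, u) = a.size q.1 + b.size u := rfl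
        omega
      exact ⟨⟨(q.1, u), hsize⟩, ⟨u, hu, rfl⟩, hS⟩
    · rintro ⟨q', ⟨u, hu, hq⟩, hS⟩
      refine ⟨u, hu, ?_⟩
      rw [← hq]
      exact hS

theorem lev : S_lev := by
  intro hqb hnum hmono i a S
  induction S with
  | base C => exact lev_base hqb C
  | ex b p S ih => exact lev_step hnum hmono p S ih

end Pool.Agent.Lib.MP_2b5695_lc.RO
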