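import Pool.Agent.Lib.MP_2b5695_lc.RO.Stmts

/-!
Project RO, piece [mea]: the measure of an event that depends on finitely many words.
-/

namespace Pool.Agent.Lib.MP_2b5695_lc.RO

open Finset MeasureTheory

namespace Mea

/-- the restriction to a finite set of words -/
def res (D : Finset (List Bool)) (ω : List Bool → Bool) : D → Bool := fun w => ω w

/-- the extension by `false` -/
def extB (D : Finset (List Bool)) (v : D → Bool) (w : List Bool) : Bool :=
  if h : w ∈ D then v ⟨w, h⟩ else false

theorem res_extB (D : Finset (List Bool)) (v : D → Bool) : res D (extB D v) = v := by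
  funext w
  simp [res, extB]

theorem coin_res (D : Finset (List Bool)) (v : D → Bool) :
    coin.real {ω | res D ω = v} = (1 / 2) ^ D.card := by
  have h1 : {ω | res D ω = v} = Set.pi (D : Set (List Bool)) fun i => {extB D v i} := by
    ext ω
    simp only [Set.mem_ofPred_eq, Set.mem_pi, Finset.mem_coe, Set.mem_singleton_iff]
    constructor
    · rintro rfl i hi
      simp [extB, res, hi]
    · intro h
      funext w
      have := h w w.2
      simpa [extB, res] using this
  have h2 : coin {ω | res D ω = v} = (1 / 2) ^ D.card := by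
    rw [h1, coin, Measure.infinitePi_pi _ (fun i _ => measurableSet_singleton _)]
    have : ∀ i ∈ D, (PMF.uniformOfFintype Bool).toMeasure {extB D v i} = 1 / 2 := by
      intro i _
      rw [PMF.toMeasure_apply_singleton _ _ (measurableSet_singleton _)]
      simp
    rw [Finset.prod_congr rfl this, Finset.prod_const]
  rw [Measure.real, h2]
  simp

theorem meas_res (D : Finset (List Bool)) (v : D → Bool) :
    MeasurableSet {ω : List Bool → Bool | res D ω = v} := by
  have h1 : {ω | res D ω = v} = ⋂ w : D, (fun ω : List Bool → Bool => ω w) ⁻¹' {v w} := by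
    ext ω
    simp only [Set.mem_ofPred_eq, Set.mem_iInter, Set.mem_preimage, Set.mem_singleton_iff]
    exact ⟨fun h w => congrFun h w, fun h => funext h⟩
  rw [h1]
  exact MeasurableSet.iInter fun w => measurable_pi_apply _ (measurableSet_singleton _)

open Classical in
theorem coin_of_dep (D : Finset (List Bool)) (S : Set (List Bool → Bool))
    (hS : ∀ ω ω' : List Bool → Bool, (∀ w ∈ D, ω w = ω' w) → (ω ∈ S ↔ ω' ∈ S)) :
    coin.real S = ((Finset.univ.filter fun v : D → Bool => extB D v ∈ S).card : ℝ) *
      (1 / 2) ^ D.card := by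
  have h1 : S = ⋃ v ∈ (Finset.univ.filter fun v : D → Bool => extB D v ∈ S),
      {ω | res D ω = v} := by
    ext ω
    simp only [Finset.mem_filter, Finset.mem_univ, true_and, Set.mem_iUnion, Set.mem_ofPred_eq,
      exists_prop]
    have h2 : ω ∈ S ↔ extB D (res D ω) ∈ S := by
      refine hS _ _ fun w hw => ?_
      simp [extB, res, hw]
    rw [h2]
    constructor
    · intro h
      exact ⟨_, h, rfl⟩
    · rintro ⟨v, hv, hv'⟩
      rwa [hv']
  conv_lhs => rw [h1]
  rw [measureReal_biUnion_finset]
  · rw [Finset.sum_congr rfl fun v _ => coin_res D v, Finset.sum_const, nsmul_eq_mul]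
  · intro v _ v' _ hvv
    refine Set.disjoint_left.mpr fun ω hω hω' => hvv ?_
    exact (show res D ω = v from hω).symm.trans (show res D ω = v' from hω')
  · intro v _
    exact meas_res D v

theorem patch_apply {X : Type} {e : X → List Bool} (he : Function.Injective e)
    (ω : List Bool → Bool) (α : X → Bool) (x : X) : patch e ω α (e x) = α x := by
  have h : ∃ y, e y = e x := ⟨x, rfl⟩
  rw [patch, dif_pos h]
  exact congrArg α (he h.choose_spec)

theorem patch_of_not {X : Type} {e : X → List Bool} (ω : List Bool → Bool) (α : X → Bool)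
    {w : List Bool} (h : ¬ ∃ x, e x = w) : patch e ω α w = ω w := by
  rw [patch, dif_neg h]

end Mea

open Mea in
theorem mea : S_mea := by
  intro X _ e he S d ε hS hε
  classical
  set D : Finset (List Bool) := d ∪ Finset.univ.image e with hD
  have heD : ∀ x, e x ∈ D := fun x =>
    Finset.mem_union_right _ (Finset.mem_image_of_mem _ (Finset.mem_univ x))
  have hSD : ∀ ω ω' : List Bool → Bool, (∀ w ∈ D, ω w = ω' w) → (ω ∈ S ↔ ω' ∈ S) :=
    fun ω ω' h => hS ω ω' fun w hw => h w (Finset.mem_union_left _ hw)
  rw [coin_of_dep D S hSD]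
  -- the pairs
  let A : Finset ((D → Bool) × (X → Bool)) :=
    Finset.univ.filter fun p => patch e (extB D p.1) p.2 ∈ S
  let B : Finset ((D → Bool) × (X → Bool)) := Finset.univ.filter fun p => extB D p.1 ∈ S
  let τ : (D → Bool) × (X → Bool) → (D → Bool) × (X → Bool) := fun p =>
    (res D (patch e (extB D p.1) p.2), fun x => p.1 ⟨e x, heD x⟩)
  have hτ : ∀ p, τ (τ p) = p := by
    rintro ⟨v, α⟩
    have h1 : ∀ x, (τ (v, α)).1 ⟨e x, heD x⟩ = α x := fun x => patch_apply he _ _ x
    refine Prod.ext ?_ (funext h1)
    funext w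
    show patch e (extB D (τ (v, α)).1) (τ (v, α)).2 w = v w
    by_cases hw : ∃ x, e x = (w : List Bool)
    · obtain ⟨x, hx⟩ := hw
      have hw' : w = ⟨e x, heD x⟩ := Subtype.ext hx.symm
      subst hw'
      rw [patch_apply he]
    · rw [patch_of_not _ _ hw]
      show extB D (res D (patch e (extB D v) α)) w = v w
      have h2 : extB D (res D (patch e (extB D v) α)) w = patch e (extB D v) α w := by
        simp [extB, res, w.2]
      rw [h2, patch_of_not _ _ hw]
      simp [extB, w.2]
  have hAB : A.card = B.card := by
    refine Finset.card_bij (fun p _ => τ p) ?_ ?_ ?_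
    · intro p hp
      simp only [A, B, Finset.mem_filter, Finset.mem_univ, true_and] at hp ⊢
      refine (hSD _ _ fun w hw => ?_).mp hp
      simp [τ, extB, res, hw]
    · intro p _ q _ hpq
      rw [← hτ p, ← hτ q, hpq]
    · intro p hp
      refine ⟨τ p, ?_, hτ p⟩
      simp only [A, B, Finset.mem_filter, Finset.mem_univ, true_and] at hp ⊢
      have h1 : p.1 = (τ (τ p)).1 := by rw [hτ]
      rw [h1] at hp
      refine (hSD _ _ fun w hw => ?_).mpr hp
      simp [τ, extB, res, hw]
  have hB : B.card = (Finset.univ.filter fun v : D → Bool => extB D v ∈ S).card *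
      2 ^ Fintype.card X := by
    have h1 : B = (Finset.univ.filter fun v : D → Bool => extB D v ∈ S) ×ˢ
        (Finset.univ : Finset (X → Bool)) := by
      ext p
      simp [B]
    rw [h1, Finset.card_product]
    simp
  have hA : (A.card : ℝ) ≤ ε * 2 ^ Fintype.card X * 2 ^ D.card := by
    have h1 : A.card = ∑ v : D → Bool,
        (Finset.univ.filter fun α : X → Bool => patch e (extB D v) α ∈ S).card := by
      rw [Finset.card_filter, ← Finset.univ_product_univ, Finset.sum_product]
      refine Finset.sum_congr rfl fun v _ => ?_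
      rw [Finset.card_filter]
    rw [h1]
    push_cast
    refine (Finset.sum_le_sum fun v _ => hε (extB D v)).trans (le_of_eq ?_)
    rw [Finset.sum_const, nsmul_eq_mul, Finset.card_univ]
    simp only [Fintype.card_fun, Fintype.card_bool, Fintype.card_coe]
    push_cast
    ring
  rw [hAB, hB] at hA
  push_cast at hA
  have hX : (0 : ℝ) < 2 ^ Fintype.card X := by positivity
  have h3 : ((Finset.univ.filter fun v : D → Bool => extB D v ∈ S).card : ℝ) ≤
      ε * 2 ^ D.card := by
    by_contra hc
    push Not at hc
    nlinarith [mul_lt_mul_of_pos_right hc hX]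
  calc ((Finset.univ.filter fun v : D → Bool => extB D v ∈ S).card : ℝ) * (1 / 2) ^ D.card
      ≤ ε * 2 ^ D.card * (1 / 2) ^ D.card :=
        mul_le_mul_of_nonneg_right h3 (by positivity)
    _ = ε := by
        rw [mul_assoc, ← mul_pow]
        norm_num

end Pool.Agent.Lib.MP_2b5695_lc.RO
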