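import Pool.Agent.Lib.MP_2b5695_lc.RO.Stmts

/-!
Project RO, piece [mem]: the search problem is decidable in polynomial time with a `Σ_i^p` oracle.
-/

namespace Pool.Agent.Lib.MP_2b5695_lc.RO

open Pool.Agent.Lib.MP_2b5695_lc.Alg

namespace Mem

variable {ι : Ty} {A : Set ι.El} {a b c : Ty}

theorem lengthEq {f : a.El → List b.El} {g : a.El → List c.El} (hf : PF A a (.list b) f)
    (hg : PF A a (.list c) g) : PF A a .bool (fun v => decide ((f v).length = (g v).length)) :=
  ((PF.lengthLE hf hg).and' (PF.lengthLE hg hf)).of_eq fun v => by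
    rw [Bool.eq_iff_iff]
    simp only [Bool.and_eq_true, decide_eq_true_eq]
    omega

/-- the type of the queries -/
@[reducible] def K : Ty := .prod (.list .word) .word

/-- the loop over the oracle bits below a gate -/
def loop (O : List Bool → Bool) (s : K.El) : List Bool → Bool
  | [] => false
  | _ :: l => O ((l.map fun _ => true) ++ s.2) || loop O s l

theorem loop_iff (O : List Bool → Bool) (l : List Bool) (s : K.El) :
    loop O s l = true ↔ ∃ j, j < l.length ∧ O (List.replicate j true ++ s.2) = true := by
  induction l with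
  | nil => simp [loop]
  | cons e l ih =>
    rw [loop, Bool.or_eq_true, ih, List.map_const']
    constructor
    · rintro (h | ⟨j, hj, h⟩)
      · exact ⟨l.length, by simp, h⟩
      · exact ⟨j, by rw [List.length_cons]; omega, h⟩
    · rintro ⟨j, hj, h⟩
      rw [List.length_cons] at hj
      rcases Nat.lt_succ_iff_lt_or_eq.1 hj with h1 | h1
      · exact Or.inr ⟨j, h1, h⟩
      · subst h1
        exact Or.inl h

theorem inSigma_NN (A : Set (List Bool)) : ∀ i : ℕ,
    InSigma (ι := .word) A i K (NN (ind A) i)
  | 0 => by
    have hq : PF (ι := .word) A .word .bool (ind A) := PF.query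
    have hh : PF (ι := .word) A (.prod .bool (.prod .word (.prod K .bool))) .bool
        (fun v => ind A ((v.2.1.map fun _ => true) ++ v.2.2.1.2) || v.2.2.2) := by
      refine (PF.comp hq (PF.append (PF.map (φ := fun _ => true) (PF.snd _ _).fst'
        (PF.tt _)) ?_)).or' (PF.snd _ _).snd'.snd'
      exact (PF.snd _ _).snd'.fst'.snd'
    have hl : PF (ι := .word) A K .word (fun v => v.1.headD []) :=
      (PF.fst _ _).headD (PF.nil _ _)
    refine ⟨fun v => loop (ind A) v (v.1.headD []), ?_, fun v => ?_⟩
    · refine PF.rec' (f := fun v => loop (ind A) v.2 v.1) hl (PF.ff _) hh (fun s => rfl) (fun e l s => rfl) 1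
        fun e l s r => ?_
      simp
    · rw [loop_iff]
      rfl
  | i + 1 => by
    have hl : PF (ι := .word) A (.prod K .word) .word (fun v => v.1.1.headD []) :=
      (PF.fst _ _).fst'.headD (PF.nil _ _)
    have hc : PF (ι := .word) A (.prod K .word) .bool
        (fun v => !(decide (v.2.length = (v.1.1.headD []).length))) :=
      (lengthEq (PF.snd _ _) hl).not'
    have hf : PF (ι := .word) A (.prod K .word) K (fun v => (v.1.1.tail, v.2 ++ v.1.2)) :=
      (PF.fst _ _).fst'.tail.pair ((PF.snd _ _).append (PF.fst _ _).snd')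
    have h := ((inSigma_NN A i).comp hf).or hc
    refine ⟨.word, _, Polynomial.X, h, fun v => ?_⟩
    have hNN : NN (ind A) (i + 1) v ↔ ∃ w : List Bool, w.length = (v.1.headD []).length ∧
        ¬ NN (ind A) i (v.1.tail, w ++ v.2) := Iff.rfl
    rw [hNN]
    constructor
    · rintro ⟨w, hw, hn⟩
      refine ⟨w, ?_, ?_⟩
      · rw [Polynomial.eval_X, size_word, hw, size_prod]
        have : 2 * (v.1.headD []).length ≤ Ty.size (.list .word) v.1 := by
          cases h1 : v.1 with
          | nil => simp
          | cons x t =>
            rw [List.headD_cons, size_cons (a := .word), size_word]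
            omega
        omega
      · simp only [Bool.not_eq_eq_eq_not, Bool.not_true, decide_eq_false_iff_not, not_or,
          not_not]
        exact ⟨hw, hn⟩
    · rintro ⟨w, -, hn⟩
      simp only [Bool.not_eq_eq_eq_not, Bool.not_true, decide_eq_false_iff_not, not_or,
          not_not] at hn
      exact ⟨w, hn.1, hn.2⟩

end Mem

open Mem in
theorem mem : S_mem := by
  classical
  refine ⟨fun A i => ⟨K, {v | NN (ind A) i v}, inSigma_NN A i, ?_⟩, ?_⟩
  · have hd : PF (ι := K) {v | NN (ind A) i v} (.prod .word (.prod .word .word)) (.list .word)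
        (fun v => Alg.dec (.list .word) v.1) := PF.dec (.list .word) (PF.fst _ _)
    have hq : PF (ι := K) {v | NN (ind A) i v} (.prod .word (.prod .word .word)) .bool
        (fun v => decide (((Alg.dec (.list .word) v.1).tail, v.2.2 ++ v.2.1) ∈
          {v | NN (ind A) i v})) := by
      have h0 : PF (ι := K) {v | NN (ind A) i v} (.prod .word (.prod .word .word)) K
        (fun v => ((Alg.dec (.list .word) v.1).tail, v.2.2 ++ v.2.1)) :=
        hd.tail.pair ((PF.snd _ _).snd'.append (PF.snd _ _).fst')
      exact (PF.comp PF.query h0).of_eq fun v => by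
        rw [Bool.eq_iff_iff, decide_eq_true_iff]
    have hl1 : PF (ι := K) {v | NN (ind A) i v} (.prod .word (.prod .word .word)) .word
        (fun v => v.2.2) := (PF.snd _ _).snd'
    have hl2 : PF (ι := K) {v | NN (ind A) i v} (.prod .word (.prod .word .word)) .word
        (fun v => (Alg.dec (.list .word) v.1).headD []) := hd.headD (PF.nil _ _)
    have hl := lengthEq hl1 hl2
    refine (hl.and' hq.not').of_eq fun v => ?_
    unfold Rf
    rw [Bool.eq_iff_iff]
    simp only [Bool.and_eq_true, decide_eq_true_eq, Bool.not_eq_eq_eq_not, Bool.not_true,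
      decide_eq_false_iff_not, Set.mem_ofPred_eq]
  · have h : PF (ι := .word) (∅ : Set (List Bool)) .word .word
        (fun c => (Alg.dec (.list .word) c).headD []) :=
      (PF.dec (.list .word) (PF.id _)).headD (PF.nil _ _)
    obtain ⟨q, hq⟩ := h.bound
    refine ⟨q.comp (2 * Polynomial.X), fun c => ?_⟩
    have h1 := hq c
    rw [size_word, size_word] at h1
    rw [Polynomial.eval_comp, Polynomial.eval_mul, Polynomial.eval_ofNat, Polynomial.eval_X]
    omega

end Pool.Agent.Lib.MP_2b5695_lc.RO
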