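import Pool.Agent.Lib.MP_2b5695_lc.RO.Stmts

/-!
Project RO (random oracle at all levels), piece n0: the law above the bits.
-/

namespace Pool.Agent.Lib.MP_2b5695_lc.RO

open Pool.Agent.Lib.MP_2b5695_lc.Alg Finset

private lemma n0_par (β : ℕ) (hβ : 16 ≤ β) : Par (1 / 2) (tβ β) (8 * β) where
  pos := by norm_num
  le := le_rfl
  pos' := by unfold tβ; positivity
  le' := by
    unfold tβ
    calc (1 / 2 : ℝ) ^ β ≤ (1 / 2) ^ 1 :=
          pow_le_pow_of_le_one (by norm_num) (by norm_num) (by omega)
      _ = 1 / 2 := pow_one _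
  one_le := by omega
  small := by
    unfold tβ
    have h : (1 : ℝ) - 1 / 2 = 1 / 2 := by norm_num
    rw [h]
    exact pow_le_pow_of_le_one (by norm_num) (by norm_num) (by omega)

theorem n0 : S_n0 := by
  intro hbi hlaw β hβ
  have hPar := n0_par β hβ
  refine ⟨hPar, ?_⟩
  classical
  set ν : St → ℝ := fun s => if s = .live then 1 else 0 with hν
  have hν0 : ∀ s, 0 ≤ ν s := by
    intro s
    simp only [hν]
    split <;> norm_num
  have hν1 : ∑ s, ν s = 1 := by
    rw [hν, Finset.sum_ite_eq' univ St.live (fun _ => (1 : ℝ))]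
    simp
  have hl : ν .live = 1 := by simp [hν]
  have ht : ν .tru = 0 := by simp [hν]
  obtain ⟨h1, h2, h3, h4⟩ := hlaw hbi (Fin (8 * β)) ν (1 / 2) (tβ β) (8 * β) hPar hν0 hν1
  have hz : (∑ c : Fin (8 * β) → St, if nL c < 8 * β then ∏ w, ν (c w) else 0) = 0 := by
    refine Finset.sum_eq_zero fun c _ => ?_
    split
    · rename_i hc
      by_contra hne
      have hall : ∀ w, c w = .live := by
        intro w
        by_contra hw
        apply hne
        refine Finset.prod_eq_zero (Finset.mem_univ w) ?_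
        simp [hν, hw]
      have hcard : nL c = 8 * β := by
        unfold nL
        rw [Finset.filter_true_of_mem (fun w _ => hall w)]
        simp
      omega
    · rfl
  rw [hz, sub_zero] at h4
  rw [ht, hl] at h3 h4
  have hbase : (1 : ℝ) - (0 + 1 / 2 * 1) = 1 / 2 := by norm_num
  rw [hbase, Fintype.card_fin] at h3 h4
  refine ⟨h1, h2, h3, le_trans ?_ h4⟩
  have hp : 0 ≤ (1 / 2 : ℝ) ^ (8 * β) / (2 * tβ β) := by
    have := hPar.pos'
    positivity
  linarith

end Pool.Agent.Lib.MP_2b5695_lc.RO
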