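import Pool.Agent.Lib.MP_2b5695_lc.RO.Stmts

/-!
Project RO (random oracle at all levels), piece `n1`: the numerical conditions are kept.
-/

namespace Pool.Agent.Lib.MP_2b5695_lc.RO

open Finset

private lemma n1_par (β : ℕ) (hβ : 16 ≤ β) : Par (tβ β) (tβ β) (Lβ β) := by
  have hb : (16 : ℝ) ≤ β := by exact_mod_cast hβ
  have h0 : 0 < tβ β := by unfold tβ; positivity
  have h1 : tβ β ≤ 1 / 2 := by
    unfold tβ
    calc ((1 : ℝ) / 2) ^ β ≤ (1 / 2) ^ 1 :=
          pow_le_pow_of_le_one (by norm_num) (by norm_num) (by omega)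
      _ = 1 / 2 := by norm_num
  have h2 : 1 ≤ Lβ β := by
    unfold Lβ
    have : 0 < β * 2 ^ β := by positivity
    nlinarith
  have h3 : tβ β * (Lβ β : ℝ) = 2 * β := by
    unfold tβ Lβ
    push_cast
    have : ((1 : ℝ) / 2) ^ β * 2 ^ β = 1 := by
      rw [← mul_pow]
      norm_num
    calc ((1 : ℝ) / 2) ^ β * (2 * β * 2 ^ β) = 2 * β * (((1 : ℝ) / 2) ^ β * 2 ^ β) := by ring
      _ = _ := by rw [this]; ring
  refine ⟨h0, h1, h0, h1, h2, ?_⟩
  have h4 : (1 - tβ β) ^ Lβ β ≤ Real.exp (-(2 * β)) := by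
    have h5 : 1 - tβ β ≤ Real.exp (-tβ β) := by
      have := Real.add_one_le_exp (-tβ β)
      linarith
    calc (1 - tβ β) ^ Lβ β ≤ Real.exp (-tβ β) ^ Lβ β :=
          pow_le_pow_left₀ (by linarith) h5 _
      _ = Real.exp (-(2 * β)) := by
          rw [← Real.exp_nat_mul, ← h3]
          congr 1
          ring
  refine le_trans h4 ?_
  have h6 : Real.exp (-(2 * (β : ℝ))) = Real.exp (-2) ^ β := by
    rw [← Real.exp_nat_mul]
    congr 1
    ring
  rw [h6]
  unfold tβ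
  apply pow_le_pow_left₀ (Real.exp_pos _).le
  have h7 : (2 : ℝ) ≤ Real.exp 2 := by
    have := Real.add_one_le_exp (2 : ℝ)
    linarith
  rw [Real.exp_neg, one_div]
  exact inv_anti₀ (by norm_num) h7

private lemma n1_pow (β : ℕ) (hβ : 16 ≤ β) : (65536 : ℝ) ≤ 2 ^ β := by
  calc (65536 : ℝ) = 2 ^ 16 := by norm_num
    _ ≤ 2 ^ β := pow_le_pow_right₀ (by norm_num) hβ

theorem n1 : S_n1 := by
  classical
  intro hbi hlaw htail hpar β k ks ν hβ hGd hNum
  have hb : (16 : ℝ) ≤ β := by exact_mod_cast hβ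
  have hP := n1_par β hβ
  have h2b := n1_pow β hβ
  have ht0 : 0 < tβ β := hP.pos
  have ht1 : tβ β * 2 ^ β = 1 := by
    unfold tβ
    rw [← mul_pow]
    norm_num
  obtain ⟨hG1, hG2, hG3⟩ := hGd
  have hcard : Fintype.card (Fin k → Bool) = 2 ^ k := by
    rw [Fintype.card_fun, Fintype.card_fin, Fintype.card_bool]
  -- the tail
  have hlive : 7 / 16 * pOf β ks * 2 ^ β ≤ ν .live := by
    refine le_trans (le_of_eq ?_) hNum.le
    have e : pOf β ks / (2 * tβ β) = pOf β ks * 2 ^ β / 2 := by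
      rw [div_eq_div_iff (by positivity) (by norm_num)]
      calc pOf β ks * 2 = pOf β ks * 2 * 1 := by ring
        _ = pOf β ks * 2 * (tβ β * 2 ^ β) := by rw [ht1]
        _ = _ := by ring
    rw [e]
    ring
  have hT : (∑ c : (Fin k → Bool) → St, if nL c < Lβ β then ∏ w, ν (c w) else 0) ≤
      Real.exp (-((β : ℝ) * 2 ^ β / 5)) := by
    refine le_trans (htail (Fin k → Bool) ν (Lβ β) hNum.nonneg hNum.total) ?_
    apply Real.exp_le_exp.mpr
    rw [hcard]
    have e1 : (Lβ β : ℝ) = 2 * β * 2 ^ β := by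
      unfold Lβ
      push_cast
      ring
    rw [e1]
    push_cast
    have h3 : 7 / 2 * β * 2 ^ β ≤ 2 ^ k * ν .live := by
      calc 7 / 2 * (β : ℝ) * 2 ^ β = (8 * β) * (7 / 16 * 2 ^ β) := by ring
        _ ≤ (2 ^ k * pOf β ks) * (7 / 16 * 2 ^ β) :=
            mul_le_mul_of_nonneg_right hG2 (by positivity)
        _ = 2 ^ k * (7 / 16 * pOf β ks * 2 ^ β) := by ring
        _ ≤ 2 ^ k * ν .live := mul_le_mul_of_nonneg_left hlive (by positivity)
    have h4 : 0 < (β : ℝ) * 2 ^ β := by positivity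
    nlinarith
  obtain ⟨l1, l2, l3, l4⟩ := hlaw hbi (Fin k → Bool) ν (tβ β) (tβ β) (Lβ β) hP hNum.nonneg
    hNum.total
  rw [hNum.eq, hcard] at l3 l4
  have hp' : pOf β (k :: ks) = (1 - pOf β ks) ^ (2 ^ k) := rfl
  refine ⟨hP, ⟨l1, l2, ?_, ?_⟩, hT⟩
  · rw [hp']
    exact l3
  · refine le_trans ?_ l4
    rw [← hp']
    have h5 := (hpar.2 β (k :: ks) (by omega) ⟨hG1, hG2, hG3⟩).1
    have h6 : Real.exp (-((β : ℝ) * 2 ^ β / 5)) ≤ pOf β (k :: ks) / 8 := by
      have h7 : Real.exp (-((β : ℝ) * 2 ^ β / 5)) ≤ Real.exp (-32 * β + -3) := by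
        apply Real.exp_le_exp.mpr
        have : (β : ℝ) * 65536 ≤ β * 2 ^ β := mul_le_mul_of_nonneg_left h2b (by positivity)
        linarith
      have h8 : Real.exp (-3) ≤ 1 / 8 := by
        have h9 : (8 : ℝ) ≤ Real.exp 3 := by
          have h10 : (2 : ℝ) ≤ Real.exp 1 := by
            have := Real.add_one_le_exp (1 : ℝ)
            linarith
          have h11 : Real.exp 3 = Real.exp 1 ^ 3 := by
            rw [← Real.exp_nat_mul]
            norm_num
          rw [h11]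
          calc (8 : ℝ) = 2 ^ 3 := by norm_num
            _ ≤ Real.exp 1 ^ 3 := pow_le_pow_left₀ (by norm_num) h10 3
        rw [Real.exp_neg, one_div]
        exact inv_anti₀ (by norm_num) h9
      calc Real.exp (-((β : ℝ) * 2 ^ β / 5)) ≤ Real.exp (-32 * β + -3) := h7
        _ = Real.exp (-32 * β) * Real.exp (-3) := Real.exp_add _ _
        _ ≤ Real.exp (-32 * β) * (1 / 8) := mul_le_mul_of_nonneg_left h8 (Real.exp_pos _).le
        _ ≤ pOf β (k :: ks) * (1 / 8) := mul_le_mul_of_nonneg_right h5 (by norm_num)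
        _ = pOf β (k :: ks) / 8 := by ring
    have h12 : (∑ c : (Fin k → Bool) → St, if nL c < Lβ β then ∏ w, ν (c w) else 0) ≤
        pOf β (k :: ks) / 8 := le_trans hT h6
    rw [← mul_div_assoc]
    apply div_le_div_of_nonneg_right _ (by positivity)
    linarith

end Pool.Agent.Lib.MP_2b5695_lc.RO
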