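import Pool.Agent.Lib.MP_2b5695_lc.RO.Stmts

/-!
Project RO, piece [num]: the number of objects of bounded size, and monotonicity of `Lev`.
-/

namespace Pool.Agent.Lib.MP_2b5695_lc.RO

open Pool.Agent.Lib.MP_2b5695_lc.Alg

/-- the number of a word, with a leading digit `1` -/
def numW : List Bool → ℕ
  | [] => 1
  | b :: w => Nat.bit b (numW w)

theorem numW_pos (w : List Bool) : 1 ≤ numW w := by
  induction w with
  | nil => exact le_refl _
  | cons b w ih =>
    rw [numW, Nat.bit_val]
    omega

theorem numW_lt (w : List Bool) : numW w < 2 ^ (w.length + 1) := by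
  induction w with
  | nil => rw [numW]; simp
  | cons b w ih =>
    have hb : b.toNat ≤ 1 := Bool.toNat_le b
    rw [numW, Nat.bit_val, List.length_cons, pow_succ]
    omega

theorem numW_inj : ∀ w w' : List Bool, numW w = numW w' → w = w' := by
  intro w
  induction w with
  | nil =>
    intro w' h
    cases w' with
    | nil => rfl
    | cons b w' =>
      have h1 := numW_pos w'
      rw [numW, numW, Nat.bit_val] at h
      omega
  | cons b w ih =>
    intro w' h
    cases w' with
    | nil =>
      have h1 := numW_pos w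
      rw [numW, numW, Nat.bit_val] at h
      omega
    | cons b' w' =>
      rw [numW, numW, Nat.bit_val, Nat.bit_val] at h
      have hb : b.toNat ≤ 1 := Bool.toNat_le b
      have hb' : b'.toNat ≤ 1 := Bool.toNat_le b'
      have h1 : numW w = numW w' := by omega
      have h2 : b.toNat = b'.toNat := by omega
      have h3 : b = b' := by cases b <;> cases b' <;> simp_all
      rw [ih w' h1, h3]

theorem eval_mono_nat (P : Polynomial ℕ) {x y : ℕ} (h : x ≤ y) : P.eval x ≤ P.eval y := by
  rw [Polynomial.eval_eq_sum, Polynomial.eval_eq_sum]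
  refine Finset.sum_le_sum fun i _ => ?_
  exact Nat.mul_le_mul_left _ (Nat.pow_le_pow_left h i)

theorem num : S_num := by
  intro a
  obtain ⟨P, hP⟩ := (PF.enc (A := (∅ : Set Ty.bool.El)) a (PF.id a)).bound
  have hP' : ∀ v : a.El, (enc a v).length ≤ P.eval (a.size v) := by
    intro v
    have h1 := hP v
    rw [size_word] at h1
    omega
  refine ⟨P + 1, fun N => ?_⟩
  have hlt : ∀ v : {v : a.El // a.size v ≤ N}, numW (enc a v.1) < 2 ^ (P + 1).eval N := by
    intro v
    refine lt_of_lt_of_le (numW_lt _) (Nat.pow_le_pow_right (by norm_num) ?_)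
    rw [Polynomial.eval_add, Polynomial.eval_one]
    have h1 := hP' v.1
    have h2 := eval_mono_nat P v.2
    omega
  have hinj : Function.Injective fun v : {v : a.El // a.size v ≤ N} =>
      (⟨numW (enc a v.1), hlt v⟩ : Fin (2 ^ (P + 1).eval N)) := by
    intro v v' h
    have h1 : numW (enc a v.1) = numW (enc a v'.1) := congrArg Fin.val h
    have h2 := numW_inj _ _ h1
    have h3 : dec a (enc a v.1) = dec a (enc a v'.1) := by rw [h2]
    rw [dec_enc, dec_enc] at h3
    exact Subtype.ext h3
  refine ⟨Finite.of_injective _ hinj, ?_⟩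
  have h := Nat.card_le_card_of_injective _ hinj
  rw [Nat.card_fin] at h
  exact h

theorem mono : S_mono := by
  intro M M' s s' m
  induction m with
  | zero =>
    intro X Q F _ hs h q
    obtain ⟨T, hT, hv⟩ := h q
    exact ⟨T, hT.trans hs, hv⟩
  | succ m ih =>
    intro X Q F hM hs h
    obtain ⟨h1, h2, Q', F', U, h3, h4⟩ := h
    exact ⟨h1, h2.trans (Nat.pow_le_pow_right (by norm_num) hM), Q', F', U,
      ih X Q' F' hM hs h3, h4⟩

end Pool.Agent.Lib.MP_2b5695_lc.RO
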