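import Pool.Agent.Lib.MP_2b5695_lc.RO.Stmts

/-!
Project RO, pieces [nx] and [res].
-/

namespace Pool.Agent.Lib.MP_2b5695_lc.RO

open Finset

section

variable {A0 X W : Type} [Fintype A0] [Fintype X] [DecidableEq X] [Fintype W] [DecidableEq W]

/-- the sum over all restrictions of the next level and all values -/
theorem next_sum (hZ : S_tz) (hI : S_bi) {t t' : ℝ} {Lm : ℕ} (hP : Par t t' Lm)
    (c : X × W → St) (g : (X × W → Bool) → ℝ) :
    ∑ ξ : X → Bs W, (∏ x, bw t t' Lm (fun w => c (x, w)) (ξ x)) *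
      ∑ v : X → Bool, bn t' v * g (fun y => ph (ξ y.1) (v y.1) y.2) =
    ∑ u : X → W → Bool, (∏ x, mw t (fun w => c (x, w)) (u x)) * g (fun y => u y.1 y.2) := by
  have h1 := hZ X (Bs W × Bool) (W → Bool) (fun _ q => ph q.1 q.2)
    (fun x q _ => bw t t' Lm (fun w => c (x, w)) q.1 * (if q.2 then t' else 1 - t'))
    (fun u => g fun y => u y.1 y.2)
  have h2 : ∀ u : X → W → Bool, (∏ x, ∑ q : Bs W × Bool, if ph q.1 q.2 = u x then
      bw t t' Lm (fun w => c (x, w)) q.1 * (if q.2 then t' else 1 - t') else 0) =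
      ∏ x, mw t (fun w => c (x, w)) (u x) := by
    intro u
    refine Finset.prod_congr rfl fun x _ => ?_
    exact (hI W t t' Lm (fun w => c (x, w)) hP).2.2.2.2.2.2.1 (u x)
  simp only [h2] at h1
  rw [← h1]
  rw [← (Equiv.arrowProdEquivProdArrow X (fun _ => Bs W) (fun _ => Bool)).symm.sum_comp,
    Fintype.sum_prod_type]
  refine Finset.sum_congr rfl fun ξ _ => ?_
  rw [Finset.mul_sum]
  refine Finset.sum_congr rfl fun v _ => ?_
  simp only [bn, Equiv.arrowProdEquivProdArrow, Equiv.coe_fn_symm_mk, Finset.prod_mul_distrib,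
    mul_assoc]
  rfl

theorem cur_sum (hZ : S_tz) (hI : S_bi) {t t' : ℝ} {Lm : ℕ} (hP : Par t t' Lm)
    (c : X × W → St) (g : (X × W → Bool) → ℝ)
    (hg : ∀ v v', (∀ y, c y = .live → v y = v' y) → g v = g v') :
    ∑ v : X × W → Bool, bn t v * g v =
    ∑ u : X → W → Bool, (∏ x, mw t (fun w => c (x, w)) (u x)) * g (fun y => u y.1 y.2) := by
  have h1 := hZ X (W → Bool) (W → Bool) (fun x q w => q w && decide (c (x, w) = .live))
    (fun _ q _ => bn t q)
    (fun u => g fun y => u y.1 y.2)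
  have h2 : ∀ u : X → W → Bool, (∏ x, ∑ q : W → Bool,
      if (fun w => q w && decide (c (x, w) = .live)) = u x then bn t q else 0) =
      ∏ x, mw t (fun w => c (x, w)) (u x) := by
    intro u
    refine Finset.prod_congr rfl fun x _ => ?_
    exact (hI W t t' Lm (fun w => c (x, w)) hP).2.2.2.2.2.2.2.1 (u x)
  simp only [h2] at h1
  rw [← h1, ← (Equiv.curry X W Bool).sum_comp]
  refine Finset.sum_congr rfl fun v _ => ?_
  congr 1
  · unfold bn
    rw [Fintype.prod_prod_type]
    rfl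
  · refine hg _ _ fun y hy => ?_
    simp [Function.curry, hy]

omit [Fintype A0] in
theorem nx_insens {t t' : ℝ} {Lm : ℕ} {Γ : World A0 (X × W)} (o : (Γ.next t t' Lm).Om)
    (v v' : X → Bool) (h : ∀ x, (Γ.next t t' Lm).st o x = .live → v x = v' x) :
    (Γ.next t t' Lm).B o v = (Γ.next t t' Lm).B o v' := by
  obtain ⟨o1, ξ⟩ := o
  have : (fun y : X × W => ph (ξ y.1) (v y.1) y.2) = fun y => ph (ξ y.1) (v' y.1) y.2 := by
    funext y
    rcases hx : ξ y.1 with ⟨b, S⟩
    cases b
    · rfl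
    · have : v y.1 = v' y.1 := h y.1 (by
        simp only [World.next, hx, nst])
      rw [this]
  exact congrArg (Γ.B o1) this

omit [Fintype A0] in
theorem wt_ne {t t' : ℝ} {Lm : ℕ} {Γ : World A0 (X × W)} {o1 : Γ.Om} {ξ : X → Bs W}
    (h : (Γ.next t t' Lm).wt (o1, ξ) ≠ 0) :
    Γ.wt o1 ≠ 0 ∧ ∀ x, bw t t' Lm (fun w => Γ.st o1 (x, w)) (ξ x) ≠ 0 := by
  have h' : Γ.wt o1 * ∏ x, bw t t' Lm (fun w => Γ.st o1 (x, w)) (ξ x) ≠ 0 := h
  refine ⟨left_ne_zero_of_mul h', fun x hx => h' ?_⟩
  rw [Finset.prod_eq_zero (Finset.mem_univ x) hx, mul_zero]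

theorem bool_eq {b c : Bool} (h1 : c = true → b = true) (h2 : c = false → b ≠ true) : b = c := by
  cases b <;> cases c <;> simp_all

theorem nx_value (hI : S_bi) {t t' : ℝ} {Lm : ℕ} {Γ : World A0 (X × W)} {ν : St → ℝ}
    {V : A0 → X × W → Bool} (hP : Par t t' Lm) (hO : Ok t Γ ν V) (o : (Γ.next t t' Lm).Om)
    (ho : (Γ.next t t' Lm).wt o ≠ 0) (v : X → Bool) (x : X) :
    up (V ((Γ.next t t' Lm).B o v)) x = ((Γ.next t t' Lm).st o x).val (v x) := by
  obtain ⟨o1, ξ⟩ := o
  obtain ⟨h1, h2⟩ := wt_ne ho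
  have hb := h2 x
  obtain ⟨-, -, b3, b4, -⟩ := hI W t t' Lm (fun w => Γ.st o1 (x, w)) hP
  have key : up (V ((Γ.next t t' Lm).B (o1, ξ) v)) x = true ↔
      ∀ w, (Γ.st o1 (x, w)).val (ph (ξ x) (v x) w) = false := by
    unfold up
    rw [decide_eq_true_iff]
    refine forall_congr' fun w => ?_
    have := hO.value o1 h1 (fun y => ph (ξ y.1) (v y.1) y.2) (x, w)
    exact Eq.congr_left this
  have hst : (Γ.next t t' Lm).st (o1, ξ) x = nst (fun w => Γ.st o1 (x, w)) (ξ x) := rfl
  rw [hst]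
  have b3' := b3 (ξ x) hb
  have vF : ∀ w, Γ.st o1 (x, w) ≠ .tru → (Γ.st o1 (x, w)).val false = false := by
    intro w hw
    rcases h : Γ.st o1 (x, w) with _ | _ | _
    · rfl
    · exact absurd h hw
    · rfl
  rcases hx : ξ x with ⟨b, S⟩
  rw [hx] at hb b3' key
  cases b
  · by_cases hc : (∀ w, Γ.st o1 (x, w) ≠ .tru) ∧ S = zr
    · have : nst (fun w => Γ.st o1 (x, w)) (false, S) = .tru := by
        simp only [nst]
        rw [if_pos hc]
      rw [this]
      refine bool_eq (fun _ => key.2 fun w => ?_) (fun h => absurd h (by simp [St.val]))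
      have hw : ph (false, S) (v x) w = false := by
        rw [hc.2]
        rfl
      rw [hw]
      exact vF w (hc.1 w)
    · have : nst (fun w => Γ.st o1 (x, w)) (false, S) = .fls := by
        simp only [nst]
        rw [if_neg hc]
      rw [this]
      refine bool_eq (fun h => absurd h (by simp [St.val])) (fun _ hk => ?_)
      have hall := key.1 hk
      refine hc ⟨fun w hw => ?_, ?_⟩
      · have := hall w
        rw [hw] at this
        simp [St.val] at this
      · funext w
        by_contra hw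
        have hw' : S w = true := by
          simpa [zr] using hw
        have := hall w
        rw [b3' w hw'] at this
        simp [St.val, ph, hw'] at this
  · obtain ⟨h3, h4⟩ := b4 S hb
    have : nst (fun w => Γ.st o1 (x, w)) (true, S) = .live := rfl
    rw [this]
    refine bool_eq (fun h => key.2 fun w => ?_) (fun h hk => ?_)
    · have hv : v x = true := h
      have hw : ph (true, S) (v x) w = false := by
        simp [ph, hv]
      rw [hw]
      exact vF w (h3 w)
    · have hv : v x = false := h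
      have hall := key.1 hk
      refine h4 ?_
      funext w
      by_contra hw
      have hw' : S w = true := by
        simpa [zr] using hw
      have := hall w
      rw [b3' w hw'] at this
      simp [St.val, ph, hw', hv] at this

end

/-- [nx] -/
theorem nx : S_nx := by
  intro hZ hI A0 X W _ _ _ _ _ _ t t' Lm Γ ν V hP hO
  refine ⟨?_, ?_, ?_, ?_, ?_⟩
  · rintro ⟨o1, ξ⟩
    refine mul_nonneg (hO.nonneg o1) (Finset.prod_nonneg fun x _ => ?_)
    exact (hI W t t' Lm (fun w => Γ.st o1 (x, w)) hP).1 _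
  · intro f
    have h1 : ∑ o : (Γ.next t t' Lm).Om, (Γ.next t t' Lm).wt o *
        ∑ v, bn t' v * f ((Γ.next t t' Lm).B o v) =
        ∑ o : Γ.Om, Γ.wt o * ∑ v, bn t v * f (Γ.B o v) := by
      have e : ∑ o : (Γ.next t t' Lm).Om, (Γ.next t t' Lm).wt o *
        ∑ v, bn t' v * f ((Γ.next t t' Lm).B o v) =
        ∑ o : Γ.Om × (X → Bs W), (Γ.wt o.1 * ∏ x, bw t t' Lm (fun w => Γ.st o.1 (x, w)) (o.2 x)) *
          ∑ v : X → Bool, bn t' v * f (Γ.B o.1 fun y => ph (o.2 y.1) (v y.1) y.2) := rfl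
      rw [e, Fintype.sum_prod_type]
      refine Finset.sum_congr rfl fun o _ => ?_
      simp only [mul_assoc]
      rw [← Finset.mul_sum, next_sum hZ hI hP (fun y => Γ.st o y) (fun a => f (Γ.B o a)),
        cur_sum hZ hI hP (fun y => Γ.st o y) (fun a => f (Γ.B o a))]
      intro v v' hv
      simp only [hO.insens o v v' hv]
    rw [h1]
    exact hO.unif f
  · exact fun o v v' h => nx_insens o v v' h
  · exact fun o ho v x => nx_value hI hP hO o ho v x
  · intro f
    have e : ∑ o : (Γ.next t t' Lm).Om, (Γ.next t t' Lm).wt o * f ((Γ.next t t' Lm).st o) =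
        ∑ o : Γ.Om × (X → Bs W), (Γ.wt o.1 * ∏ x, bw t t' Lm (fun w => Γ.st o.1 (x, w)) (o.2 x)) *
          f (fun x => nst (fun w => Γ.st o.1 (x, w)) (o.2 x)) := rfl
    rw [e, Fintype.sum_prod_type]
    have h1 : ∀ o : Γ.Om, ∑ ξ : X → Bs W,
        (Γ.wt o * ∏ x, bw t t' Lm (fun w => Γ.st o (x, w)) (ξ x)) *
          f (fun x => nst (fun w => Γ.st o (x, w)) (ξ x)) =
        Γ.wt o * ∑ s : X → St, (∏ x, ∑ ξ : Bs W, if nst (fun w => Γ.st o (x, w)) ξ = s x then
          bw t t' Lm (fun w => Γ.st o (x, w)) ξ else 0) * f s := by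
      intro o
      rw [← hZ X (Bs W) St (fun x q => nst (fun w => Γ.st o (x, w)) q)
        (fun x q _ => bw t t' Lm (fun w => Γ.st o (x, w)) q) f, Finset.mul_sum]
      refine Finset.sum_congr rfl fun ξ _ => ?_
      ring
    simp only [h1]
    rw [hO.law fun c => ∑ s : X → St, (∏ x, ∑ ξ : Bs W, if nst (fun w => c (x, w)) ξ = s x then
          bw t t' Lm (fun w => c (x, w)) ξ else 0) * f s]
    simp only [Finset.mul_sum]
    rw [Finset.sum_comm]
    refine Finset.sum_congr rfl fun s _ => ?_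
    simp only [← mul_assoc]
    rw [← Finset.sum_mul]
    congr 1
    unfold nlaw
    rw [Finset.prod_univ_sum, Fintype.piFinset_univ, ← (Equiv.curry X W St).sum_comp]
    refine Finset.sum_congr rfl fun c _ => ?_
    rw [Finset.prod_mul_distrib, Fintype.prod_prod_type]
    rfl

end Pool.Agent.Lib.MP_2b5695_lc.RO
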