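import Pool.Agent.Lib.MP_2b5695_lc.RO.Stmts

/-!
Project RO, piece par: existence of parameters and bounds for the probabilities.
-/

set_option autoImplicit false

namespace Pool.Agent.Lib.MP_2b5695_lc.RO

private theorem par_exp32 : Real.exp 32 ≤ 2 ^ 47 := by
  have h1 : Real.exp 32 = Real.exp 1 ^ 32 := by
    rw [← Real.exp_nat_mul]
    norm_num
  rw [h1]
  calc Real.exp 1 ^ 32 ≤ (2.7182818286 : ℝ) ^ 32 :=
        pow_le_pow_left₀ (Real.exp_pos _).le Real.exp_one_lt_d9.le 32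
    _ ≤ 2 ^ 47 := by norm_num

private theorem par_exp1 : Real.exp (-1) ≤ 1 / 2 := by
  rw [Real.exp_neg, one_div]
  refine inv_anti₀ (by norm_num) ?_
  have := Real.add_one_le_exp (1 : ℝ)
  linarith

private theorem par_exp1' : Real.exp (-4) ≤ 1 / 2 := by
  refine le_trans ?_ par_exp1
  exact Real.exp_le_exp.2 (by norm_num)

/-- bounds -/
private theorem par_bd (β : ℕ) (hβ : 1 ≤ β) : ∀ ks : List ℕ, Gd β ks →
    Real.exp (-32 * β) ≤ pOf β ks ∧ pOf β ks ≤ (1 / 2) ^ (8 * β) := by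
  have hβR : (1 : ℝ) ≤ β := by exact_mod_cast hβ
  have hle : (1 / 2 : ℝ) ^ (8 * β) ≤ 1 / 2 := by
    calc (1 / 2 : ℝ) ^ (8 * β) ≤ (1 / 2 : ℝ) ^ 1 :=
          pow_le_pow_of_le_one (by norm_num) (by norm_num) (by omega)
      _ = 1 / 2 := pow_one _
  intro ks
  induction ks with
  | nil =>
    intro _
    refine ⟨?_, le_rfl⟩
    show Real.exp (-32 * β) ≤ (1 / 2) ^ (8 * β)
    have h1 : Real.exp (-32 * (β : ℝ)) = Real.exp (-4) ^ (8 * β) := by
      rw [← Real.exp_nat_mul]
      congr 1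
      push_cast
      ring
    rw [h1]
    exact pow_le_pow_left₀ (Real.exp_pos _).le par_exp1' _
  | cons k ks ih =>
    intro h
    obtain ⟨h0, h1, h2⟩ := h
    obtain ⟨l1, l2⟩ := ih h0
    have hp0 : 0 < pOf β ks := lt_of_lt_of_le (Real.exp_pos _) l1
    have hp1 : pOf β ks ≤ 1 / 2 := l2.trans hle
    constructor
    · show Real.exp (-32 * β) ≤ (1 - pOf β ks) ^ (2 ^ k)
      have e1 : Real.exp (-2 * pOf β ks) ≤ 1 - pOf β ks := by
        have hx : (0 : ℝ) < 1 - pOf β ks := by linarith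
        have h3 : (1 - pOf β ks)⁻¹ ≤ Real.exp (2 * pOf β ks) := by
          have h4 : (1 - pOf β ks)⁻¹ ≤ 2 * pOf β ks + 1 := by
            rw [inv_le_iff_one_le_mul₀ hx]
            nlinarith
          exact h4.trans (Real.add_one_le_exp _)
        rw [show -2 * pOf β ks = -(2 * pOf β ks) by ring, Real.exp_neg]
        exact inv_le_of_inv_le₀ hx h3
      calc Real.exp (-32 * β) ≤ Real.exp (-2 * (2 ^ k * pOf β ks)) := by
            apply Real.exp_le_exp.2
            linarith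
        _ = Real.exp (-2 * pOf β ks) ^ (2 ^ k) := by
            rw [← Real.exp_nat_mul]
            congr 1
            push_cast
            ring
        _ ≤ (1 - pOf β ks) ^ (2 ^ k) := pow_le_pow_left₀ (Real.exp_pos _).le e1 _
    · show (1 - pOf β ks) ^ (2 ^ k) ≤ (1 / 2) ^ (8 * β)
      have e1 : 1 - pOf β ks ≤ Real.exp (-pOf β ks) := by
        have := Real.add_one_le_exp (-pOf β ks)
        linarith
      calc (1 - pOf β ks) ^ (2 ^ k) ≤ Real.exp (-pOf β ks) ^ (2 ^ k) :=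
            pow_le_pow_left₀ (by linarith) e1 _
        _ = Real.exp (-(2 ^ k * pOf β ks)) := by
            rw [← Real.exp_nat_mul]
            congr 1
            push_cast
            ring
        _ ≤ Real.exp (-(8 * β)) := by
            apply Real.exp_le_exp.2
            linarith
        _ = Real.exp (-1) ^ (8 * β) := by
            rw [← Real.exp_nat_mul]
            congr 1
            push_cast
            ring
        _ ≤ (1 / 2) ^ (8 * β) := pow_le_pow_left₀ (Real.exp_pos _).le par_exp1 _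

private theorem par_big (β : ℕ) (hβ : 1 ≤ β) :
    8 * (β : ℝ) ≤ 2 ^ (60 * β) * Real.exp (-32 * β) := by
  have h1 : Real.exp (-32 * (β : ℝ)) = (Real.exp 32)⁻¹ ^ β := by
    rw [← Real.exp_neg, ← Real.exp_nat_mul]
    congr 1
    ring
  have h2 : (2 : ℝ) ^ 13 ≤ 2 ^ 60 * (Real.exp 32)⁻¹ := by
    rw [← div_eq_mul_inv, le_div_iff₀ (Real.exp_pos _)]
    calc (2 : ℝ) ^ 13 * Real.exp 32 ≤ 2 ^ 13 * 2 ^ 47 :=
          mul_le_mul_of_nonneg_left par_exp32 (by positivity)
      _ = 2 ^ 60 := by norm_num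
  rw [h1, pow_mul, ← mul_pow]
  have h3 : ((2 : ℝ) ^ 13) ^ β ≤ (2 ^ 60 * (Real.exp 32)⁻¹) ^ β :=
    pow_le_pow_left₀ (by positivity) h2 β
  refine le_trans ?_ h3
  rw [← pow_mul]
  have h4 : (β : ℝ) ≤ 2 ^ β := by exact_mod_cast (Nat.lt_two_pow_self (n := β)).le
  calc 8 * (β : ℝ) ≤ 2 ^ 3 * 2 ^ β := by
        have : (8 : ℝ) = 2 ^ 3 := by norm_num
        rw [this]
        exact mul_le_mul_of_nonneg_left h4 (by positivity)
    _ = 2 ^ (3 + β) := by rw [pow_add]
    _ ≤ 2 ^ (13 * β) := pow_le_pow_right₀ (by norm_num) (by omega)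

/-- [par] -/
theorem par : S_par := by
  classical
  refine ⟨?_, fun β ks hβ hG => par_bd β hβ ks hG⟩
  intro i β hβ
  have hβR : (1 : ℝ) ≤ β := by exact_mod_cast hβ
  induction i with
  | zero => exact ⟨[], rfl, trivial, by simp⟩
  | succ i ih =>
    obtain ⟨ks, hlen, hG, hk⟩ := ih
    obtain ⟨l1, l2⟩ := par_bd β hβ ks hG
    have hp0 : 0 < pOf β ks := lt_of_lt_of_le (Real.exp_pos _) l1
    have hp1 : pOf β ks ≤ 1 := l2.trans (pow_le_one₀ (by norm_num) (by norm_num))
    have hex : ∃ k : ℕ, 8 * (β : ℝ) ≤ 2 ^ k * pOf β ks :=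
      ⟨60 * β, (par_big β hβ).trans (mul_le_mul_of_nonneg_left l1 (by positivity))⟩
    set k := Nat.find hex with hkdef
    have hk1 : 8 * (β : ℝ) ≤ 2 ^ k * pOf β ks := Nat.find_spec hex
    have hk2 : k ≤ 60 * β := Nat.find_min' hex
      ((par_big β hβ).trans (mul_le_mul_of_nonneg_left l1 (by positivity)))
    have hk0 : k ≠ 0 := by
      intro h0
      rw [h0, pow_zero, one_mul] at hk1
      linarith
    obtain ⟨j, hj⟩ := Nat.exists_eq_succ_of_ne_zero hk0
    have hk3 : 2 ^ j * pOf β ks < 8 * (β : ℝ) := by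
      have := Nat.find_min hex (m := j) (by omega)
      exact not_le.1 this
    refine ⟨k :: ks, by simp [hlen], ⟨hG, hk1, ?_⟩, ?_⟩
    · rw [hj, pow_succ]
      linarith
    · intro x hx
      rcases List.mem_cons.1 hx with rfl | hx
      · exact hk2
      · exact hk x hx

end Pool.Agent.Lib.MP_2b5695_lc.RO
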