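import Pool.Agent.Lib.MP_2b5695_lc.RO.Stmts

/-!
Project RO, piece [qb]: query trees of polynomial depth, query size and result size for programs.
-/

set_option autoImplicit false

namespace Pool.Agent.Lib.MP_2b5695_lc.RO

open Pool.Agent.Lib.MP_2b5695_lc.Alg

section trees

variable {X β γ : Type}

/-- all results of the tree satisfy `P` -/
def qb_Lv (P : β → Prop) : Tree X β → Prop
  | .leaf b => P b
  | .node _ l r => qb_Lv P l ∧ qb_Lv P r

/-- composition of trees -/
def qb_bind (f : β → Tree X γ) : Tree X β → Tree X γ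
  | .leaf b => f b
  | .node x l r => .node x (qb_bind f l) (qb_bind f r)

theorem qb_bind_eval (f : β → Tree X γ) (v : X → Bool) (T : Tree X β) :
    (qb_bind f T).eval v = (f (T.eval v)).eval v := by
  induction T with
  | leaf b => rfl
  | node x l r ihl ihr =>
    show (bif v x then (qb_bind f r).eval v else (qb_bind f l).eval v) =
      (f (bif v x then r.eval v else l.eval v)).eval v
    cases v x
    · exact ihl
    · exact ihr

theorem qb_bind_depth (f : β → Tree X γ) (P : β → Prop) (d : ℕ)
    (hf : ∀ b, P b → (f b).depth ≤ d) (T : Tree X β) (hT : qb_Lv P T) :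
    (qb_bind f T).depth ≤ T.depth + d := by
  induction T with
  | leaf b =>
    show (f b).depth ≤ 0 + d
    rw [Nat.zero_add]
    exact hf b hT
  | node x l r ihl ihr =>
    show max (qb_bind f l).depth (qb_bind f r).depth + 1 ≤ max l.depth r.depth + 1 + d
    have h1 := ihl hT.1
    have h2 := ihr hT.2
    omega

theorem qb_bind_All (f : β → Tree X γ) (P : β → Prop) (Q : X → Prop)
    (hf : ∀ b, P b → (f b).All Q) (T : Tree X β) (hT : qb_Lv P T) (hQ : T.All Q) :
    (qb_bind f T).All Q := by
  induction T with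
  | leaf b => exact hf b hT
  | node x l r ihl ihr => exact ⟨hQ.1, ihl hT.1 hQ.2.1, ihr hT.2 hQ.2.2⟩

theorem qb_bind_Lv (f : β → Tree X γ) (P : β → Prop) (Q : γ → Prop)
    (hf : ∀ b, P b → qb_Lv Q (f b)) (T : Tree X β) (hT : qb_Lv P T) :
    qb_Lv Q (qb_bind f T) := by
  induction T with
  | leaf b => exact hf b hT
  | node x l r ihl ihr => exact ⟨ihl hT.1, ihr hT.2⟩

theorem qb_All_mono (Q Q' : X → Prop) (h : ∀ x, Q x → Q' x) (T : Tree X β) (hQ : T.All Q) :
    T.All Q' := by
  induction T with
  | leaf b => trivial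
  | node x l r ihl ihr => exact ⟨h x hQ.1, ihl hQ.2.1, ihr hQ.2.2⟩

theorem qb_Lv_mono (Q Q' : β → Prop) (h : ∀ x, Q x → Q' x) (T : Tree X β) (hQ : qb_Lv Q T) :
    qb_Lv Q' T := by
  induction T with
  | leaf b => exact h b hQ
  | node x l r ihl ihr => exact ⟨ihl hQ.1, ihr hQ.2⟩

theorem qb_Lv_eval (Q : β → Prop) (v : X → Bool) (T : Tree X β) (hQ : qb_Lv Q T) :
    Q (T.eval v) := by
  induction T with
  | leaf b => exact hQ
  | node x l r ihl ihr =>
    show Q (bif v x then r.eval v else l.eval v)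
    cases v x
    · exact ihl hQ.1
    · exact ihr hQ.2

end trees

/-- `f` is computed by a tree of depth at most `d`, with queries of size at most `N` and results of
size at most `B` -/
def qb_G {κ b : Ty} (d N B : ℕ) (f : (κ.El → Bool) → b.El) : Prop :=
  ∃ T : Tree κ.El b.El, T.depth ≤ d ∧ T.All (fun q => κ.size q ≤ N) ∧
    qb_Lv (fun e => b.size e ≤ B) T ∧ ∀ O, T.eval O = f O

theorem qb_G_mono {κ b : Ty} {d N B d' N' B' : ℕ} {f : (κ.El → Bool) → b.El}
    (h : qb_G d N B f) (hd : d ≤ d') (hN : N ≤ N') (hB : B ≤ B') : qb_G d' N' B' f := by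
  obtain ⟨T, h1, h2, h3, h4⟩ := h
  exact ⟨T, h1.trans hd, qb_All_mono _ _ (fun _ h => h.trans hN) T h2,
    qb_Lv_mono _ _ (fun _ h => h.trans hB) T h3, h4⟩

theorem qb_G_pure {κ b : Ty} (N : ℕ) {B : ℕ} (e : b.El) (he : b.size e ≤ B) :
    qb_G (κ := κ) 0 N B (fun _ => e) :=
  ⟨.leaf e, le_rfl, trivial, he, fun _ => rfl⟩

theorem qb_G_bind {κ b c : Ty} {d₁ d₂ N B₁ B₂ : ℕ} {f : (κ.El → Bool) → b.El}
    {g : b.El → (κ.El → Bool) → c.El} (hf : qb_G d₁ N B₁ f)
    (hg : ∀ e, b.size e ≤ B₁ → qb_G d₂ N B₂ (g e)) :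
    qb_G (d₁ + d₂) N B₂ (fun O => g (f O) O) := by
  classical
  obtain ⟨T, h1, h2, h3, h4⟩ := hf
  have : Nonempty (Tree κ.El c.El) := ⟨.leaf c.default⟩
  choose! S hS using hg
  refine ⟨qb_bind S T, ?_, ?_, ?_, ?_⟩
  · refine (qb_bind_depth S _ d₂ (fun b hb => (hS b hb).1) T h3).trans ?_
    exact Nat.add_le_add_right h1 d₂
  · exact qb_bind_All S _ _ (fun b hb => (hS b hb).2.1) T h3 h2
  · exact qb_bind_Lv S _ _ (fun b hb => (hS b hb).2.2.1) T h3
  · intro O
    rw [qb_bind_eval, h4 O]
    have h5 : b.size (f O) ≤ B₁ := by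
      rw [← h4 O]
      exact qb_Lv_eval (fun e => b.size e ≤ B₁) O T h3
    exact (hS (f O) h5).2.2.2 O

theorem qb_trunc (c : Ty) (N : ℕ) (v : c.El) : c.size (trunc c N v) ≤ N + c.size c.default := by
  unfold trunc
  split_ifs with h
  · exact h.trans (Nat.le_add_right _ _)
  · exact Nat.le_add_left _ _

/-- programs have polynomial query trees -/
theorem qb_main {κ a b : Ty} (C : Code κ a b) : ∃ r : Polynomial ℕ, ∀ v : a.El,
    qb_G (κ := κ) (r.eval (a.size v)) (r.eval (a.size v)) (r.eval (a.size v))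
      (fun O => C.eval O v) := by
  induction C with
  | id a =>
    refine ⟨Polynomial.X, fun v => ?_⟩
    rw [Polynomial.eval_X]
    exact qb_G_mono (qb_G_pure 0 v le_rfl) (Nat.zero_le _) (Nat.zero_le _) le_rfl
  | @comp a b c g f ihg ihf =>
    obtain ⟨rg, hg⟩ := ihg
    obtain ⟨rf, hf⟩ := ihf
    refine ⟨rf + rg.comp rf, fun v => ?_⟩
    rw [Polynomial.eval_add, Polynomial.eval_comp]
    exact qb_G_bind (g := fun e O => g.eval O e)
      (qb_G_mono (hf v) le_rfl (Nat.le_add_right _ _) le_rfl)
      (fun e he => qb_G_mono (hg e) (eval_mono rg he)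
        ((eval_mono rg he).trans (Nat.le_add_left _ _))
        ((eval_mono rg he).trans (Nat.le_add_left _ _)))
  | @pair a b c f g ihf ihg =>
    obtain ⟨rg, hg⟩ := ihg
    obtain ⟨rf, hf⟩ := ihf
    refine ⟨rf + rg, fun v => ?_⟩
    rw [Polynomial.eval_add]
    refine qb_G_bind (κ := κ) (b := b) (c := .prod b c) (g := fun e O => (e, g.eval O v))
      (qb_G_mono (hf v) le_rfl (Nat.le_add_right _ _) le_rfl) (fun e he => ?_)
    have h1 := qb_G_bind (κ := κ) (b := c) (c := .prod b c) (d₂ := 0)
      (B₂ := rf.eval (a.size v) + rg.eval (a.size v)) (g := fun e' _ => (e, e'))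
      (qb_G_mono (hg v) le_rfl (Nat.le_add_left _ (rf.eval (a.size v))) le_rfl)
      (fun e' he' => qb_G_pure (b := .prod b c) _ (e, e') (Nat.add_le_add he he'))
    exact h1
  | fst a b =>
    refine ⟨Polynomial.X, fun v => ?_⟩
    rw [Polynomial.eval_X]
    refine qb_G_mono (qb_G_pure 0 v.1 le_rfl) (Nat.zero_le _) (Nat.zero_le _) ?_
    rw [size_prod]
    exact Nat.le_add_right _ _
  | snd a b =>
    refine ⟨Polynomial.X, fun v => ?_⟩
    rw [Polynomial.eval_X]
    refine qb_G_mono (qb_G_pure 0 v.2 le_rfl) (Nat.zero_le _) (Nat.zero_le _) ?_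
    rw [size_prod]
    exact Nat.le_add_left _ _
  | tt a =>
    refine ⟨1, fun v => ?_⟩
    rw [Polynomial.eval_one]
    exact qb_G_mono (qb_G_pure (b := .bool) 0 true le_rfl) (Nat.zero_le _) (Nat.zero_le _) le_rfl
  | ff a =>
    refine ⟨1, fun v => ?_⟩
    rw [Polynomial.eval_one]
    exact qb_G_mono (qb_G_pure (b := .bool) 0 false le_rfl) (Nat.zero_le _) (Nat.zero_le _) le_rfl
  | nil a b =>
    refine ⟨1, fun v => ?_⟩
    rw [Polynomial.eval_one]
    exact qb_G_mono (qb_G_pure (b := .list b) 0 [] le_rfl) (Nat.zero_le _) (Nat.zero_le _)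
      (Nat.zero_le _)
  | cons a =>
    refine ⟨Polynomial.X + 1, fun v => ?_⟩
    rw [Polynomial.eval_add, Polynomial.eval_X, Polynomial.eval_one]
    refine qb_G_mono (qb_G_pure (b := .list a) 0 (v.1 :: v.2) le_rfl) (Nat.zero_le _)
      (Nat.zero_le _) ?_
    rw [size_cons, size_prod]
    omega
  | cond a =>
    refine ⟨Polynomial.X, fun v => ?_⟩
    rw [Polynomial.eval_X]
    refine qb_G_mono (qb_G_pure 0 (bif v.1 then v.2.1 else v.2.2) le_rfl) (Nat.zero_le _)
      (Nat.zero_le _) ?_
    rw [size_prod, size_prod]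
    cases v.1
    · rw [cond_false]; omega
    · rw [cond_true]; omega
  | query =>
    refine ⟨Polynomial.X + 1, fun v => ?_⟩
    rw [Polynomial.eval_add, Polynomial.eval_X, Polynomial.eval_one]
    refine ⟨.node v (.leaf false) (.leaf true), ?_, ?_, ?_, ?_⟩
    · show max 0 0 + 1 ≤ _
      omega
    · exact ⟨Nat.le_succ _, trivial, trivial⟩
    · exact ⟨Nat.le_add_left _ _, Nat.le_add_left _ _⟩
    · intro O
      show (bif O v then true else false) = O v
      cases O v <;> rfl
  | @listRec a b c p g h ihg ihh =>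
    obtain ⟨rg, hg⟩ := ihg
    obtain ⟨rh, hh⟩ := ihh
    obtain ⟨Bp, hBp⟩ : ∃ Bp : Polynomial ℕ, Bp = p + Polynomial.C (c.size c.default) := ⟨_, rfl⟩
    refine ⟨rg + Polynomial.X * rh.comp (Polynomial.X + Bp) + rh.comp (Polynomial.X + Bp) + Bp,
      fun v => ?_⟩
    obtain ⟨l0, s⟩ := v
    obtain ⟨n, hn⟩ : ∃ n : ℕ, n = Ty.size (.prod (.list b) a) (l0, s) := ⟨_, rfl⟩
    rw [← hn, Polynomial.eval_add, Polynomial.eval_add, Polynomial.eval_add, Polynomial.eval_mul,
      Polynomial.eval_X, Polynomial.eval_comp, Polynomial.eval_add, Polynomial.eval_X]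
    obtain ⟨B, hB⟩ : ∃ B : ℕ, B = Bp.eval n := ⟨_, rfl⟩
    obtain ⟨R, hR⟩ : ∃ R : ℕ, R = rh.eval (n + B) := ⟨_, rfl⟩
    have hB' : B = p.eval n + c.size c.default := by
      rw [hB, hBp, Polynomial.eval_add, Polynomial.eval_C]
    rw [← hB, ← hR]
    have hn' : n = Ty.size (.list b) l0 + a.size s := by rw [hn, size_prod]
    have key : ∀ l : List b.El, Ty.size (.list b) l ≤ Ty.size (.list b) l0 →
        qb_G (κ := κ) (b := c) (rg.eval n + l.length * R) (rg.eval n + R) B (fun O =>
          recT (fun l => p.eval (Ty.size (.prod (.list b) a) (l, s))) (g.eval O s)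
            (fun e l r => h.eval O (e, l, s, r)) l) := by
      intro l
      induction l with
      | nil =>
        intro _
        have hs : a.size s ≤ n := by omega
        have hbd : p.eval (Ty.size (.prod (.list b) a) (([] : List b.El), s)) ≤ p.eval n := by
          apply eval_mono
          rw [size_prod, size_nil]
          dsimp only
          omega
        have h1 := qb_G_bind (κ := κ) (b := c) (c := c) (d₂ := 0) (N := rg.eval n + R) (B₂ := B)
          (g := fun e _ => trunc c (p.eval (Ty.size (.prod (.list b) a) (([] : List b.El), s))) e)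
          (qb_G_mono (hg s) (eval_mono rg hs) ((eval_mono rg hs).trans (Nat.le_add_right _ _))
            le_rfl)
          (fun e _ => qb_G_pure _ _ ((qb_trunc c _ e).trans (by omega)))
        exact qb_G_mono h1 (by simp) le_rfl le_rfl
      | cons e l ih =>
        intro hl
        rw [size_cons] at hl
        have h1 := ih (by omega)
        have hbd : p.eval (Ty.size (.prod (.list b) a) (e :: l, s)) ≤ p.eval n := by
          apply eval_mono
          rw [size_prod, size_cons]
          dsimp only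
          omega
        have h2 := qb_G_bind (κ := κ) (b := c) (c := c) (d₂ := R) (N := rg.eval n + R) (B₂ := B)
          (g := fun r O => trunc c (p.eval (Ty.size (.prod (.list b) a) (e :: l, s)))
            (h.eval O (e, l, s, r))) h1 (fun r hr => ?_)
        · refine qb_G_mono h2 ?_ le_rfl le_rfl
          rw [List.length_cons, Nat.add_mul, Nat.one_mul]
          omega
        · have h3 := hh (e, l, s, r)
          have h4 : Ty.size (.prod b (.prod (.list b) (.prod a c))) (e, l, s, r) ≤ n + B := by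
            rw [size_prod, size_prod, size_prod]
            simp only
            omega
          have h5 := qb_G_bind (κ := κ) (b := c) (c := c) (d₂ := 0) (N := rg.eval n + R)
            (B₂ := B)
            (g := fun x _ => trunc c (p.eval (Ty.size (.prod (.list b) a) (e :: l, s))) x)
            (qb_G_mono h3 (eval_mono rh h4)
              (by
                have := eval_mono rh h4
                rw [← hR] at this
                omega) le_rfl)
            (fun x _ => qb_G_pure _ _ ((qb_trunc c _ x).trans (by omega)))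
          refine qb_G_mono h5 ?_ le_rfl le_rfl
          rw [← hR]
          omega
    have h6 := key l0 le_rfl
    refine qb_G_mono h6 ?_ ?_ ?_
    · have h7 : l0.length * R ≤ n * R := by
        apply Nat.mul_le_mul_right
        have := length_le_size (a := b) l0
        omega
      omega
    · have : 0 ≤ n * R := Nat.zero_le _
      omega
    · omega

theorem qb : S_qb := by
  intro κ a b C
  obtain ⟨r, hr⟩ := qb_main C
  refine ⟨r, fun v => ?_⟩
  obtain ⟨T, h1, h2, h3, h4⟩ := hr v
  refine ⟨fun O => ?_, T, h1, h2, h4⟩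
  have h5 : T.eval O = C.eval O v := h4 O
  rw [← h5]
  exact qb_Lv_eval (fun e => b.size e ≤ r.eval (a.size v)) O T h3

end Pool.Agent.Lib.MP_2b5695_lc.RO
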