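import Pool.Agent.Lib.MP_2b5695_lc.RO.P.Nx

/-!
Project RO, piece [res].
-/

namespace Pool.Agent.Lib.MP_2b5695_lc.RO

open Finset

theorem bn_nonneg {X : Type} [Fintype X] {t : ℝ} (h0 : 0 ≤ t) (h1 : t ≤ 1) (v : X → Bool) :
    0 ≤ bn t v := by
  refine Finset.prod_nonneg fun x _ => ?_
  split_ifs
  · exact h0
  · linarith

theorem bn_sum (X : Type) [Fintype X] [DecidableEq X] (t : ℝ) : ∑ v : X → Bool, bn t v = 1 := by
  unfold bn
  rw [← Fintype.piFinset_univ, ← Finset.prod_univ_sum (fun _ : X => (Finset.univ : Finset Bool))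
    (fun _ b => if b then t else 1 - t)]
  simp

/-- an assignment of positive weight is `false` at the children that are not free -/
theorem mw_zero {W : Type} [Fintype W] {t : ℝ} {c : W → St} {u : W → Bool} {w : W}
    (hw : c w ≠ .live) (hu : u w = true) : mw t c u = 0 := by
  unfold mw
  refine Finset.prod_eq_zero (Finset.mem_univ w) ?_
  rw [if_neg hw, if_pos hu]

section

variable {A0 X W : Type} [Fintype A0] [Fintype X] [DecidableEq X] [Fintype W] [DecidableEq W]

open Classical in
/-- the sum with the indicator of the free gates -/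
theorem next_sum' (hZ : S_tz) {t t' : ℝ} {Lm : ℕ}
    (c : X × W → St) (out : (X × W → Bool) → Finset X) (g : (X × W → Bool) → ℝ) :
    ∑ ξ : X → Bs W, (∏ x, bw t t' Lm (fun w => c (x, w)) (ξ x)) *
      ∑ v : X → Bool, bn t' v * (g (fun y => ph (ξ y.1) (v y.1) y.2) *
        if ∀ x ∈ out (fun y => ph (ξ y.1) (v y.1) y.2), nst (fun w => c (x, w)) (ξ x) = .live
        then 1 else 0) =
    ∑ u : X → W → Bool, (∏ x, ∑ q : Bs W × Bool, if ph q.1 q.2 = u x then
      bw t t' Lm (fun w => c (x, w)) q.1 * (if q.2 then t' else 1 - t') *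
        (if x ∈ out (fun y => u y.1 y.2) then
          (if nst (fun w => c (x, w)) q.1 = .live then 1 else 0) else 1) else 0) *
      g (fun y => u y.1 y.2) := by
  have h1 := hZ X (Bs W × Bool) (W → Bool) (fun _ q => ph q.1 q.2)
    (fun x q u => bw t t' Lm (fun w => c (x, w)) q.1 * (if q.2 then t' else 1 - t') *
      (if x ∈ out (fun y => u y.1 y.2) then
        (if nst (fun w => c (x, w)) q.1 = .live then 1 else 0) else 1))
    (fun u => g fun y => u y.1 y.2)
  rw [← h1, ← (Equiv.arrowProdEquivProdArrow X (fun _ => Bs W) (fun _ => Bool)).symm.sum_comp,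
    Fintype.sum_prod_type]
  refine Finset.sum_congr rfl fun ξ _ => ?_
  rw [Finset.mul_sum]
  refine Finset.sum_congr rfl fun v _ => ?_
  have h3 : (if ∀ x ∈ out (fun y => ph (ξ y.1) (v y.1) y.2),
      nst (fun w => c (x, w)) (ξ x) = .live then (1 : ℝ) else 0) =
      ∏ x, (if x ∈ out (fun y => ph (ξ y.1) (v y.1) y.2) then
        (if nst (fun w => c (x, w)) (ξ x) = .live then (1 : ℝ) else 0) else 1) := by
    split_ifs with h
    · symm
      refine Finset.prod_eq_one fun x _ => ?_
      split_ifs with h1 h2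
      · rfl
      · exact absurd (h x h1) h2
      · rfl
    · push Not at h
      obtain ⟨x, hx1, hx2⟩ := h
      symm
      refine Finset.prod_eq_zero (Finset.mem_univ x) ?_
      rw [if_pos hx1, if_neg hx2]
  rw [h3]
  simp only [bn, Equiv.arrowProdEquivProdArrow, Equiv.coe_fn_symm_mk, Finset.prod_mul_distrib]
  have e : ∀ a b c d : ℝ, a * (b * (c * d)) = a * b * d * c := fun a b c d => by ring
  rw [e]
  rfl

end

open Classical in
/-- [res] -/
theorem res : S_res := by
  intro hZ hI A0 X W _ _ _ _ _ _ t t' Lm Γ ν V hP hO k out f hf0 hf1 hout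
  have hbn : ∀ v : X × W → Bool, 0 ≤ bn t v := fun v => bn_nonneg hP.pos.le (by linarith [hP.le]) v
  have hbn' : ∀ v : X → Bool, 0 ≤ bn t' v :=
    fun v => bn_nonneg hP.pos'.le (by linarith [hP.le']) v
  have hbw : ∀ (o : Γ.Om) (x : X) ξ, 0 ≤ bw t t' Lm (fun w => Γ.st o (x, w)) ξ :=
    fun o x ξ => (hI W t t' Lm (fun w => Γ.st o (x, w)) hP).1 ξ
  have hmw : ∀ (o : Γ.Om) (x : X) u, 0 ≤ mw t (fun w => Γ.st o (x, w)) u :=
    fun o x u => (hI W t t' Lm (fun w => Γ.st o (x, w)) hP).2.2.2.2.1 u
  have pt : ∀ o : Γ.Om, Γ.wt o * ∑ v, bn t v * f (Γ.B o v) ≤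
      (if ∃ x, nL (fun w => Γ.st o (x, w)) < Lm then Γ.wt o else 0) +
      2 ^ k * (Γ.wt o * ∑ ξ : X → Bs W, (∏ x, bw t t' Lm (fun w => Γ.st o (x, w)) (ξ x)) *
        ∑ v : X → Bool, bn t' v * (f (Γ.B o fun y => ph (ξ y.1) (v y.1) y.2) *
          if ∀ x ∈ out (Γ.B o fun y => ph (ξ y.1) (v y.1) y.2),
            nst (fun w => Γ.st o (x, w)) (ξ x) = .live then 1 else 0)) := by
    intro o
    have hw := hO.nonneg o
    by_cases hbad : ∃ x, nL (fun w => Γ.st o (x, w)) < Lm
    · rw [if_pos hbad]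
      have h1 : ∑ v, bn t v * f (Γ.B o v) ≤ 1 := by
        rw [← bn_sum (X × W) t]
        exact Finset.sum_le_sum fun v _ => mul_le_of_le_one_right (hbn v) (hf1 _)
      have h2 : 0 ≤ ∑ ξ : X → Bs W, (∏ x, bw t t' Lm (fun w => Γ.st o (x, w)) (ξ x)) *
        ∑ v : X → Bool, bn t' v * (f (Γ.B o fun y => ph (ξ y.1) (v y.1) y.2) *
          if ∀ x ∈ out (Γ.B o fun y => ph (ξ y.1) (v y.1) y.2),
            nst (fun w => Γ.st o (x, w)) (ξ x) = .live then 1 else 0) := by
        refine Finset.sum_nonneg fun ξ _ => mul_nonneg (Finset.prod_nonneg fun x _ => hbw o x _) ?_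
        refine Finset.sum_nonneg fun v _ => mul_nonneg (hbn' v) (mul_nonneg (hf0 _) ?_)
        split_ifs <;> norm_num
      have h3 : Γ.wt o * ∑ v, bn t v * f (Γ.B o v) ≤ Γ.wt o := mul_le_of_le_one_right hw h1
      have h4 : (0 : ℝ) ≤ 2 ^ k * (Γ.wt o * ∑ ξ : X → Bs W,
        (∏ x, bw t t' Lm (fun w => Γ.st o (x, w)) (ξ x)) *
        ∑ v : X → Bool, bn t' v * (f (Γ.B o fun y => ph (ξ y.1) (v y.1) y.2) *
          if ∀ x ∈ out (Γ.B o fun y => ph (ξ y.1) (v y.1) y.2),
            nst (fun w => Γ.st o (x, w)) (ξ x) = .live then 1 else 0)) := by positivity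
      linarith
    · rw [if_neg hbad, zero_add]
      push Not at hbad
      by_cases hw0 : Γ.wt o = 0
      · rw [hw0]; simp
      rw [mul_left_comm]
      refine mul_le_mul_of_nonneg_left ?_ hw
      rw [cur_sum hZ hI hP (fun y => Γ.st o y) (fun a => f (Γ.B o a)) (by
          intro v v' hv
          simp only [hO.insens o v v' hv]),
        next_sum' hZ (fun y => Γ.st o y) (fun a => out (Γ.B o a)) (fun a => f (Γ.B o a)),
        Finset.mul_sum]
      refine Finset.sum_le_sum fun u _ => ?_
      rw [← mul_assoc]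
      by_cases hfu : f (Γ.B o fun y => u y.1 y.2) = 0
      · rw [hfu]; simp
      refine mul_le_mul_of_nonneg_right ?_ (hf0 _)
      obtain ⟨hk, hup⟩ := hout _ hfu
      set Oc := out (Γ.B o fun y => u y.1 y.2) with hOc
      have hfac0 : ∀ x, 0 ≤ ∑ q : Bs W × Bool, if ph q.1 q.2 = u x then
          bw t t' Lm (fun w => Γ.st o (x, w)) q.1 * (if q.2 then t' else 1 - t') *
          (if x ∈ Oc then (if nst (fun w => Γ.st o (x, w)) q.1 = .live then 1 else 0) else 1)
          else 0 := by
        intro x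
        refine Finset.sum_nonneg fun q _ => ?_
        split_ifs
        all_goals first
          | exact le_refl _
          | exact mul_nonneg (mul_nonneg (hbw o x _) (by linarith [hP.pos', hP.le'])) (by norm_num)
      by_cases hz : ∏ x, mw t (fun w => Γ.st o (x, w)) (u x) = 0
      · rw [hz]
        exact mul_nonneg (by positivity) (Finset.prod_nonneg fun x _ => hfac0 x)
      have hfac : ∀ x, ∑ q : Bs W × Bool, (if ph q.1 q.2 = u x then
          bw t t' Lm (fun w => Γ.st o (x, w)) q.1 * (if q.2 then t' else 1 - t') *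
          (if x ∈ Oc then (if nst (fun w => Γ.st o (x, w)) q.1 = .live then 1 else 0) else 1)
          else 0) = mw t (fun w => Γ.st o (x, w)) (u x) * (if x ∈ Oc then 1 / 2 else 1) := by
        intro x
        obtain ⟨-, -, -, -, -, -, b7, -, b9⟩ := hI W t t' Lm (fun w => Γ.st o (x, w)) hP
        by_cases hx : x ∈ Oc
        · have hx1 := hup x hx
          rw [up, decide_eq_true_iff] at hx1
          have hval : ∀ w, (Γ.st o (x, w)).val (u x w) = false := by
            intro w
            rw [← hO.value o hw0 (fun y => u y.1 y.2) (x, w)]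
            exact hx1 w
          have hc : ∀ w, Γ.st o (x, w) ≠ .tru := by
            intro w h
            have := hval w
            rw [h] at this
            simp [St.val] at this
          have hu : u x = zr := by
            funext w
            by_contra hne
            have hne' : u x w = true := by simpa [zr] using hne
            have hl : Γ.st o (x, w) ≠ .live := by
              intro h
              have := hval w
              rw [h, hne'] at this
              simp [St.val] at this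
            exact hz (Finset.prod_eq_zero (Finset.mem_univ x) (mw_zero hl hne'))
          simp only [if_pos hx]
          rw [hu, b9 hc (hbad x)]
          ring
        · simp only [if_neg hx, mul_one]
          exact b7 (u x)
      rw [Finset.prod_congr rfl fun x _ => hfac x, Finset.prod_mul_distrib]
      have hp : ∏ x, (if x ∈ Oc then (1 / 2 : ℝ) else 1) = (1 / 2) ^ Oc.card := by
        rw [Finset.prod_ite_mem, Finset.univ_inter, Finset.prod_const]
      rw [hp]
      have h5 : (1 : ℝ) ≤ 2 ^ k * (1 / 2) ^ Oc.card := by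
        have : ((1 : ℝ) / 2) ^ k ≤ (1 / 2) ^ Oc.card :=
          pow_le_pow_of_le_one (by norm_num) (by norm_num) hk
        calc (1 : ℝ) = 2 ^ k * (1 / 2) ^ k := by rw [← mul_pow]; norm_num
          _ ≤ _ := mul_le_mul_of_nonneg_left this (by positivity)
      have h6 : 0 ≤ ∏ x, mw t (fun w => Γ.st o (x, w)) (u x) := Finset.prod_nonneg fun x _ => hmw o x _
      nlinarith
  have e1 := hO.unif f
  rw [← e1]
  have e2 : ∑ o, (Γ.next t t' Lm).wt o * ∑ v, bn t' v * (f ((Γ.next t t' Lm).B o v) *
        if ∀ x ∈ out ((Γ.next t t' Lm).B o v), (Γ.next t t' Lm).st o x = .live then 1 else 0) =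
      ∑ o : Γ.Om, Γ.wt o * ∑ ξ : X → Bs W, (∏ x, bw t t' Lm (fun w => Γ.st o (x, w)) (ξ x)) *
        ∑ v : X → Bool, bn t' v * (f (Γ.B o fun y => ph (ξ y.1) (v y.1) y.2) *
          if ∀ x ∈ out (Γ.B o fun y => ph (ξ y.1) (v y.1) y.2),
            nst (fun w => Γ.st o (x, w)) (ξ x) = .live then 1 else 0) := by
    have e : ∑ o, (Γ.next t t' Lm).wt o * ∑ v, bn t' v * (f ((Γ.next t t' Lm).B o v) *
        if ∀ x ∈ out ((Γ.next t t' Lm).B o v), (Γ.next t t' Lm).st o x = .live then 1 else 0) =
        ∑ o : Γ.Om × (X → Bs W), (Γ.wt o.1 * ∏ x, bw t t' Lm (fun w => Γ.st o.1 (x, w)) (o.2 x)) *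
          ∑ v : X → Bool, bn t' v * (f (Γ.B o.1 fun y => ph (o.2 y.1) (v y.1) y.2) *
          if ∀ x ∈ out (Γ.B o.1 fun y => ph (o.2 y.1) (v y.1) y.2),
            nst (fun w => Γ.st o.1 (x, w)) (o.2 x) = .live then 1 else 0) := rfl
    rw [e, Fintype.sum_prod_type]
    refine Finset.sum_congr rfl fun o _ => ?_
    simp only [mul_assoc]
    rw [← Finset.mul_sum]
  rw [e2, Finset.mul_sum, ← Finset.sum_add_distrib]
  exact Finset.sum_le_sum fun o _ => pt o

end Pool.Agent.Lib.MP_2b5695_lc.RO
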