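import Pool.Agent.Lib.MP_2b5695_lc.RO.Stmts

set_option linter.unusedSectionVars false

/-!
Project RO, piece [sw]: the weighted switching lemma.
-/

namespace Pool.Agent.Lib.MP_2b5695_lc.RO.Sw

open Finset

section

variable {V W : Type} [DecidableEq V] [DecidableEq W]

/-- the value of a child (`none`: free) -/
def pv : Bs W → W → Option Bool
  | (true, S), u => if S u then none else some false
  | (false, x), u => some (x u)

/-- the block after the question about the gate -/
def sg (π : Bool) (S : W → Bool) : Bs W := (false, if π then zr else S)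

/-- the negated variables of a term in a block -/
def ng (T : Term (V × W)) (g : V) : Finset W :=
  ((T.l.filter fun y => decide (y.1 = g) && !(T.a y)).map Prod.snd).toFinset

/-- the changed set -/
def sm (T : Term (V × W)) (g : V) (S : W → Bool) (u : W) : Bool := S u && !decide (u ∈ ng T g)

theorem mem_ng {T : Term (V × W)} {g : V} {u : W} :
    u ∈ ng T g ↔ (g, u) ∈ T.l ∧ T.a (g, u) = false := by
  unfold ng
  rw [List.mem_toFinset, List.mem_map]
  constructor
  · rintro ⟨y, hy, rfl⟩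
    rw [List.mem_filter] at hy
    obtain ⟨h1, h2⟩ := hy
    simp only [Bool.and_eq_true, decide_eq_true_eq, Bool.not_eq_eq_eq_not, Bool.not_true] at h2
    obtain ⟨rfl, h2⟩ := h2
    exact ⟨h1, h2⟩
  · rintro ⟨h1, h2⟩
    refine ⟨(g, u), ?_, rfl⟩
    rw [List.mem_filter]
    exact ⟨h1, by simp [h2]⟩

theorem card_ng (T : Term (V × W)) (g : V) : (ng T g).card ≤ T.l.length := by
  unfold ng
  refine (List.toFinset_card_le _).trans ?_
  rw [List.length_map]
  exact List.length_filter_le _ _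

/-- the term is not falsified by the restriction -/
def NonFals (ρ : V → Bs W) (T : Term (V × W)) : Prop :=
  ∀ x ∈ T.l, pv (ρ x.1) x.2 ≠ some (!(T.a x))

/-- the term contains no free variable -/
def NoLive (ρ : V → Bs W) (T : Term (V × W)) : Prop :=
  ∀ x ∈ T.l, pv (ρ x.1) x.2 ≠ none

theorem pv_none {ξ : Bs W} {u : W} : pv ξ u = none ↔ ξ.1 = true ∧ ξ.2 u = true := by
  obtain ⟨b, S⟩ := ξ
  cases b
  · simp [pv]
  · cases h : S u <;> simp [pv, h]

open Classical in
/-- the first term that is not falsified -/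
noncomputable def first (Ts : List (Term (V × W))) (ρ : V → Bs W) : Option (Term (V × W)) :=
  Ts.find? fun T => decide (NonFals ρ T)

theorem first_none {Ts : List (Term (V × W))} {ρ : V → Bs W} (h : first Ts ρ = none) :
    ∀ T ∈ Ts, ¬ NonFals ρ T := by
  intro T hT
  have := List.find?_eq_none.1 h T hT
  simpa using this

theorem first_some {Ts : List (Term (V × W))} {ρ : V → Bs W} {T : Term (V × W)}
    (h : first Ts ρ = some T) : T ∈ Ts ∧ NonFals ρ T :=
  ⟨List.mem_of_find?_eq_some h, by simpa using List.find?_some h⟩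

theorem first_ext {Ts : List (Term (V × W))} {ρ ρ' : V → Bs W} {T : Term (V × W)}
    (h : first Ts ρ = some T) (hT : NonFals ρ' T)
    (hρ : ∀ T', ¬ NonFals ρ T' → ¬ NonFals ρ' T') : first Ts ρ' = some T := by
  unfold first at h ⊢
  rw [List.find?_eq_some_iff_append] at h ⊢
  obtain ⟨h1, as, bs, h2, h3⟩ := h
  refine ⟨by simpa using hT, as, bs, h2, fun a ha => ?_⟩
  have h4 := h3 a ha
  simp only [Bool.not_eq_eq_eq_not, Bool.not_true, decide_eq_false_iff_not] at h4 ⊢
  exact hρ a h4

variable (Ts : List (Term (V × W)))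

/-- there is a canonical path of length `k` -/
def Bad : ℕ → Term (V × W) → (V → Bs W) → Prop
  | 0, _, _ => True
  | k + 1, T, ρ => ∃ (T' : Term (V × W)) (x : V × W) (π : Bool) (S : W → Bool),
      ((first Ts ρ = some T' ∧ NoLive ρ T) ∨ T' = T) ∧ x ∈ T'.l ∧ ρ x.1 = (true, S) ∧
      S x.2 = true ∧ Bad k T' (Function.update ρ x.1 (sg π S))

/-- the encoding relation -/
def Enc {s : ℕ} : List (Bool × Fin s × Bool) → Term (V × W) → (V → Bs W) → (V → Bs W) → Prop
  | [], _, ρ, ρ' => ρ' = ρ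
  | (nw, i, π) :: c, T, ρ, ρ' => ∃ (T' : Term (V × W)) (x : V × W) (S : W → Bool)
      (ρ'' : V → Bs W),
      ((nw = true ∧ first Ts ρ = some T' ∧ NoLive ρ T) ∨ (nw = false ∧ T' = T)) ∧
      T'.l[i.val]? = some x ∧ ρ x.1 = (true, S) ∧ S x.2 = true ∧
      Enc c T' (Function.update ρ x.1 (sg π S)) ρ'' ∧
      ρ' = Function.update ρ'' x.1 (false, sm T' x.1 S)

variable {Ts}

theorem Enc.ext {s : ℕ} : ∀ {c : List (Bool × Fin s × Bool)} {T : Term (V × W)}
    {ρ ρ' : V → Bs W}, Enc Ts c T ρ ρ' →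
    ∀ v, ρ' v = ρ v ∨ ∃ S x', ρ v = (true, S) ∧ ρ' v = (false, x') ∧
      ∀ u, S u = false → x' u = false
  | [], T, ρ, ρ', h, v => Or.inl (congrFun h v)
  | (nw, i, π) :: c, T, ρ, ρ', h, v => by
    obtain ⟨T', x, S, ρ'', -, -, hx, -, hE, rfl⟩ := h
    by_cases hv : v = x.1
    · subst hv
      refine Or.inr ⟨S, sm T' x.1 S, hx, by rw [Function.update_self], fun u hu => ?_⟩
      simp [sm, hu]
    · rw [Function.update_of_ne hv]
      have := Enc.ext hE v
      rw [Function.update_of_ne hv] at this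
      exact this

theorem Enc.pv_some {s : ℕ} {c : List (Bool × Fin s × Bool)} {T : Term (V × W)}
    {ρ ρ' : V → Bs W} (h : Enc Ts c T ρ ρ') {v : V} {u : W}
    {b : Bool} (hb : pv (ρ v) u = some b) : pv (ρ' v) u = some b := by
  rcases h.ext v with h1 | ⟨S, x', h1, h2, h3⟩
  · rw [h1, hb]
  · rw [h1] at hb
    rw [h2]
    unfold pv at hb ⊢
    cases hu : S u with
    | true => simp [hu] at hb
    | false =>
      simp only [hu, Bool.false_eq_true, if_false, Option.some.injEq] at hb
      rw [← hb]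
      exact congrArg some (h3 u hu)

theorem Enc.fals {s : ℕ} {c : List (Bool × Fin s × Bool)} {T : Term (V × W)}
    {ρ ρ' : V → Bs W} (h : Enc Ts c T ρ ρ') (T' : Term (V × W))
    (hT : ¬ NonFals ρ T') : ¬ NonFals ρ' T' := by
  unfold NonFals at hT ⊢
  push Not at hT ⊢
  obtain ⟨x, hx, h1⟩ := hT
  exact ⟨x, hx, h.pv_some h1⟩

theorem pv_update_other {ρ : V → Bs W} {g : V} {ξ : Bs W} {x : V × W} (h : x.1 ≠ g) :
    pv (Function.update ρ g ξ x.1) x.2 = pv (ρ x.1) x.2 := by
  rw [Function.update_of_ne h]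

theorem Enc.live {s : ℕ} : ∀ {c : List (Bool × Fin s × Bool)} {T : Term (V × W)}
    {ρ ρ' : V → Bs W}, Enc Ts c T ρ ρ' →
    ∀ x ∈ T.l, pv (ρ x.1) x.2 = none → pv (ρ' x.1) x.2 = none ∨
      pv (ρ' x.1) x.2 = some (T.a x)
  | [], T, ρ, ρ', h, x, _, hx => by
    have h' : ρ' = ρ := h
    subst h'
    exact Or.inl hx
  | (nw, i, π) :: c, T, ρ, ρ', h, x, hxT, hx => by
    obtain ⟨T', y, S, ρ'', h1, -, hy, -, hE, rfl⟩ := h
    rcases h1 with ⟨-, -, h1⟩ | ⟨-, rfl⟩
    · exact absurd hx (h1 x hxT)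
    · by_cases hv : x.1 = y.1
      · right
        rw [hv, Function.update_self]
        rw [hv, hy] at hx
        have hS : S x.2 = true := (pv_none.1 hx).2
        have hx' : (y.1, x.2) = x := by rw [← hv]
        unfold pv
        simp only [Option.some.injEq]
        unfold sm
        rw [hS]
        cases ha : T'.a x with
        | true =>
          have : x.2 ∉ ng T' y.1 := by
            rw [mem_ng, hx', ha]
            simp
          simp [this]
        | false =>
          have : x.2 ∈ ng T' y.1 := by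
            rw [mem_ng, hx', ha]
            exact ⟨hxT, rfl⟩
          simp [this]
      · rw [pv_update_other hv]
        refine Enc.live hE x hxT ?_
        rw [pv_update_other hv]
        exact hx

theorem Enc.nonFals {s : ℕ} {c : List (Bool × Fin s × Bool)} {T : Term (V × W)}
    {ρ ρ' : V → Bs W} (h : Enc Ts c T ρ ρ')
    (hT : NonFals ρ T) : NonFals ρ' T := by
  intro x hx
  cases hp : pv (ρ x.1) x.2 with
  | some b => rw [h.pv_some hp, ← hp]; exact hT x hx
  | none =>
    rcases h.live x hx hp with h1 | h1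
    · rw [h1]; simp
    · rw [h1]
      simp

variable (Ts) in
/-- the term and the variable of the first step of the code -/
def Det (nw : Bool) (i : ℕ) (T : Term (V × W)) (ρ' : V → Bs W) (T' : Term (V × W))
    (x : V × W) : Prop :=
  ((nw = true ∧ first Ts ρ' = some T') ∨ (nw = false ∧ T' = T)) ∧ T'.l[i]? = some x

theorem Det.unique {nw : Bool} {i : ℕ} {T : Term (V × W)} {ρ' : V → Bs W}
    {T₁ T₂ : Term (V × W)} {x₁ x₂ : V × W} (h₁ : Det Ts nw i T ρ' T₁ x₁)
    (h₂ : Det Ts nw i T ρ' T₂ x₂) : T₁ = T₂ ∧ x₁ = x₂ := by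
  obtain ⟨a1, a2⟩ := h₁
  obtain ⟨b1, b2⟩ := h₂
  have hT : T₁ = T₂ := by
    rcases a1 with ⟨rfl, a1⟩ | ⟨rfl, rfl⟩
    · rcases b1 with ⟨-, b1⟩ | ⟨h, -⟩
      · rw [a1] at b1
        simpa using b1
      · exact absurd h (by simp)
    · rcases b1 with ⟨h, -⟩ | ⟨-, rfl⟩
      · exact absurd h (by simp)
      · rfl
  subst hT
  rw [a2] at b2
  exact ⟨rfl, by simpa using b2⟩

theorem Enc.det {s : ℕ} {nw : Bool} {i : Fin s} {π : Bool} {c : List (Bool × Fin s × Bool)}
    {T : Term (V × W)} {ρ ρ' : V → Bs W} (h : Enc Ts ((nw, i, π) :: c) T ρ ρ') :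
    ∃ (T' : Term (V × W)) (x : V × W) (S : W → Bool), Det Ts nw i.val T ρ' T' x ∧
      (T' ∈ Ts ∨ T' = T) ∧
      ρ x.1 = (true, S) ∧ S x.2 = true ∧ ρ' x.1 = (false, sm T' x.1 S) ∧
      Enc Ts c T' (Function.update ρ x.1 (sg π S)) (Function.update ρ' x.1 (sg π S)) := by
  have h0 := h
  obtain ⟨T', x, S, ρ'', h1, h2, h3, h4, h5, h6⟩ := h
  have hself : ρ'' x.1 = sg π S := by
    rcases h5.ext x.1 with h7 | ⟨S', x', h7, -, -⟩
    · rw [h7, Function.update_self]
    · rw [Function.update_self] at h7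
      unfold sg at h7
      simp at h7
  have hρ'' : Function.update ρ' x.1 (sg π S) = ρ'' := by
    rw [h6, Function.update_idem, ← hself, Function.update_eq_self]
  refine ⟨T', x, S, ⟨?_, h2⟩, ?_, h3, h4, ?_, ?_⟩
  · rcases h1 with ⟨rfl, h1, h1'⟩ | ⟨rfl, rfl⟩
    · left
      refine ⟨rfl, ?_⟩
      have hE : Enc Ts ((false, i, π) :: c) T' ρ ρ' :=
        ⟨T', x, S, ρ'', Or.inr ⟨rfl, rfl⟩, h2, h3, h4, h5, h6⟩
      exact first_ext h1 (hE.nonFals (first_some h1).2) fun T'' hT'' => hE.fals T'' hT''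
    · exact Or.inr ⟨rfl, rfl⟩
  · rcases h1 with ⟨-, h1, -⟩ | ⟨-, rfl⟩
    · exact Or.inl (first_some h1).1
    · exact Or.inr rfl
  · rw [h6, Function.update_self]
  · rw [hρ'']
    exact h5

theorem exists_enc {s : ℕ} (hs : ∀ T ∈ Ts, T.l.length ≤ s) :
    ∀ (k : ℕ) (T : Term (V × W)) (ρ : V → Bs W), T.l.length ≤ s → Bad Ts k T ρ →
      ∃ (c : List (Bool × Fin s × Bool)) (ρ' : V → Bs W), c.length = k ∧ Enc Ts c T ρ ρ'
  | 0, T, ρ, _, _ => ⟨[], ρ, rfl, rfl⟩
  | k + 1, T, ρ, hT, h => by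
    obtain ⟨T', x, π, S, h1, h2, h3, h3', h4⟩ := h
    have hT' : T'.l.length ≤ s := by
      rcases h1 with ⟨h1, -⟩ | rfl
      · exact hs _ (first_some h1).1
      · exact hT
    obtain ⟨i, hi, hx⟩ := List.getElem_of_mem h2
    obtain ⟨c, ρ'', hc, hE⟩ := exists_enc hs k T' _ hT' h4
    have hx' : T'.l[i]? = some x := by rw [List.getElem?_eq_getElem hi, hx]
    rcases h1 with ⟨h1, h1'⟩ | h1
    · exact ⟨(true, ⟨i, by omega⟩, π) :: c, _, by simp [hc], T', x, S, ρ'',
        Or.inl ⟨rfl, h1, h1'⟩, hx', h3, h3', hE, rfl⟩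
    · exact ⟨(false, ⟨i, by omega⟩, π) :: c, _, by simp [hc], T', x, S, ρ'',
        Or.inr ⟨rfl, h1⟩, hx', h3, h3', hE, rfl⟩

theorem tree_of_not_bad {f : (V × W → Bool) → Prop}
    (hf : ∀ α, f α ↔ ∃ T ∈ Ts, ∀ x ∈ T.l, α x = T.a x) :
    ∀ (k : ℕ) (T : Term (V × W)) (ρ : V → Bs W), ¬ Bad Ts k T ρ →
      ∃ D : Tree V Bool, D.depth < k ∧
        ∀ z : V → Bool, D.eval z = true ↔ f (fun y => ph (ρ y.1) (z y.1) y.2)
  | 0, T, ρ, h => absurd trivial h
  | k + 1, T, ρ, h => by
    have step : ∀ (T' : Term (V × W)) (x : V × W),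
        ((first Ts ρ = some T' ∧ NoLive ρ T) ∨ T' = T) → x ∈ T'.l →
        pv (ρ x.1) x.2 = none → ∃ D : Tree V Bool, D.depth < k + 1 ∧
        ∀ z : V → Bool, D.eval z = true ↔ f (fun y => ph (ρ y.1) (z y.1) y.2) := by
      intro T' x h1 h2 h3
      obtain ⟨h3, h3'⟩ := pv_none.1 h3
      obtain ⟨S, hS⟩ : ∃ S, ρ x.1 = (true, S) := ⟨(ρ x.1).2, Prod.ext h3 rfl⟩
      rw [hS] at h3'
      have h4 : ∀ π, ¬ Bad Ts k T' (Function.update ρ x.1 (sg π S)) :=
        fun π hb => h ⟨T', x, π, S, h1, h2, hS, h3', hb⟩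
      obtain ⟨D1, hD1, hD1'⟩ := tree_of_not_bad hf k T' _ (h4 true)
      obtain ⟨D0, hD0, hD0'⟩ := tree_of_not_bad hf k T' _ (h4 false)
      have hph : ∀ z : V → Bool, (fun y : V × W =>
          ph (Function.update ρ x.1 (sg (z x.1) S) y.1) (z y.1) y.2) =
          fun y => ph (ρ y.1) (z y.1) y.2 := by
        intro z
        funext y
        by_cases hy : y.1 = x.1
        · rw [hy, Function.update_self, hS]
          cases hz : z x.1 <;> simp [sg, ph, zr]
        · rw [Function.update_of_ne hy]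
      refine ⟨.node x.1 D0 D1, ?_, fun z => ?_⟩
      · have : (Tree.node x.1 D0 D1).depth = max D0.depth D1.depth + 1 := rfl
        rw [this]
        have := max_lt hD0 hD1
        omega
      · rw [← hph z]
        have he : (Tree.node x.1 D0 D1).eval z =
          bif z x.1 then D1.eval z else D0.eval z := rfl
        rw [he]
        cases hz : z x.1
        · exact hD0' z
        · exact hD1' z
    by_cases hlive : ∃ x ∈ T.l, pv (ρ x.1) x.2 = none
    · obtain ⟨x, hx, hx'⟩ := hlive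
      exact step T x (Or.inr rfl) hx hx'
    · have hno : NoLive ρ T := fun x hx hp => hlive ⟨x, hx, hp⟩
      have hpv : ∀ (y : V × W) (z : V → Bool) (b : Bool), pv (ρ y.1) y.2 = some b →
          ph (ρ y.1) (z y.1) y.2 = b := by
        intro y z b hb
        obtain ⟨b', S, hS⟩ : ∃ b' S, ρ y.1 = (b', S) := ⟨(ρ y.1).1, (ρ y.1).2, rfl⟩
        rw [hS] at hb ⊢
        cases b'
        · simpa [pv, ph] using hb
        · cases hu : S y.2
          · simpa [pv, ph, hu] using hb
          · simp [pv, hu] at hb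
      cases hfirst : first Ts ρ with
      | none =>
        refine ⟨.leaf false, by simp [Tree.depth], fun z => ?_⟩
        refine iff_of_false (by simp [Tree.eval]) fun hc => ?_
        obtain ⟨T', hT', h1⟩ := (hf _).1 hc
        have h2 := first_none hfirst T' hT'
        unfold NonFals at h2
        push Not at h2
        obtain ⟨x, hx, h3⟩ := h2
        have h4 := h1 x hx
        rw [hpv x z _ h3] at h4
        simp at h4
      | some T' =>
        by_cases hlive' : ∃ x ∈ T'.l, pv (ρ x.1) x.2 = none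
        · obtain ⟨x, hx, hx'⟩ := hlive'
          exact step T' x (Or.inl ⟨hfirst, hno⟩) hx hx'
        · refine ⟨.leaf true, by simp [Tree.depth], fun z => ?_⟩
          refine iff_of_true (by simp [Tree.eval]) ?_
          refine (hf _).2 ⟨T', (first_some hfirst).1, fun x hx => ?_⟩
          cases hp : pv (ρ x.1) x.2 with
          | none => exact absurd ⟨x, hx, hp⟩ hlive'
          | some b =>
            have h1 := (first_some hfirst).2 x hx
            rw [hp] at h1
            rw [hpv x z b hp]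
            cases b <;> cases hb : T'.a x <;> simp_all

end

section

variable {V W : Type} [Fintype V] [DecidableEq V] [Fintype W] [DecidableEq W]

open Classical in
/-- the condition on the weights -/
def HW (s : ℕ) (κ : ℝ) (w : V → Bs W → ℝ) : Prop :=
  ∀ g (N : Finset W) (x : W → Bool), N.card ≤ s →
      ∑ S : W → Bool, (if S ≠ zr ∧ ∀ u, x u = (S u && !decide (u ∈ N)) then w g (true, S) else 0)
        ≤ κ * w g (false, x)

open Classical in
/-- the weights after the block `g` has got the state `ξ` -/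
noncomputable def wup (w : V → Bs W → ℝ) (g : V) (ξ : Bs W) : V → Bs W → ℝ :=
  Function.update w g fun η => if η = ξ then 1 else 0

theorem wup_nonneg {w : V → Bs W → ℝ} (hw : ∀ g ξ, 0 ≤ w g ξ) (g : V) (ξ : Bs W) :
    ∀ v η, 0 ≤ wup w g ξ v η := by
  intro v η
  unfold wup
  by_cases hv : v = g
  · subst hv
    rw [Function.update_self]
    split_ifs <;> norm_num
  · rw [Function.update_of_ne hv]
    exact hw v η

theorem wup_HW {s : ℕ} {κ : ℝ} (hκ : 0 ≤ κ) {w : V → Bs W → ℝ} (h : HW s κ w)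
    (g : V) (x : W → Bool) : HW s κ (wup w g (false, x)) := by
  intro v N y hN
  unfold wup
  by_cases hv : v = g
  · subst hv
    rw [Function.update_self]
    have : ∀ S : W → Bool, ((true, S) : Bs W) ≠ (false, x) := fun S h => by simp at h
    simp only [this, if_false, ite_self, sum_const_zero]
    split_ifs
    · simpa using hκ
    · simp
  · rw [Function.update_of_ne hv]
    exact h v N y hN

theorem prod_wup (w : V → Bs W → ℝ) (g : V) (ξ : Bs W) (ρ : V → Bs W) (h : ρ g = ξ) :
    ∏ v, wup w g ξ v (ρ v) = ∏ v ∈ univ.erase g, w v (ρ v) := by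
  rw [← mul_prod_erase univ _ (mem_univ g)]
  have h1 : wup w g ξ g (ρ g) = 1 := by
    unfold wup
    rw [Function.update_self, if_pos h]
  rw [h1, one_mul]
  refine prod_congr rfl fun v hv => ?_
  unfold wup
  rw [Function.update_of_ne (ne_of_mem_erase hv)]

open Classical in
/-- the weighted count -/
theorem sum_enc {Ts : List (Term (V × W))} {s : ℕ} {κ : ℝ} (hκ : 0 ≤ κ)
    (hs : ∀ T ∈ Ts, T.l.length ≤ s) :
    ∀ (c : List (Bool × Fin s × Bool)) (T : Term (V × W)) (w : V → Bs W → ℝ),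
      T.l.length ≤ s → (∀ g ξ, 0 ≤ w g ξ) → HW s κ w → ∀ ρ' : V → Bs W,
      ∑ ρ : V → Bs W, (if Enc Ts c T ρ ρ' then ∏ g, w g (ρ g) else 0) ≤
        κ ^ c.length * ∏ g, w g (ρ' g)
  | [], T, w, _, _, _, ρ' => by
    have h1 : ∀ ρ : V → Bs W, (if Enc Ts ([] : List (Bool × Fin s × Bool)) T ρ ρ' then
        ∏ g, w g (ρ g) else 0) = if ρ' = ρ then ∏ g, w g (ρ g) else 0 := by
      intro ρ
      by_cases h : ρ' = ρ
      · rw [if_pos h]
        exact if_pos h
      · rw [if_neg h]
        exact if_neg h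
    rw [sum_congr rfl fun ρ _ => h1 ρ, sum_ite_eq, if_pos (mem_univ _)]
    simp
  | (nw, i, π) :: c, T, w, hT, hw, hH, ρ' => by
    have hprod : ∀ ρ : V → Bs W, 0 ≤ ∏ g, w g (ρ g) := fun ρ => prod_nonneg fun g _ => hw g _
    by_cases hex : ∃ ρ₀, Enc Ts ((nw, i, π) :: c) T ρ₀ ρ'
    · obtain ⟨ρ₀, h₀⟩ := hex
      obtain ⟨T', x, S₀, hdet, hmem, -, -, hx', -⟩ := h₀.det
      have hT' : T'.l.length ≤ s := by
        rcases hmem with h | rfl
        · exact hs _ h
        · exact hT
      set g := x.1 with hg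
      set x' := sm T' g S₀ with hx'def
      -- the bound by a sum over `S` and the rest
      let G : (W → Bool) × (V → Bs W) → ℝ := fun p =>
        if p.1 ≠ zr ∧ ∀ u, x' u = (p.1 u && !decide (u ∈ ng T' g)) then
          w g (true, p.1) * (if Enc Ts c T' p.2 (Function.update ρ' g (sg π p.1)) then
            ∏ v, wup w g (sg π p.1) v (p.2 v) else 0) else 0
      have hG : ∀ p, 0 ≤ G p := by
        intro p
        simp only [G]
        split_ifs
        · exact mul_nonneg (hw _ _) (prod_nonneg fun v _ => wup_nonneg hw _ _ _ _)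
        · simp
        · exact le_rfl
      let φ : (V → Bs W) → (W → Bool) × (V → Bs W) := fun ρ =>
        ((ρ g).2, Function.update ρ g (sg π (ρ g).2))
      have hkey : ∀ ρ, Enc Ts ((nw, i, π) :: c) T ρ ρ' → (ρ g).1 = true ∧
          ∏ v, w v (ρ v) ≤ G (φ ρ) := by
        intro ρ hρ
        obtain ⟨T'', y, S, hdet', -, hS, hS1, hy', hE⟩ := hρ.det
        obtain ⟨rfl, rfl⟩ := hdet.unique hdet'
        rw [← hg] at hS hy' hE
        refine ⟨by rw [hS], ?_⟩
        have hxS : x' = sm T' g S := by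
          have := hx'.symm.trans hy'
          simpa using this
        have hφ : φ ρ = (S, Function.update ρ g (sg π S)) := by
          simp only [φ, hS]
        rw [hφ]
        simp only [G]
        have hc1 : S ≠ zr := by
          rintro rfl
          simp [zr] at hS1
        have hc2 : ∀ u, x' u = (S u && !decide (u ∈ ng T' g)) := fun u => by rw [hxS]; rfl
        rw [if_pos ⟨hc1, hc2⟩, if_pos hE, prod_wup _ _ _ _ (Function.update_self _ _ _),
          ← mul_prod_erase univ (fun v => w v (ρ v)) (mem_univ g), hS]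
        refine le_of_eq ?_
        congr 1
        refine prod_congr rfl fun v hv => ?_
        rw [Function.update_of_ne (ne_of_mem_erase hv)]
      have hinj : Set.InjOn φ
          ((univ.filter fun ρ : V → Bs W => Enc Ts ((nw, i, π) :: c) T ρ ρ' :
            Finset (V → Bs W)) : Set (V → Bs W)) := by
        intro ρ₁ h₁ ρ₂ h₂ h
        rw [mem_coe, mem_filter] at h₁ h₂
        simp only [φ, Prod.mk.injEq] at h
        funext v
        by_cases hv : v = g
        · rw [hv]
          exact Prod.ext ((hkey _ h₁.2).1.trans (hkey _ h₂.2).1.symm) h.1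
        · have := congrFun h.2 v
          rwa [Function.update_of_ne hv, Function.update_of_ne hv] at this
      have hsum1 : ∑ ρ : V → Bs W, (if Enc Ts ((nw, i, π) :: c) T ρ ρ' then
          ∏ g, w g (ρ g) else 0) ≤ ∑ p, G p := by
        rw [← sum_filter]
        calc ∑ ρ ∈ univ.filter fun ρ : V → Bs W => Enc Ts ((nw, i, π) :: c) T ρ ρ',
              ∏ g, w g (ρ g)
            ≤ ∑ ρ ∈ univ.filter fun ρ : V → Bs W => Enc Ts ((nw, i, π) :: c) T ρ ρ',
              G (φ ρ) := sum_le_sum fun ρ hρ => (hkey ρ (mem_filter.1 hρ).2).2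
          _ = ∑ p ∈ (univ.filter fun ρ : V → Bs W =>
                Enc Ts ((nw, i, π) :: c) T ρ ρ').image φ, G p := (sum_image hinj).symm
          _ ≤ ∑ p, G p := sum_le_sum_of_subset_of_nonneg (subset_univ _) fun p _ _ => hG p
      refine hsum1.trans ?_
      rw [Fintype.sum_prod_type]
      have hrest : ∀ S : W → Bool, ∏ v, wup w g (sg π S) v
          (Function.update ρ' g (sg π S) v) = ∏ v ∈ univ.erase g, w v (ρ' v) := by
        intro S
        rw [prod_wup _ _ _ _ (Function.update_self _ _ _)]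
        refine prod_congr rfl fun v hv => ?_
        rw [Function.update_of_ne (ne_of_mem_erase hv)]
      have hS : ∀ S : W → Bool, ∑ ρ₁ : V → Bs W, G (S, ρ₁) ≤
          (if S ≠ zr ∧ ∀ u, x' u = (S u && !decide (u ∈ ng T' g)) then w g (true, S) else 0) *
            (κ ^ c.length * ∏ v ∈ univ.erase g, w v (ρ' v)) := by
        intro S
        simp only [G]
        by_cases hc : S ≠ zr ∧ ∀ u, x' u = (S u && !decide (u ∈ ng T' g))
        · simp only [if_pos hc]
          rw [← mul_sum]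
          refine mul_le_mul_of_nonneg_left ?_ (hw _ _)
          rw [← hrest S]
          exact sum_enc hκ hs c T' (wup w g (sg π S)) hT' (wup_nonneg hw _ _)
            (wup_HW hκ hH g _) _
        · simp only [if_neg hc, sum_const_zero, zero_mul, le_refl]
      refine (sum_le_sum fun S _ => hS S).trans ?_
      rw [← sum_mul]
      have h1 := hH g (ng T' g) x' ((card_ng T' g).trans hT')
      have hR : 0 ≤ κ ^ c.length * ∏ v ∈ univ.erase g, w v (ρ' v) :=
        mul_nonneg (pow_nonneg hκ _) (prod_nonneg fun v _ => hw _ _)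
      refine (mul_le_mul_of_nonneg_right h1 hR).trans (le_of_eq ?_)
      rw [← mul_prod_erase univ (fun v => w v (ρ' v)) (mem_univ g), hx', List.length_cons,
        pow_succ]
      ring
    · have h0 : ∀ ρ : V → Bs W, (if Enc Ts ((nw, i, π) :: c) T ρ ρ' then
        ∏ g, w g (ρ g) else 0) = 0 := fun ρ => if_neg fun h => hex ⟨ρ, h⟩
      rw [sum_congr rfl fun ρ _ => h0 ρ, sum_const_zero]
      exact mul_nonneg (pow_nonneg hκ _) (hprod _)

end

end Pool.Agent.Lib.MP_2b5695_lc.RO.Sw

namespace Pool.Agent.Lib.MP_2b5695_lc.RO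

open Finset

open Classical in
theorem sw : S_sw := by
  intro V W _ _ _ _ s κ w hw hw1 hκ hH f hf k
  obtain ⟨Ts, hTs, hf'⟩ := exists_terms hf
  let T₀ : Term (V × W) := ⟨[], fun _ => false⟩
  have hH' : Sw.HW s κ w := hH
  have hprod : ∀ ρ : V → Bs W, 0 ≤ ∏ g, w g (ρ g) := fun ρ => prod_nonneg fun g _ => hw g _
  have h1 : ∀ ρ : V → Bs W, (if DT k (fun z : V → Bool =>
      decide (f fun y => ph (ρ y.1) (z y.1) y.2)) then 0 else ∏ g, w g (ρ g)) ≤
      ∑ c : List.Vector (Bool × Fin s × Bool) k, ∑ ρ' : V → Bs W,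
        if Sw.Enc Ts c.1 T₀ ρ ρ' then ∏ g, w g (ρ g) else 0 := by
    intro ρ
    have hnn : ∀ (c : List.Vector (Bool × Fin s × Bool) k) (ρ' : V → Bs W),
        0 ≤ if Sw.Enc Ts c.1 T₀ ρ ρ' then ∏ g, w g (ρ g) else 0 := by
      intro c ρ'
      split_ifs
      · exact hprod ρ
      · exact le_rfl
    by_cases hb : Sw.Bad Ts k T₀ ρ
    · obtain ⟨c, ρ', hc, hE⟩ := Sw.exists_enc hTs k T₀ ρ (Nat.zero_le _) hb
      let c0 : List.Vector (Bool × Fin s × Bool) k := ⟨c, hc⟩
      have h2 : ∏ g, w g (ρ g) ≤ ∑ c : List.Vector (Bool × Fin s × Bool) k,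
          ∑ ρ' : V → Bs W, if Sw.Enc Ts c.1 T₀ ρ ρ' then ∏ g, w g (ρ g) else 0 := by
        calc ∏ g, w g (ρ g)
            = if Sw.Enc Ts c0.1 T₀ ρ ρ' then
                ∏ g, w g (ρ g) else 0 := (if_pos hE).symm
          _ ≤ ∑ ρ' : V → Bs W, if Sw.Enc Ts
                c0.1 T₀ ρ ρ' then
                ∏ g, w g (ρ g) else 0 :=
              single_le_sum (f := fun ρ' : V → Bs W => if Sw.Enc Ts
                c0.1 T₀ ρ ρ' then
                ∏ g, w g (ρ g) else 0) (fun ρ' _ => hnn _ ρ') (mem_univ ρ')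
          _ ≤ _ :=
              single_le_sum (f := fun c : List.Vector (Bool × Fin s × Bool) k =>
                ∑ ρ' : V → Bs W, if Sw.Enc Ts c.1 T₀ ρ ρ' then ∏ g, w g (ρ g) else 0)
                (fun c _ => sum_nonneg fun ρ' _ => hnn c ρ') (mem_univ c0)
      split_ifs
      · exact (hprod ρ).trans h2
      · exact h2
    · obtain ⟨D, hD, hD'⟩ := Sw.tree_of_not_bad hf' k T₀ ρ hb
      have h2 : DT k (fun z : V → Bool => decide (f fun y => ph (ρ y.1) (z y.1) y.2)) := by
        refine ⟨D, hD.le, fun z => ?_⟩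
        have h3 := hD' z
        change D.eval z = decide (f fun y => ph (ρ y.1) (z y.1) y.2)
        by_cases h4 : f fun y => ph (ρ y.1) (z y.1) y.2
        · rw [h3.2 h4, decide_eq_true h4]
        · rw [decide_eq_false h4]
          cases h5 : D.eval z
          · rfl
          · exact absurd (h3.1 h5) h4
      rw [if_pos h2]
      exact sum_nonneg fun c _ => sum_nonneg fun ρ' _ => hnn c ρ'
  refine (sum_le_sum fun ρ _ => h1 ρ).trans ?_
  rw [sum_comm]
  have h2 : ∀ c : List.Vector (Bool × Fin s × Bool) k, ∑ ρ : V → Bs W, ∑ ρ' : V → Bs W,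
      (if Sw.Enc Ts c.1 T₀ ρ ρ' then ∏ g, w g (ρ g) else 0) ≤ κ ^ k := by
    intro c
    rw [sum_comm]
    have h3 : ∀ ρ' : V → Bs W, ∑ ρ : V → Bs W,
        (if Sw.Enc Ts c.1 T₀ ρ ρ' then ∏ g, w g (ρ g) else 0) ≤ κ ^ k * ∏ g, w g (ρ' g) := by
      intro ρ'
      have := Sw.sum_enc hκ hTs c.1 T₀ w (Nat.zero_le _) hw hH' ρ'
      rwa [c.2] at this
    refine (sum_le_sum fun ρ' _ => h3 ρ').trans (le_of_eq ?_)
    rw [← mul_sum, ← Fintype.piFinset_univ, ← prod_univ_sum, prod_congr rfl fun g _ => hw1 g,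
      prod_const_one, mul_one]
  refine (sum_le_sum fun c _ => h2 c).trans (le_of_eq ?_)
  rw [sum_const, card_univ, card_vector, Fintype.card_prod, Fintype.card_prod,
    Fintype.card_fin, Fintype.card_bool, nsmul_eq_mul, mul_pow]
  push_cast
  rw [← mul_pow, ← mul_pow]
  congr 1
  ring

end Pool.Agent.Lib.MP_2b5695_lc.RO
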