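import Pool.Agent.Lib.MP_2b5695_lc.RO.Stmts

/-!
Project RO, piece tail: large deviations.
-/

namespace Pool.Agent.Lib.MP_2b5695_lc.RO

open Pool.Agent.Lib.MP_2b5695_lc.Alg Finset

private lemma tail_e : Real.exp (-1) ≤ 0.37 := by
  have h := Real.exp_one_gt_d9
  rw [Real.exp_neg]
  rw [inv_le_comm₀ (Real.exp_pos 1) (by norm_num)]
  refine le_trans ?_ h.le
  norm_num

/-- the factor of a status -/
private noncomputable def tailF (ν : St → ℝ) (s : St) : ℝ :=
  ν s * (if s = .live then Real.exp (-1) else 1)

private lemma tail_prod {W : Type} [Fintype W] [DecidableEq W] (ν : St → ℝ) (c : W → St) :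
    ∏ w, tailF ν (c w) = (∏ w, ν (c w)) * Real.exp (-(nL c : ℝ)) := by
  have h1 : ∏ w, tailF ν (c w) =
      (∏ w, ν (c w)) * ∏ w, (if c w = .live then Real.exp (-1) else 1) := by
    simp only [tailF]
    rw [Finset.prod_mul_distrib]
  rw [h1, Finset.prod_ite, Finset.prod_const, Finset.prod_const_one, mul_one, ← Real.exp_nat_mul]
  congr 2
  rw [nL]
  ring

private lemma tail_sum (ν : St → ℝ) (hs : ∑ s, ν s = 1) :
    ∑ s, tailF ν s = 1 - ν .live * (1 - Real.exp (-1)) := by
  have h1 : (Finset.univ : Finset St) = {.fls, .tru, .live} := rfl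
  rw [h1] at hs ⊢
  rw [Finset.sum_insert (by decide), Finset.sum_insert (by decide), Finset.sum_singleton] at hs ⊢
  simp only [tailF, reduceCtorEq, if_false, if_true, mul_one]
  linear_combination hs

open Classical in
theorem tail : S_tail := by
  intro W _ _ ν Lm hν hs
  have hexp : Real.exp (-1) ≤ 0.37 := tail_e
  calc (∑ c : W → St, if nL c < Lm then ∏ w, ν (c w) else 0)
      ≤ ∑ c : W → St, Real.exp (Lm : ℝ) * ∏ w, tailF ν (c w) := by
        apply Finset.sum_le_sum
        intro c _
        have hp : 0 ≤ ∏ w, ν (c w) := Finset.prod_nonneg fun w _ => hν _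
        rw [tail_prod]
        split_ifs with h
        · have h1 : (1 : ℝ) ≤ Real.exp (Lm : ℝ) * Real.exp (-(nL c : ℝ)) := by
            rw [← Real.exp_add, Real.one_le_exp_iff]
            have : (nL c : ℝ) ≤ (Lm : ℝ) := by exact_mod_cast h.le
            linarith
          calc ∏ w, ν (c w) = (∏ w, ν (c w)) * 1 := (mul_one _).symm
            _ ≤ (∏ w, ν (c w)) * (Real.exp (Lm : ℝ) * Real.exp (-(nL c : ℝ))) :=
                mul_le_mul_of_nonneg_left h1 hp
            _ = _ := by ring
        · exact mul_nonneg (Real.exp_pos _).le (mul_nonneg hp (Real.exp_pos _).le)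
    _ = Real.exp (Lm : ℝ) * ∏ _w : W, ∑ s, tailF ν s := by
        rw [← Finset.mul_sum, Finset.prod_univ_sum, Fintype.piFinset_univ]
    _ = Real.exp (Lm : ℝ) * (1 - ν .live * (1 - Real.exp (-1))) ^ Fintype.card W := by
        rw [Finset.prod_const, Finset.card_univ, tail_sum ν hs]
    _ ≤ Real.exp (Lm : ℝ) * Real.exp (-(ν .live * (1 - Real.exp (-1)))) ^ Fintype.card W := by
        apply mul_le_mul_of_nonneg_left _ (Real.exp_pos _).le
        have hl : ν .live ≤ 1 := by
          rw [← hs]
          exact Finset.single_le_sum (fun s _ => hν s) (Finset.mem_univ St.live)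
        have h0 : 0 ≤ 1 - ν .live * (1 - Real.exp (-1)) := by
          have h1 : 0 < Real.exp (-1) := Real.exp_pos _
          have h2 : 0 ≤ ν .live := hν _
          nlinarith
        apply pow_le_pow_left₀ h0
        have := Real.add_one_le_exp (-(ν .live * (1 - Real.exp (-1))))
        linarith
    _ = Real.exp (Lm - (1 - Real.exp (-1)) * (Fintype.card W * ν .live)) := by
        rw [← Real.exp_nat_mul, ← Real.exp_add]
        congr 1
        ring
    _ ≤ Real.exp (Lm - 0.63 * (Fintype.card W * ν .live)) := by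
        apply Real.exp_le_exp.2
        have h1 : 0 ≤ (Fintype.card W : ℝ) * ν .live := mul_nonneg (Nat.cast_nonneg _) (hν _)
        have h2 : 0.63 * ((Fintype.card W : ℝ) * ν .live) ≤
            (1 - Real.exp (-1)) * ((Fintype.card W : ℝ) * ν .live) := by
          apply mul_le_mul_of_nonneg_right _ h1
          linarith
        linarith

end Pool.Agent.Lib.MP_2b5695_lc.RO
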