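import Pool.Agent.Lib.MP_2b5695_lc.RO.Stmts

/-!
Project RO, piece [tz]: tensorization.
-/

namespace Pool.Agent.Lib.MP_2b5695_lc.RO

open Finset

theorem tz : S_tz := by
  intro X P U _ _ _ _ _ φ a f
  have h1 : ∀ u : X → U, (∏ x, ∑ q : P, if φ x q = u x then a x q u else 0) =
      ∑ π : X → P, ∏ x, if φ x (π x) = u x then a x (π x) u else 0 := by
    intro u
    rw [Finset.prod_univ_sum]
    simp only [Fintype.piFinset_univ]
  simp only [h1, Finset.sum_mul]
  rw [Finset.sum_comm]
  refine Finset.sum_congr rfl fun π _ => ?_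
  rw [Finset.sum_eq_single (fun y => φ y (π y))]
  · simp
  · intro u _ hu
    have h2 : ∃ x, φ x (π x) ≠ u x := by
      by_contra hc
      push Not at hc
      exact hu (funext fun x => (hc x).symm)
    obtain ⟨x, hx⟩ := h2
    rw [Finset.prod_eq_zero (Finset.mem_univ x) (if_neg hx), zero_mul]
  · intro h
    exact absurd (Finset.mem_univ _) h

end Pool.Agent.Lib.MP_2b5695_lc.RO
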