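import Pool.Agent.Lib.MP_2b5695_lc.RO.Stmts

/-!
Project RO, pieces [val] and [inj]: the value of a top gate, and the words of the bits.
-/

set_option autoImplicit false

namespace Pool.Agent.Lib.MP_2b5695_lc.RO

open Pool.Agent.Lib.MP_2b5695_lc.Alg Finset

private theorem val_up {X W : Type} [Fintype W] (v : X × W → Bool) (x : X) :
    up v x = true ↔ ∀ w, v (x, w) = false := by
  rw [up, decide_eq_true_iff]

theorem val : S_val := by
  intro O ks b
  induction ks with
  | nil =>
    intro T wT τ
    show up (fun x : T × Fin b => O (eW [] wT b x)) τ = true ↔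
      ¬ ∃ j, j < ((ups [] b).headD []).length ∧ O (List.replicate j true ++ wT τ) = true
    rw [val_up]
    have h1 : ((ups [] b).headD []).length = b := by simp [ups]
    rw [h1]
    constructor
    · rintro h ⟨j, hj, hO⟩
      have h2 := h ⟨j, hj⟩
      have h3 : O (List.replicate j true ++ wT τ) = false := h2
      rw [h3] at hO
      exact absurd hO (by decide)
    · intro h w
      show O (List.replicate (w : ℕ) true ++ wT τ) = false
      by_contra hcon
      exact h ⟨w, w.2, by simpa using hcon⟩
  | cons k ks ih =>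
    intro T wT τ
    show up (topv ks (up fun x : Gt (T × (Fin k → Bool)) ks × Fin b =>
      O (eW ks (fun p : T × (Fin k → Bool) => List.ofFn p.2 ++ wT p.1) b x))) τ = true ↔
      ¬ ∃ w : List Bool, w.length = ((ups (k :: ks) b).headD []).length ∧
        ¬ NN O ks.length ((ups (k :: ks) b).tail, w ++ wT τ)
    have h1 : ((ups (k :: ks) b).headD []).length = k := by simp [ups]
    have h2 : (ups (k :: ks) b).tail = ups ks b := by simp [ups]
    rw [val_up, h1, h2]
    have h3 : ∀ w : Fin k → Bool, topv ks (up fun x : Gt (T × (Fin k → Bool)) ks × Fin b =>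
      O (eW ks (fun p : T × (Fin k → Bool) => List.ofFn p.2 ++ wT p.1) b x)) (τ, w) = false ↔
        NN O ks.length (ups ks b, List.ofFn w ++ wT τ) := by
      intro w
      rw [← not_iff_not, Bool.not_eq_false]
      exact ih (T × (Fin k → Bool)) (fun p => List.ofFn p.2 ++ wT p.1) (τ, w)
    constructor
    · rintro h ⟨w, hw, hN⟩
      subst hw
      apply hN
      have h4 := (h3 fun i => w.get i).1 (h _)
      rwa [List.ofFn_get] at h4
    · intro h w
      rw [h3]
      by_contra hcon
      exact h ⟨List.ofFn w, List.length_ofFn, hcon⟩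

private theorem inj_wd (ks : List ℕ) : ∀ (L : ℕ) (T : Type) (wT : T → List Bool),
    Function.Injective wT → (∀ τ, (wT τ).length = L) →
    Function.Injective (wd T ks wT) ∧ ∃ L' : ℕ, ∀ x, (wd T ks wT x).length = L' := by
  induction ks with
  | nil =>
    intro L T wT h1 h2
    exact ⟨h1, L, h2⟩
  | cons k ks ih =>
    intro L T wT h1 h2
    refine ih (k + L) (T × (Fin k → Bool)) (fun p => List.ofFn p.2 ++ wT p.1) ?_ ?_
    · rintro ⟨τ, u⟩ ⟨τ', u'⟩ h
      obtain ⟨h3, h4⟩ := List.append_inj h (by simp)
      rw [Prod.mk.injEq]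
      exact ⟨h1 h4, List.ofFn_injective h3⟩
    · intro p
      rw [List.length_append, List.length_ofFn, h2]

theorem inj : S_inj := by
  intro ks b L T wT h1 h2
  obtain ⟨h3, L', h4⟩ := inj_wd ks L T wT h1 h2
  rintro ⟨x, j⟩ ⟨x', j'⟩ h
  have h5 : List.replicate (j : ℕ) true ++ wd T ks wT x =
      List.replicate (j' : ℕ) true ++ wd T ks wT x' := h
  have h6 := congrArg List.length h5
  rw [List.length_append, List.length_append, h4, h4, List.length_replicate,
    List.length_replicate] at h6
  have h7 : j = j' := Fin.ext (by omega)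
  subst h7
  have h8 := List.append_cancel_left h5
  rw [h3 h8]

end Pool.Agent.Lib.MP_2b5695_lc.RO
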