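import Pool.Agent.Lib.MP_2b5695_lc.RO.Stmts

/-!
Project RO: piece `vl`: the values of the gates are independent.
-/

namespace Pool.Agent.Lib.MP_2b5695_lc.RO

open Finset

namespace VlAux

/-- tensorization -/
lemma tens {X P U : Type} [Fintype X] [DecidableEq X] [Fintype P] [DecidableEq P] [Fintype U]
    [DecidableEq U]
    (φ : P → U) (a : P → ℝ) (f : (X → U) → ℝ) :
    ∑ π : X → P, (∏ x, a (π x)) * f (fun x => φ (π x)) =
      ∑ u : X → U, (∏ x, ∑ q : P, if φ q = u x then a q else 0) * f u := by
  have h1 : ∀ u : X → U, (∏ x, ∑ q : P, if φ q = u x then a q else 0) =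
      ∑ π : X → P, if (fun x => φ (π x)) = u then ∏ x, a (π x) else 0 := by
    intro u
    have h := Finset.prod_univ_sum (fun _ : X => (univ : Finset P))
      (fun x q => if φ q = u x then a q else 0)
    rw [Fintype.piFinset_univ] at h
    rw [h]
    apply Finset.sum_congr rfl
    intro π _
    by_cases hπ : (fun x => φ (π x)) = u
    · rw [if_pos hπ]
      apply Finset.prod_congr rfl
      intro x _
      rw [if_pos (congrFun hπ x)]
    · rw [if_neg hπ]
      have : ∃ x, φ (π x) ≠ u x := by
        by_contra hcon
        push Not at hcon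
        exact hπ (funext hcon)
      obtain ⟨x, hx⟩ := this
      apply Finset.prod_eq_zero (mem_univ x)
      rw [if_neg hx]
  simp only [h1, Finset.sum_mul]
  rw [Finset.sum_comm]
  apply Finset.sum_congr rfl
  intro π _
  rw [Finset.sum_eq_single (fun x => φ (π x))]
  · rw [if_pos rfl]
  · intro u _ hu
    rw [if_neg (Ne.symm hu), zero_mul]
  · intro h
    exact absurd (mem_univ _) h

lemma sum_St (f : St → ℝ) : ∑ s, f s = f .fls + f .tru + f .live := by
  have h : (univ : Finset St) = {.fls, .tru, .live} := by decide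
  rw [h, Finset.sum_insert (by decide), Finset.sum_insert (by decide), Finset.sum_singleton]
  ring

end VlAux

open VlAux in
theorem vl : S_vl := by
  classical
  intro A0 X _ _ _ _ t Γ ν V _ _ hν hOk f
  rw [← hOk.unif (fun a => f (V a))]
  have h1 : ∀ o, Γ.wt o * ∑ v, bn t v * f (V (Γ.B o v)) =
      Γ.wt o * ∑ v : X → Bool, bn t v * f (fun x => (Γ.st o x).val (v x)) := by
    intro o
    by_cases hw : Γ.wt o = 0
    · rw [hw, zero_mul, zero_mul]
    · congr 1
      apply Finset.sum_congr rfl
      intro v _
      have : V (Γ.B o v) = fun x => (Γ.st o x).val (v x) := funext fun x => hOk.value o hw v x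
      rw [this]
  simp only [h1]
  rw [hOk.law (fun s => ∑ v : X → Bool, bn t v * f (fun x => (s x).val (v x)))]
  have h2 : ∑ s : X → St, (∏ x, ν (s x)) * ∑ v : X → Bool, bn t v * f (fun x => (s x).val (v x)) =
      ∑ π : X → St × Bool, (∏ x, (ν (π x).1 * (if (π x).2 then t else 1 - t))) *
        f (fun x => (π x).1.val (π x).2) := by
    simp only [Finset.mul_sum]
    rw [← Fintype.sum_prod_type']
    apply Fintype.sum_equiv (Equiv.arrowProdEquivProdArrow X (fun _ => St) (fun _ => Bool)).symm
    intro p
    rw [Finset.prod_mul_distrib, ← mul_assoc]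
    rfl
  rw [h2, tens (fun q : St × Bool => q.1.val q.2)
    (fun q : St × Bool => ν q.1 * (if q.2 then t else 1 - t)) f]
  apply Finset.sum_congr rfl
  intro u _
  congr 1
  unfold bn
  apply Finset.prod_congr rfl
  intro x _
  have hν' : ν .fls + ν .tru + ν .live = 1 := by
    rw [← hν, sum_St]
  rw [Fintype.sum_prod_type, sum_St]
  simp only [Fintype.sum_bool, St.val]
  cases u x
  · simp
    linear_combination hν'
  · simp
    ring

end Pool.Agent.Lib.MP_2b5695_lc.RO
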