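import Pool.Agent.Lib.MP_2b5695_lc.RO.Stmts

/-!
Project RO (random oracle at all levels), piece `law`: the law of the next statuses.
-/

namespace Pool.Agent.Lib.MP_2b5695_lc.RO

open Finset

private lemma law_sum3 (f : St → ℝ) : ∑ s, f s = f .fls + f .tru + f .live := by
  have h : (Finset.univ : Finset St) = {.fls, .tru, .live} := by
    ext s
    cases s <;> simp
  rw [h, Finset.sum_insert (by simp), Finset.sum_insert (by simp), Finset.sum_singleton]
  ring

section

variable {W : Type} [Fintype W] [DecidableEq W]

private lemma law_sum_q (F : Bs W × Bool → ℝ) :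
    ∑ q : Bs W × Bool, F q = (∑ S : W → Bool, F ((true, S), true)) +
      (∑ S : W → Bool, F ((true, S), false)) +
      ((∑ S : W → Bool, F ((false, S), true)) + ∑ S : W → Bool, F ((false, S), false)) := by
  rw [Fintype.sum_prod_type, Fintype.sum_prod_type, Fintype.sum_bool]
  simp only [Fintype.sum_bool]
  rw [Finset.sum_add_distrib, Finset.sum_add_distrib]

private lemma law_sum_b (F : Bs W → ℝ) :
    ∑ q : Bs W, F q = (∑ S : W → Bool, F (true, S)) + ∑ S : W → Bool, F (false, S) := by
  rw [Fintype.sum_prod_type, Fintype.sum_bool]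

omit [Fintype W] [DecidableEq W] in
private lemma law_ph_tt (S : W → Bool) : ph (true, S) true = (zr : W → Bool) := by
  funext w
  simp [ph, zr]

omit [Fintype W] [DecidableEq W] in
private lemma law_ph_tf (S : W → Bool) : ph (true, S) false = S := by
  funext w
  simp [ph]

omit [Fintype W] [DecidableEq W] in
private lemma law_ph_f (S : W → Bool) (b : Bool) : ph (false, S) b = S := rfl

private lemma law_sum_c (g : St → ℝ) :
    ∑ c : W → St, ∏ w, g (c w) = (g .fls + g .tru + g .live) ^ Fintype.card W := by
  have h := Finset.prod_univ_sum (fun _ : W => (Finset.univ : Finset St)) (fun _ s => g s)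
  rw [Fintype.piFinset_univ] at h
  rw [← h, Finset.prod_const, Finset.card_univ, law_sum3]

end

theorem law : S_law := by
  classical
  intro hbi W _ _ ν t t' Lm hP hν hν1
  have p1 := hP.pos
  have p2 := hP.le
  have p3 := hP.pos'
  have hprod : ∀ c : W → St, 0 ≤ ∏ w, ν (c w) := fun c => Finset.prod_nonneg fun w _ => hν _
  have hν3 : ν .fls + ν .tru + ν .live = 1 := by rw [← law_sum3]; exact hν1
  have htot : ∑ c : W → St, ∏ w, ν (c w) = 1 := by rw [law_sum_c, hν3, one_pow]
  have hnn : ∀ c : W → St, ∀ ξ, 0 ≤ bw t t' Lm c ξ := fun c => (hbi W t t' Lm c hP).1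
  have hone : ∀ c : W → St, ∑ ξ, bw t t' Lm c ξ = 1 := fun c => (hbi W t t' Lm c hP).2.1
  have hbt : ∀ c : W → St, ∀ S, bw t t' Lm c (true, S) ≠ 0 → (∀ w, c w ≠ .tru) ∧ S ≠ zr :=
    fun c => (hbi W t t' Lm c hP).2.2.2.1
  have hzr : ∀ c : W → St, mw t c zr = (1 - t) ^ nL c := fun c =>
    (hbi W t t' Lm c hP).2.2.2.2.2.1
  have h0 : ∀ c : W → St, bw t t' Lm c (true, (zr : W → Bool)) = 0 := by
    intro c
    by_contra h
    exact (hbt c _ h).2 rfl
  -- the sum of the weights of the free states
  set A : (W → St) → ℝ := fun c => ∑ S : W → Bool, bw t t' Lm c (true, S) with hA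
  have hA0 : ∀ c, 0 ≤ A c := fun c => Finset.sum_nonneg fun S _ => hnn c _
  have hA1 : ∀ c, t' * A c + bw t t' Lm c (false, (zr : W → Bool)) = (1 - t) ^ nL c := by
    intro c
    have h := (hbi W t t' Lm c hP).2.2.2.2.2.2.1 zr
    rw [law_sum_q] at h
    simp only [law_ph_tt, law_ph_tf, law_ph_f, if_true, Bool.false_eq_true, if_false] at h
    rw [Finset.sum_ite_eq' Finset.univ (zr : W → Bool), if_pos (Finset.mem_univ _),
      Finset.sum_ite_eq' Finset.univ (zr : W → Bool), if_pos (Finset.mem_univ _),
      Finset.sum_ite_eq' Finset.univ (zr : W → Bool), if_pos (Finset.mem_univ _),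
      ← Finset.sum_mul, h0, hzr] at h
    rw [← h, hA]
    ring
  have hA2 : ∀ c : W → St, ¬ (∀ w, c w ≠ .tru) → A c = 0 := by
    intro c hc
    apply Finset.sum_eq_zero
    intro S _
    by_contra h
    exact hc (hbt c S h).1
  have hA3 : ∀ c : W → St, (∀ w, c w ≠ .tru) → Lm ≤ nL c → t' * A c = (1 - t) ^ nL c / 2 := by
    intro c hc hL
    have h := (hbi W t t' Lm c hP).2.2.2.2.2.2.2.2 hc hL
    have n1 : ∀ S : W → Bool, nst c (true, S) = .live := fun S => rfl
    have n2 : ∀ S : W → Bool, nst c (false, S) ≠ .live := by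
      intro S
      unfold nst
      simp only
      split_ifs <;> simp
    rw [law_sum_q] at h
    simp only [law_ph_tt, law_ph_tf, law_ph_f, if_true, Bool.false_eq_true, if_false, n1,
      if_neg (n2 _), mul_one, mul_zero, ite_self, Finset.sum_const_zero, add_zero] at h
    rw [Finset.sum_ite_eq' Finset.univ (zr : W → Bool), if_pos (Finset.mem_univ _), h0,
      ← Finset.sum_mul, hzr] at h
    rw [← h, hA]
    ring
  -- the sums over the states
  have hlive : ∀ c : W → St,
      (∑ ξ : Bs W, if nst c ξ = .live then bw t t' Lm c ξ else 0) = A c := by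
    intro c
    rw [law_sum_b]
    have e1 : ∀ S : W → Bool, (if nst c (true, S) = .live then bw t t' Lm c (true, S) else 0) =
        bw t t' Lm c (true, S) := fun S => if_pos rfl
    have e2 : ∀ S : W → Bool,
        (if nst c (false, S) = .live then bw t t' Lm c (false, S) else 0) = 0 := by
      intro S
      rw [if_neg]
      unfold nst
      simp only
      split_ifs <;> simp
    rw [Finset.sum_congr rfl fun S _ => e1 S, Finset.sum_congr rfl fun S _ => e2 S,
      Finset.sum_const_zero, add_zero]
  have htru : ∀ c : W → St,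
      (∑ ξ : Bs W, if nst c ξ = .tru then bw t t' Lm c ξ else 0) =
      if ∀ w, c w ≠ .tru then bw t t' Lm c (false, (zr : W → Bool)) else 0 := by
    intro c
    rw [law_sum_b]
    have e1 : ∀ S : W → Bool,
        (if nst c (true, S) = .tru then bw t t' Lm c (true, S) else 0) = 0 := by
      intro S
      rw [if_neg]
      unfold nst
      simp
    have e2 : ∀ S : W → Bool,
        (if nst c (false, S) = .tru then bw t t' Lm c (false, S) else 0) =
        if S = zr then (if ∀ w, c w ≠ .tru then bw t t' Lm c (false, S) else 0) else 0 := by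
      intro S
      by_cases hS : S = zr
      · by_cases hc : ∀ w, c w ≠ .tru
        · have h1 : nst c (false, S) = .tru := if_pos ⟨hc, hS⟩
          rw [if_pos h1, if_pos hS, if_pos hc]
        · have h1 : nst c (false, S) = .fls := if_neg fun h => hc h.1
          rw [h1, if_neg (by simp), if_pos hS, if_neg hc]
      · have h1 : nst c (false, S) = .fls := if_neg fun h => hS h.2
        rw [h1, if_neg (by simp), if_neg hS]
    rw [Finset.sum_congr rfl fun S _ => e1 S, Finset.sum_congr rfl fun S _ => e2 S,
      Finset.sum_const_zero, zero_add, Finset.sum_ite_eq' Finset.univ (zr : W → Bool),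
      if_pos (Finset.mem_univ _)]
  -- the sum over the statuses of the children
  have hpow : ∑ c : W → St, (∏ w, ν (c w)) * (if ∀ w, c w ≠ .tru then (1 - t) ^ nL c else 0) =
      (1 - (ν .tru + t * ν .live)) ^ Fintype.card W := by
    have h := law_sum_c (W := W) fun s => ν s * (if s = .tru then 0 else
      if s = .live then 1 - t else 1)
    have e : ν .fls * (if St.fls = .tru then 0 else if St.fls = .live then 1 - t else 1) +
        ν .tru * (if St.tru = .tru then 0 else if St.tru = .live then 1 - t else 1) +
        ν .live * (if St.live = .tru then 0 else if St.live = .live then 1 - t else 1) =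
        1 - (ν .tru + t * ν .live) := by
      rw [if_neg (by simp), if_neg (by simp), if_pos rfl, if_neg (by simp), if_pos rfl]
      linear_combination hν3
    rw [e] at h
    rw [← h]
    apply Finset.sum_congr rfl
    intro c _
    rw [Finset.prod_mul_distrib]
    congr 1
    by_cases hc : ∀ w, c w ≠ .tru
    · rw [if_pos hc]
      unfold nL
      rw [← Finset.prod_const, Finset.prod_filter]
      apply Finset.prod_congr rfl
      intro w _
      rw [if_neg (hc w)]
    · rw [if_neg hc]
      symm
      push Not at hc
      obtain ⟨w, hw⟩ := hc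
      apply Finset.prod_eq_zero (Finset.mem_univ w)
      rw [if_pos hw]
  have hnl : ∀ s, nlaw W t t' Lm ν s = ∑ c : W → St, (∏ w, ν (c w)) *
      ∑ ξ : Bs W, if nst c ξ = s then bw t t' Lm c ξ else 0 := fun s => rfl
  refine ⟨?_, ?_, ?_, ?_⟩
  · intro s
    rw [hnl]
    apply Finset.sum_nonneg
    intro c _
    apply mul_nonneg (hprod c)
    apply Finset.sum_nonneg
    intro ξ _
    split_ifs
    · exact hnn c ξ
    · exact le_rfl
  · simp only [hnl]
    rw [Finset.sum_comm]
    rw [← htot]
    apply Finset.sum_congr rfl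
    intro c _
    rw [← Finset.mul_sum, Finset.sum_comm]
    have : ∀ ξ : Bs W, ∑ s, (if nst c ξ = s then bw t t' Lm c ξ else 0) = bw t t' Lm c ξ := by
      intro ξ
      rw [Finset.sum_ite_eq Finset.univ (nst c ξ), if_pos (Finset.mem_univ _)]
    rw [Finset.sum_congr rfl fun ξ _ => this ξ, hone, mul_one]
  · rw [hnl, hnl, ← hpow, Finset.mul_sum, ← Finset.sum_add_distrib]
    apply Finset.sum_congr rfl
    intro c _
    rw [hlive, htru]
    by_cases hc : ∀ w, c w ≠ .tru
    · rw [if_pos hc, if_pos hc, ← hA1 c]
      ring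
    · rw [if_neg hc, if_neg hc, hA2 c hc]
      ring
  · rw [hnl, div_le_iff₀ (by positivity), sub_le_iff_le_add, ← hpow, Finset.sum_mul,
      ← Finset.sum_add_distrib]
    apply Finset.sum_le_sum
    intro c _
    rw [hlive]
    have hpc := hprod c
    by_cases hc : ∀ w, c w ≠ .tru
    · rw [if_pos hc]
      by_cases hL : nL c < Lm
      · rw [if_pos hL]
        have h1 : (1 - t) ^ nL c ≤ 1 := pow_le_one₀ (by linarith) (by linarith)
        have h2 : (∏ w, ν (c w)) * (1 - t) ^ nL c ≤ ∏ w, ν (c w) := by
          nlinarith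
        have h3 : 0 ≤ (∏ w, ν (c w)) * A c * (2 * t') := by
          have := hA0 c
          positivity
        linarith
      · rw [if_neg hL, add_zero]
        have h1 := hA3 c hc (by omega)
        apply le_of_eq
        have : (1 - t) ^ nL c = 2 * (t' * A c) := by rw [h1]; ring
        rw [this]
        ring
    · rw [if_neg hc, mul_zero]
      have := hA0 c
      split_ifs
      · positivity
      · positivity

end Pool.Agent.Lib.MP_2b5695_lc.RO
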