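import Pool.Agent.Lib.MP_2b5695_lc.RO.Stmts

/-!
Project RO, pieces sub and clp: restrictions do not increase the level; the functions that must
become decision trees.
-/

namespace Pool.Agent.Lib.MP_2b5695_lc.RO

open Pool.Agent.Lib.MP_2b5695_lc.Alg

/-- the restricted decision tree -/
private def subT {X W β : Type} (ξ : X → Bs W) : Tree (X × W) β → Tree X β
  | .leaf b => .leaf b
  | .node y l r => .node y.1 (bif ph (ξ y.1) false y.2 then subT ξ r else subT ξ l)
      (bif ph (ξ y.1) true y.2 then subT ξ r else subT ξ l)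

private lemma subT_depth {X W β : Type} (ξ : X → Bs W) (T : Tree (X × W) β) :
    (subT ξ T).depth ≤ T.depth := by
  induction T with
  | leaf b => exact le_rfl
  | node y l r ihl ihr =>
    simp only [subT, Tree.depth]
    apply Nat.succ_le_succ
    apply max_le
    · cases ph (ξ y.1) false y.2
      · exact ihl.trans (le_max_left _ _)
      · exact ihr.trans (le_max_right _ _)
    · cases ph (ξ y.1) true y.2
      · exact ihl.trans (le_max_left _ _)
      · exact ihr.trans (le_max_right _ _)

private lemma subT_eval {X W β : Type} (ξ : X → Bs W) (T : Tree (X × W) β) (v : X → Bool) :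
    (subT ξ T).eval v = T.eval fun y => ph (ξ y.1) (v y.1) y.2 := by
  induction T with
  | leaf b => rfl
  | node y l r ihl ihr =>
    simp only [subT, Tree.eval]
    cases hv : v y.1
    · cases hp : ph (ξ y.1) false y.2
      · simpa using ihl
      · simpa using ihr
    · cases hp : ph (ξ y.1) true y.2
      · simpa using ihl
      · simpa using ihr

private lemma sub_DT {X W β : Type} (ξ : X → Bs W) (s : ℕ) (f : (X × W → Bool) → β)
    (h : DT s f) : DT s fun v : X → Bool => f fun y => ph (ξ y.1) (v y.1) y.2 := by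
  obtain ⟨T, h1, h2⟩ := h
  refine ⟨subT ξ T, (subT_depth ξ T).trans h1, fun v => ?_⟩
  rw [subT_eval, h2]

theorem sub : S_sub := by
  intro M s m
  induction m with
  | zero =>
    intro X W Q F ξ h q
    exact sub_DT ξ s _ (h q)
  | succ m ih =>
    intro X W Q F ξ h
    obtain ⟨h1, h2, Q', F', U, h3, h4⟩ := h
    exact ⟨h1, h2, Q', _, U, ih X W Q' F' ξ h3, fun q v => h4 q _⟩

private lemma sub_cert {X β : Type} (T : Tree X β) (α : X → Bool) :
    ∃ S : Finset X, S.card ≤ T.depth ∧ ∀ γ : X → Bool, (∀ x ∈ S, γ x = α x) →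
      T.eval γ = T.eval α := by
  classical
  induction T with
  | leaf b => exact ⟨∅, le_rfl, fun γ _ => rfl⟩
  | node x l r ihl ihr =>
    obtain ⟨Sl, l1, l2⟩ := ihl
    obtain ⟨Sr, r1, r2⟩ := ihr
    cases hx : α x
    · refine ⟨insert x Sl, ?_, ?_⟩
      · refine (Finset.card_insert_le _ _).trans ?_
        exact Nat.succ_le_succ (l1.trans (le_max_left _ _))
      · intro γ hγ
        have h1 : γ x = false := by
          rw [hγ x (Finset.mem_insert_self x Sl), hx]
        simp only [Tree.eval, h1, hx, cond_false]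
        exact l2 γ fun y hy => hγ y (Finset.mem_insert_of_mem hy)
    · refine ⟨insert x Sr, ?_, ?_⟩
      · refine (Finset.card_insert_le _ _).trans ?_
        exact Nat.succ_le_succ (r1.trans (le_max_right _ _))
      · intro γ hγ
        have h1 : γ x = true := by
          rw [hγ x (Finset.mem_insert_self x Sr), hx]
        simp only [Tree.eval, h1, hx, cond_true]
        exact r2 γ fun y hy => hγ y (Finset.mem_insert_of_mem hy)

theorem clp : S_clp := by
  intro M s m
  induction m with
  | zero =>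
    intro X W Q F h
    obtain ⟨h1, h2, Q', F', U, h3, h4⟩ := h
    refine ⟨Q, F, h1, h2, ?_, fun ξ hξ => hξ⟩
    intro q α hα
    obtain ⟨u, hu, hf⟩ := (h4 q α).1 hα
    obtain ⟨T, t1, t2⟩ := h3 u
    obtain ⟨S, s1, s2⟩ := sub_cert T α
    refine ⟨S, s1.trans t1, fun γ hγ => (h4 q γ).2 ⟨u, hu, ?_⟩⟩
    rw [← t2, s2 γ hγ, t2, hf]
  | succ m ih =>
    intro X W Q F h
    obtain ⟨h1, h2, Q', F', U, h3, h4⟩ := h
    obtain ⟨J, g, j1, j2, j3, j4⟩ := ih X W Q' F' h3
    refine ⟨J, g, j1, j2, j3, fun ξ hξ => ?_⟩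
    exact ⟨h1, h2, Q', _, U, j4 ξ hξ, fun q v => h4 q _⟩

end Pool.Agent.Lib.MP_2b5695_lc.RO
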